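import Pool.Agent.H240.IX.DefG

/-!
# Intervals of quantum limits: perturbations off the collar, statements
-/

set_option autoImplicit false
set_option linter.unusedSectionVars false

open Set Filter Topology MeasureTheory
open scoped ContDiff ComplexConjugate Real

noncomputable section

namespace Pool.Agent.H240.IX

open Pool.Agent.Y262.EG Pool.Agent.Y262.EX Pool.Agent.Y262.EL Pool.Agent.Y262.QE
open Pool.Agent.Y264.QR Pool.Agent.H240.SC Pool.Agent.H240.SG Pool.Agent.H240.CG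

/-- smooth functions on the surface which vanish on the collar -/
structure Of {M : Type} (pr : ℂ → M) (ψ : M → ℝ) : Prop where
  sm : ContDiffOn ℝ ∞ (fun z => ψ (pr z)) Om
  zero : ∀ z : ℂ, |z.re - L0 / 2| < 3 / 4 * L0 → ψ (pr z) = 0

/-- bounds of the derivatives on the set `O` -/
def Bd {M : Type} (pr : ℂ → M) (O : Set ℂ) (ψ : M → ℝ) (N : ℕ) (ρ : ℝ) : Prop :=
  ∀ j ≤ N, ∀ z ∈ O, ‖iteratedFDeriv ℝ j (fun z => ψ (pr z)) z‖ ≤ ρ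

/-- a relatively compact open set which meets all orbits -/
structure Fd (O : Set ℂ) : Prop where
  opn : IsOpen O
  cpt : IsCompact (closure O)
  sub : closure O ⊆ Om
  cov : ∀ z ∈ Om, ∃ γ, ac γ z ∈ O

/-- `IX-15`: existence of such a set, and of bounds -/
def StFd : Prop :=
  (∃ O, Fd O) ∧ ∀ (M : Type) (pr : ℂ → M) (O : Set ℂ) (ψ : M → ℝ), Fd O → Of pr ψ →
    ∀ N : ℕ, ∃ K : ℝ, 0 ≤ K ∧ Bd pr O ψ N K

/-- `IX-16`: sums -/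
def StOfS : Prop :=
  ∀ (M : Type) [MetricSpace M] [CompactSpace M] (pr : ℂ → M) (O : Set ℂ), PrM Om ac pr → Fd O →
    ∀ (ψ : ℕ → M → ℝ) (ρ : ℕ → ℝ), Summable ρ → (∀ n, Of pr (ψ n)) →
    (∀ n, Bd pr O (ψ n) (n + 3) (ρ n)) →
    Of pr (fun x => ∑' n, ψ n x) ∧ (∀ n x, |ψ n x| ≤ ρ n) ∧ (∀ x, |∑' n, ψ n x| ≤ ∑' n, ρ n) ∧
    ∀ z ∈ O, |px (px fun z => ∑' n, ψ n (pr z)) z + py (py fun z => ∑' n, ψ n (pr z)) z| ≤
      2 * ∑' n, ρ n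

/-- `IX-17`: the surface belongs to the class with ergodic geodesic flow -/
def StCls4 : Prop :=
  ∀ (M P : Type) [MetricSpace M] [CompactSpace M] [MetricSpace P] [CompactSpace P] (pr : ℂ → M)
    (q : Y → P) (G : ℝ → ℝ) (c C : ℝ) (Ψ : M → ℝ) (κ' : ℝ) (O : Set ℂ), Fd O → Prof2 G c C →
    Of pr Ψ → 0 < κ' →
    (∀ z ∈ Om, (∀ γ, 5 / 8 * L0 ≤ |(ac γ z).re - L0 / 2|) →
      curv (fun z => phi G c z + Ψ (pr z)) z ≤ -κ') →
    PrM Om ac pr → IsUT Om (fun z => phi G c z + Ψ (pr z)) pr q →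
    ∃ C' : ℝ, Cls2 Om (fun z => phi G c z + Ψ (pr z)) pr L0 (1 / 8 * L0) (1 / 4 * L0) κ' C'
      (L0 / 2) G

/-- `IX-18`: negative curvature off the collar -/
def StCrv : Prop :=
  ∀ (M : Type) [MetricSpace M] [CompactSpace M] (pr : ℂ → M) (g : ℝ → ℝ) (c1 C0 m0 : ℝ)
    (O : Set ℂ), PrM Om ac pr → Fd O → Prof g c1 C0 → 0 < m0 →
    ∃ ε0 κ' : ℝ, 0 < ε0 ∧ 0 < κ' ∧ ∀ (G : ℝ → ℝ) (c C : ℝ), Prof2 G (c1 + c) C →
      (∀ x ∈ I0, |G x - g x| ≤ 1) → |c| ≤ 1 →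
      (∀ x, |x - L0 / 2| < 4 / 5 * L0 → 1 / 2 * deriv (deriv g) x ≤ deriv (deriv G) x) →
      (∀ x, 4 / 5 * L0 ≤ |x - L0 / 2| → |x - L0 / 2| ≤ 9 / 10 * L0 → m0 ≤ deriv (deriv G) x) →
      (∀ x, 9 / 10 * L0 ≤ |x - L0 / 2| → G x = g x + c) →
      ∀ Ψ : M → ℝ, Of pr Ψ → (∀ x, |Ψ x| ≤ ε0) →
      (∀ z ∈ O, |px (px fun z => Ψ (pr z)) z + py (py fun z => Ψ (pr z)) z| ≤ ε0) →
      ∀ z ∈ Om, (∀ γ, 5 / 8 * L0 ≤ |(ac γ z).re - L0 / 2|) →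
        curv (fun z => phi G (c1 + c) z + Ψ (pr z)) z ≤ -κ'

/-- the admissible functions: a function of the coordinate in the collar, zero near the closed
geodesic -/
structure Fn {M : Type} (pr : ℂ → M) (F : M → ℝ) (P : ℝ → ℝ) (ψ : M → ℝ) (α : ℝ) : Prop where
  rd : Rd P 0 α
  of : Of pr ψ
  eq : ∀ z ∈ Om, F (pr z) = Hf P 0 z + ψ (pr z)

/-- `IX-19`: approximation of smooth functions by admissible functions -/
def StDec : Prop :=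
  ∀ (M : Type) [MetricSpace M] [CompactSpace M] (pr : ℂ → M) (F : M → ℝ) (P : ℝ → ℝ),
    PrM Om ac pr → ContDiffOn ℝ ∞ (fun z => F (pr z)) Om →
    (∀ z : ℂ, |z.re - L0 / 2| < 4 / 5 * L0 → F (pr z) = P z.re) → ∀ ε : ℝ, 0 < ε →
    ∃ (F' : M → ℝ) (P' : ℝ → ℝ) (ψ : M → ℝ) (α : ℝ), Fn pr F' P' ψ α ∧
      ∀ x, |F x - P (L0 / 2) - F' x| < ε

/-- `IX-20`: a countable dense family of admissible functions -/
def StSepM : Prop :=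
  ∀ (M : Type) [MetricSpace M] [CompactSpace M] (pr : ℂ → M), PrM Om ac pr →
    ∃ (F : ℕ → M → ℝ) (P : ℕ → ℝ → ℝ) (ψ : ℕ → M → ℝ) (α : ℕ → ℝ),
      (∀ k, Fn pr (F k) (P k) (ψ k) (α k)) ∧
      ∀ (F' : M → ℝ) (P' : ℝ → ℝ) (ψ' : M → ℝ) (α' : ℝ), Fn pr F' P' ψ' α' → ∀ ε : ℝ, 0 < ε →
        ∃ k, ∀ x, |F k x - F' x| < ε

end Pool.Agent.H240.IX
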