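import Pool.Agent.H240.IX.Def

/-!
# Compactness of unit eigenvectors of converging metrics
-/

set_option autoImplicit false
set_option linter.unusedSectionVars false

open Set Filter Topology MeasureTheory
open scoped Real ContDiff

noncomputable section

namespace Pool.Agent.H240.IX.A627

open Pool.Agent.Y262.QE Pool.Agent.Y264.QR Pool.Agent.H240.NX Pool.Agent.H240.IX

theorem stCU : StCU := by
  intro M _ _ _ _ μ _ H _ _ _ i a b hSt φ φ0 hφ j w hw
  have hS := hSt.sf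
  have hB := hSt.isb
  have hF := hSt.fm
  have hexp := hSt.exp
  obtain ⟨l1, l2, l3, l4, l5⟩ := tLip M μ H a b hF hexp
  obtain ⟨E, hE⟩ : ∃ E : ℕ → ℝ, E = fun n => Ev a (b (φ n)) j := ⟨_, rfl⟩
  obtain ⟨E0, hE0⟩ : ∃ E0 : ℝ, E0 = Ev a (b φ0) j := ⟨_, rfl⟩
  have eigw : ∀ n v, a (w n) v = E n * b (φ n) (w n) v := by
    intro n v
    rw [hE]
    exact (hw n).eig v
  have hEt : Tendsto E atTop (𝓝 E0) := by
    have h1 := ((l4 j).tendsto φ0).comp hφ
    rw [hE0]
    refine h1.congr fun n => ?_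
    rw [hE]
    rfl
  -- bounds
  have hb0 : ∀ v : H, b 0 v v = ‖i v‖ ^ 2 := by
    intro v
    rw [hB, lp_nsq]
    refine integral_congr_ae (Eventually.of_forall fun t => ?_)
    show Real.exp 0 * _ = _
    rw [Real.exp_zero]
    ring
  obtain ⟨R, hR⟩ : ∃ R : ℝ, ∀ n, ‖φ n‖ ≤ R := by
    obtain ⟨R, hR⟩ := hφ.norm.bddAbove_range
    exact ⟨R, fun n => hR ⟨n, rfl⟩⟩
  have hin : ∀ n (v : H), ‖i v‖ ^ 2 ≤ Real.exp R * b (φ n) v v := by
    intro n v
    rw [← hb0]
    refine (hexp 0 (φ n) v).trans (mul_le_mul_of_nonneg_right (Real.exp_le_exp.2 ?_) ((hF _).nb v))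
    rw [zero_sub, norm_neg]
    exact hR n
  have hni : ∀ n (v : H), b (φ n) v v ≤ Real.exp R * ‖i v‖ ^ 2 := by
    intro n v
    rw [← hb0]
    refine (hexp (φ n) 0 v).trans (mul_le_mul_of_nonneg_right (Real.exp_le_exp.2 ?_) ((hF _).nb v))
    rw [sub_zero]
    exact hR n
  have hE0n : ∀ n, 0 ≤ E n := by
    intro n
    rw [hE]
    exact l1 _ _
  obtain ⟨A, hA0, hA⟩ : ∃ A : ℝ, 0 ≤ A ∧ ∀ n, E n ≤ A := by
    obtain ⟨A, hA⟩ := hEt.bddAbove_range
    exact ⟨A, (hE0n 0).trans (hA ⟨0, rfl⟩), fun n => hA ⟨n, rfl⟩⟩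
  have hbe : ∀ n, b (φ n) (w n) (w n) = 1 := fun n => (hw n).one
  have hae : ∀ n, a (w n) (w n) = E n := by
    intro n
    rw [eigw, hbe, mul_one]
  have hnorm : ∀ n, ‖w n‖ ^ 2 ≤ A + Real.exp R := by
    intro n
    rw [hS.nm, hae]
    have h1 := hin n (w n)
    rw [hbe, mul_one] at h1
    linarith [hA n]
  -- functionals
  obtain ⟨Cw, hCw⟩ := hS.wy
  have hwy : ∀ k : ℕ, ∃ (N : ℕ) (l : Fin N → H →L[ℝ] ℝ), ∀ v,
      ‖i v‖ ^ 2 ≤ 1 / ((k : ℝ) + 1) * a v v + ∑ q, (l q v) ^ 2 := by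
    intro k
    obtain ⟨N, l, -, h2⟩ := hCw (1 / ((k : ℝ) + 1)) (by positivity) (by
      rw [div_le_one (by positivity)]
      have : (0 : ℝ) ≤ k := Nat.cast_nonneg k
      linarith)
    exact ⟨N, l, h2⟩
  choose N l hl using hwy
  let T := Σ k : ℕ, Fin (N k)
  set x : ℕ → T → ℝ := fun n t => l t.1 t.2 (w n) with hx
  set Bd : T → ℝ := fun t => ‖l t.1 t.2‖ * Real.sqrt (A + Real.exp R) with hBd
  have hxK : ∀ n, x n ∈ Set.pi univ fun t => Icc (-(Bd t)) (Bd t) := by
    intro n t _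
    refine abs_le.1 ?_
    calc |x n t| ≤ ‖l t.1 t.2‖ * ‖w n‖ := (l t.1 t.2).le_opNorm _
      _ ≤ ‖l t.1 t.2‖ * Real.sqrt (A + Real.exp R) :=
        mul_le_mul_of_nonneg_left (Real.le_sqrt_of_sq_le (hnorm n)) (norm_nonneg _)
  have hcomp : IsCompact (Set.pi univ fun t : T => Icc (-(Bd t)) (Bd t)) :=
    isCompact_univ_pi fun t => isCompact_Icc
  obtain ⟨x0, -, θ, hθ, hθx⟩ := hcomp.tendsto_subseq hxK
  have hxc : ∀ t, CauchySeq fun n => x (θ n) t := by
    intro t
    have h1 : Tendsto (fun n => x (θ n) t) atTop (𝓝 (x0 t)) := (tendsto_pi_nhds.1 hθx) t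
    exact h1.cauchySeq
  have hcau : CauchySeq fun n => w (θ n) := by
    -- the inclusion
    have h1 : ∀ η : ℝ, 0 < η → ∃ K0 : ℕ, ∀ m ≥ K0, ∀ n ≥ K0,
        ‖i (w (θ m) - w (θ n))‖ ^ 2 < η := by
      intro η hη
      obtain ⟨k, hk⟩ := exists_nat_gt (8 * A / η)
      have hk' : 1 / ((k : ℝ) + 1) * (4 * A) < η / 2 := by
        have h2 : 8 * A < (k + 1) * η := by
          rw [div_lt_iff₀ hη] at hk
          nlinarith
        rw [one_div, inv_mul_lt_iff₀ (by positivity)]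
        linarith
      have h2 : ∀ q : Fin (N k), ∃ K0 : ℕ, ∀ m ≥ K0, ∀ n ≥ K0,
          (l k q (w (θ m) - w (θ n))) ^ 2 ≤ η / (2 * (N k + 1)) := by
        intro q
        have h3 := Metric.cauchySeq_iff.1 (hxc ⟨k, q⟩) (Real.sqrt (η / (2 * (N k + 1))))
          (by positivity)
        obtain ⟨K0, hK0⟩ := h3
        refine ⟨K0, fun m hm n hn => ?_⟩
        have h4 := hK0 m hm n hn
        rw [Real.dist_eq] at h4
        have h5 : l k q (w (θ m) - w (θ n)) = x (θ m) ⟨k, q⟩ - x (θ n) ⟨k, q⟩ := by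
          rw [map_sub]
        rw [h5, ← sq_abs]
        have h6 := pow_le_pow_left₀ (abs_nonneg _) h4.le 2
        rwa [Real.sq_sqrt (by positivity)] at h6
      choose K0 hK0 using h2
      refine ⟨∑ q, K0 q, fun m hm n hn => ?_⟩
      have hle : ∀ q, K0 q ≤ ∑ q, K0 q := fun q =>
        Finset.single_le_sum (f := K0) (fun _ _ => Nat.zero_le _) (Finset.mem_univ q)
      have h3 := hl k (w (θ m) - w (θ n))
      have h4 : a (w (θ m) - w (θ n)) (w (θ m) - w (θ n)) ≤ 4 * A := by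
        have h5 := hS.na (w (θ m) + w (θ n))
        simp only [map_add, add_apply] at h5
        simp only [map_sub, sub_apply]
        have g1 := hae (θ m)
        have g2 := hae (θ n)
        have g3 := hA (θ m)
        have g4 := hA (θ n)
        linarith
      have h5 : ∑ q, (l k q (w (θ m) - w (θ n))) ^ 2 ≤ η / 2 := by
        calc ∑ q, (l k q (w (θ m) - w (θ n))) ^ 2
            ≤ ∑ q : Fin (N k), η / (2 * (N k + 1)) :=
              Finset.sum_le_sum fun q _ => hK0 q m ((hle q).trans hm) n ((hle q).trans hn)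
          _ = N k * (η / (2 * (N k + 1))) := by simp
          _ ≤ η / 2 := by
              rw [mul_div_assoc', div_le_div_iff₀ (by positivity) (by positivity)]
              nlinarith
      have h6 : 1 / ((k : ℝ) + 1) * a (w (θ m) - w (θ n)) (w (θ m) - w (θ n)) ≤
          1 / ((k : ℝ) + 1) * (4 * A) := mul_le_mul_of_nonneg_left h4 (by positivity)
      linarith
    -- the energy
    have h2 : ∀ m n, a (w (θ m) - w (θ n)) (w (θ m) - w (θ n)) ≤
        2 * A * (Real.sqrt (Real.exp R) * ‖i (w (θ m) - w (θ n))‖) := by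
      intro m n
      set d := w (θ m) - w (θ n) with hd
      have h3 : a d d = a (w (θ m)) d - a (w (θ n)) d := by
        have h33 : ∀ x y z : H, a (x - y) z = a x z - a y z := fun x y z => by
          rw [map_sub a, sub_apply]
        exact h33 _ _ _
      have h4 : ∀ n, |a (w (θ n)) d| ≤ A * (Real.sqrt (Real.exp R) * ‖i d‖) := by
        intro n
        rw [eigw, abs_mul, abs_of_nonneg (hE0n _)]
        refine mul_le_mul (hA _) ?_ (abs_nonneg _) hA0
        have h5 := cs (hF (φ (θ n))).sb (hF (φ (θ n))).nb (w (θ n)) d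
        rw [hbe, one_mul] at h5
        have h6 := h5.trans (hni (θ n) d)
        rw [← Real.sqrt_sq (norm_nonneg (i d)), ← Real.sqrt_mul (Real.exp_pos R).le]
        exact Real.abs_le_sqrt h6
      rw [h3]
      have h5 := h4 m
      have h6 := h4 n
      have h7 := le_abs_self (a (w (θ m)) d)
      have h8 := neg_abs_le (a (w (θ n)) d)
      linarith
    rw [Metric.cauchySeq_iff]
    intro ε hε
    have h3 : ∃ η : ℝ, 0 < η ∧ η ≤ 1 ∧ (2 * A * Real.sqrt (Real.exp R) + 1) * η < ε ^ 2 := by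
      set Q := 2 * A * Real.sqrt (Real.exp R) + 1 with hQ
      have hQp : 0 < Q := by
        have := mul_nonneg (mul_nonneg zero_le_two hA0) (Real.sqrt_nonneg (Real.exp R))
        linarith
      refine ⟨min 1 (ε ^ 2 / (2 * Q)), by positivity, min_le_left _ _, ?_⟩
      have h4 : Q * min 1 (ε ^ 2 / (2 * Q)) ≤ Q * (ε ^ 2 / (2 * Q)) :=
        mul_le_mul_of_nonneg_left (min_le_right _ _) hQp.le
      have h5 : Q * (ε ^ 2 / (2 * Q)) = ε ^ 2 / 2 := by field_simp
      have h6 : 0 < ε ^ 2 := by positivity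
      linarith
    obtain ⟨η, hη, hη1, hηε⟩ := h3
    obtain ⟨K0, hK0⟩ := h1 (η ^ 2) (by positivity)
    refine ⟨K0, fun m hm n hn => ?_⟩
    rw [dist_eq_norm]
    have h4 := hK0 m hm n hn
    have h5 := h2 m n
    set d := w (θ m) - w (θ n) with hd
    have h6 : ‖i d‖ < η := lt_of_pow_lt_pow_left₀ 2 hη.le h4
    have h7 : ‖d‖ ^ 2 < ε ^ 2 := by
      rw [hS.nm]
      have h8 : 2 * A * (Real.sqrt (Real.exp R) * ‖i d‖) ≤
          2 * A * (Real.sqrt (Real.exp R) * η) :=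
        mul_le_mul_of_nonneg_left (mul_le_mul_of_nonneg_left h6.le (Real.sqrt_nonneg _))
          (mul_nonneg zero_le_two hA0)
      have h9 : η ^ 2 ≤ η := by nlinarith
      nlinarith
    exact lt_of_pow_lt_pow_left₀ 2 hε.le h7
  obtain ⟨w0, hw0⟩ := cauchySeq_tendsto_of_complete hcau
  have hφθ : Tendsto (fun n => φ (θ n)) atTop (𝓝 φ0) := hφ.comp hθ.tendsto_atTop
  have hEθ : Tendsto (fun n => E (θ n)) atTop (𝓝 E0) := hEt.comp hθ.tendsto_atTop
  refine ⟨θ, w0, hθ, ⟨?_, fun v => ?_⟩, hw0⟩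
  · refine tendsto_nhds_unique (b_tendsto hB hF hφθ hw0 hw0) ?_
    refine tendsto_const_nhds.congr fun n => ?_
    exact (hbe _).symm
  · rw [← hE0]
    have h1 : Tendsto (fun n => a (w (θ n)) v) atTop (𝓝 (a w0 v)) := by
      have hc : Continuous fun y : H => a y v := by fun_prop
      exact (hc.tendsto _).comp hw0
    have h2 := hEθ.mul (b_tendsto hB hF hφθ hw0 (tendsto_const_nhds (x := v)))
    refine tendsto_nhds_unique h1 (h2.congr fun n => ?_)
    rw [eigw]

end Pool.Agent.H240.IX.A627
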