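import Pool.Agent.H240.IX.DefH

/-!
# `IX-17`: ergodicity class for the perturbed metric (helper962)

(Adapted from `Pool/Agent/H240/CG/ClsE2.lean`.)
-/

set_option autoImplicit false
set_option linter.unusedSectionVars false

open Set Filter Topology MeasureTheory
open scoped ContDiff ComplexConjugate Real

noncomputable section

namespace Pool.Agent.H240.IX.A962

open Pool.Agent.Y262.EG Pool.Agent.Y262.EX Pool.Agent.H240.SG Pool.Agent.H240.CG
open Pool.Agent.H240.IX
open Pool.Agent.Y868.EX (stp_open om_open)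

theorem curv_congr {φ φ' : ℂ → ℝ} {z : ℂ} (h : φ =ᶠ[𝓝 z] φ') : curv φ z = curv φ' z := by
  have h1 : px φ =ᶠ[𝓝 z] px φ' := by
    filter_upwards [h.fderiv (𝕜 := ℝ)] with w hw
    unfold px
    rw [hw]
  have h2 : py φ =ᶠ[𝓝 z] py φ' := by
    filter_upwards [h.fderiv (𝕜 := ℝ)] with w hw
    unfold py
    rw [hw]
  have h3 : px (px φ) z = px (px φ') z := by
    show fderiv ℝ (px φ) z 1 = fderiv ℝ (px φ') z 1
    rw [h1.fderiv_eq]
  have h4 : py (py φ) z = py (py φ') z := by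
    show fderiv ℝ (py φ) z Complex.I = fderiv ℝ (py φ') z Complex.I
    rw [h2.fderiv_eq]
  unfold curv
  rw [h.eq_of_nhds, h3, h4]

/-- **IX-17** -/
theorem stCls4 : StCls4 := by
  intro M P _ _ _ _ pr q G c C Ψ κ' O hO hg hΨ hκ hout hpr hut
  have hW := tW
  have hA := tAc
  have hC := tCol
  have hInv := tInv
  have hL : 0 < L0 := hW.1
  obtain ⟨φ', hφ'⟩ : ∃ φ' : ℂ → ℝ, φ' = fun z => phi G c z + Ψ (pr z) := ⟨_, rfl⟩
  rw [← hφ'] at hout hut ⊢
  obtain ⟨p1, p2, p3, p4⟩ := phi1W hg.profW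
  obtain ⟨h31, h32⟩ := phi3W hg.profW
  have hsub : Stp L0 (3 / 2 * L0) ⊆ Om := Pool.Agent.Y868.EX.stp_sub hL _ le_rfl
  have hmono : Stp L0 (1 / 4 * L0) ⊆ Stp L0 (3 / 2 * L0) :=
    Pool.Agent.Y868.EX.stp_mono (by linarith)
  have hmono' : Stp L0 (1 / 8 * L0) ⊆ Stp L0 (1 / 4 * L0) :=
    Pool.Agent.Y868.EX.stp_mono (by linarith)
  have hzero : ∀ z ∈ Stp L0 (1 / 4 * L0), φ' z = phi G c z := by
    intro z hz
    have h1 : Ψ (pr z) = 0 := by
      apply hΨ.zero
      rw [abs_lt]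
      refine ⟨?_, ?_⟩
      · linarith [hz.1]
      · linarith [hz.2]
    rw [hφ']
    show phi G c z + Ψ (pr z) = phi G c z
    rw [h1, add_zero]
  have hcongr : ∀ z ∈ Stp L0 (1 / 4 * L0), curv φ' z = curv (phi G c) z := by
    intro z hz
    apply curv_congr
    filter_upwards [(stp_open L0 (1 / 4 * L0)).mem_nhds hz] with w hw
    exact hzero w hw
  have hprac : ∀ z ∈ Om, ∀ γ : Gq, pr (ac γ z) = pr z := by
    intro z hz γ
    exact ((hpr.rel z hz _ (hA.1 γ z hz).1).2 ⟨γ, rfl⟩).symm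
  have hcurv : ∀ z ∈ Om, ∀ γ : Gq, curv φ' z = curv φ' (ac γ z) ∧
      Real.exp (-φ' z) * ‖fderiv ℝ (curv φ') z‖ =
        Real.exp (-φ' (ac γ z)) * ‖fderiv ℝ (curv φ') (ac γ z)‖ := by
    intro z hz γ
    exact hInv M P Om φ' pr q hut z hz _ (hA.1 γ z hz).1 (hprac z hz γ).symm
  have hex : ∀ z ∈ Om, -κ' < curv φ' z → ∃ γ : Gq, ac γ z ∈ Stp L0 (1 / 8 * L0) := by
    intro z hz hlt
    by_contra hno
    push Not at hno
    have h1 := hout z hz (by
      intro γ
      have h2 := hno γ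
      by_contra h3
      push Not at h3
      rw [abs_lt] at h3
      apply h2
      refine ⟨?_, ?_⟩
      · linarith [h3.1]
      · linarith [h3.2])
    linarith
  obtain ⟨C', hC'0, hC'⟩ := collar_der2 hL G c C hg h31 p2
  -- the bound on the relatively compact set
  obtain ⟨B, hB0, hB⟩ : ∃ B : ℝ, 0 ≤ B ∧ ∀ z ∈ O,
      Real.exp (-φ' z) * ‖fderiv ℝ (curv φ') z‖ ≤ B := by
    have hsm := hut.smooth
    have hcs : ContDiffOn ℝ ∞ (curv φ') Om := (tFrame Om φ' hut.opn hsm).2.2.1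
    have hct : ContinuousOn (fun z => Real.exp (-φ' z) * ‖fderiv ℝ (curv φ') z‖) (closure O) := by
      have h1 : ContinuousOn (fun z => fderiv ℝ (curv φ') z) Om :=
        hcs.continuousOn_fderiv_of_isOpen hut.opn (by simp)
      exact ((Real.continuous_exp.comp_continuousOn hsm.continuousOn.neg).mul h1.norm).mono hO.sub
    obtain ⟨B, hB⟩ := hO.cpt.exists_bound_of_continuousOn hct
    refine ⟨|B|, abs_nonneg _, fun z hz => ?_⟩
    have h2 := hB z (subset_closure hz)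
    exact (le_abs_self _).trans (((Real.norm_eq_abs _).symm.le.trans h2).trans (le_abs_self _))
  refine ⟨max C' (B / κ' ^ (39 / 40 : ℝ)), ?_⟩
  have hKd : ∀ z ∈ Om, curv φ' z ≤ 0 := by
    intro z hz
    by_cases hlt : -κ' < curv φ' z
    · obtain ⟨γ, hγ⟩ := hex z hz hlt
      rw [(hcurv z hz γ).1, hcongr _ (hmono' hγ), h31 _ (hmono (hmono' hγ))]
      have h6 := hg.cvx (ac γ z).re (hA.1 γ z hz).1
      have h7 : 0 ≤ Real.exp (-2 * G (ac γ z).re) * deriv (deriv G) (ac γ z).re :=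
        mul_nonneg (Real.exp_pos _).le h6
      linarith
    · push Not at hlt
      linarith
  constructor
  · exact hL
  · linarith
  · linarith
  · exact hκ
  · linarith
  · linarith
  · exact hmono.trans hsub
  · intro z hz
    rw [hzero z hz]
    exact p2 z (hmono hz)
  · exact hg.g0
  · exact hg.g1
  · -- per
    intro z hz
    obtain ⟨t, ht⟩ := hC.2
    have h5 := hprac z (hsub (hmono hz)) t
    rw [ht z (hsub (hmono hz))] at h5
    exact h5
  · -- inj
    intro z hz w hw hzw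
    obtain ⟨γ, hγ⟩ := (hpr.rel z (hsub (hmono hz)) w (hsub (hmono hw))).1 hzw
    obtain ⟨n, hn⟩ := hC.1 z (hmono hz) γ (by rw [hγ]; exact hmono hw)
    refine ⟨n, ?_⟩
    rw [← hγ]
    exact hn z (hsub (hmono hz))
  · -- neg
    exact hKd
  · -- low
    intro z hz hlt
    obtain ⟨γ, hγ⟩ := hex z hz hlt
    exact ⟨ac γ z, hγ, hprac z hz γ⟩
  · -- zero
    intro z hz h0
    obtain ⟨γ, hγ⟩ := hex z hz (by rw [h0]; linarith)
    have h6 : deriv (deriv G) (ac γ z).re = 0 := by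
      have h7 := (hcurv z hz γ).1
      rw [h0, hcongr _ (hmono' hγ), h31 _ (hmono (hmono' hγ))] at h7
      have h8 : Real.exp (-2 * G (ac γ z).re) * deriv (deriv G) (ac γ z).re = 0 := by linarith
      rcases mul_eq_zero.1 h8 with h9 | h9
      · exact absurd h9 (Real.exp_pos _).ne'
      · exact h9
    have h9 := hg.zero (ac γ z).re (hA.1 γ z hz).1 h6
    exact ⟨ac γ z, h9, hprac z hz γ⟩
  · -- der
    intro z hz
    by_cases hex' : ∃ γ : Gq, ac γ z ∈ Stp L0 (1 / 4 * L0)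
    · obtain ⟨γ, hγ⟩ := hex'
      have hev : curv φ' =ᶠ[𝓝 (ac γ z)] curv (phi G c) := by
        filter_upwards [(stp_open L0 (1 / 4 * L0)).mem_nhds hγ] with w hw
        exact hcongr w hw
      rw [(hcurv z hz γ).2, (hcurv z hz γ).1, hev.fderiv_eq, hcongr _ hγ, hzero _ hγ]
      refine (hC' _ (hmono hγ)).trans ?_
      exact mul_le_mul_of_nonneg_right (le_max_left _ _) (Real.rpow_nonneg (abs_nonneg _) _)
    · push Not at hex'
      obtain ⟨γ, hγ⟩ := hO.cov z hz
      have h1 : curv φ' z ≤ -κ' := by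
        by_contra hlt
        push Not at hlt
        obtain ⟨γ', hγ'⟩ := hex z hz hlt
        exact hex' γ' (hmono' hγ')
      have h2 : κ' ≤ |curv φ' z| := by
        rw [le_abs]
        right
        linarith
      have h3 : κ' ^ (39 / 40 : ℝ) ≤ |curv φ' z| ^ (39 / 40 : ℝ) :=
        Real.rpow_le_rpow hκ.le h2 (by norm_num)
      have h4 : 0 < κ' ^ (39 / 40 : ℝ) := Real.rpow_pos_of_pos hκ _
      rw [(hcurv z hz γ).2]
      refine (hB _ hγ).trans ?_
      calc B = B / κ' ^ (39 / 40 : ℝ) * κ' ^ (39 / 40 : ℝ) := by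
            rw [div_mul_cancel₀ _ h4.ne']
        _ ≤ B / κ' ^ (39 / 40 : ℝ) * |curv φ' z| ^ (39 / 40 : ℝ) :=
            mul_le_mul_of_nonneg_left h3 (div_nonneg hB0 h4.le)
        _ ≤ _ := mul_le_mul_of_nonneg_right (le_max_right _ _)
            (Real.rpow_nonneg (abs_nonneg _) _)
  · exact hpr.conn

end Pool.Agent.H240.IX.A962
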