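import Pool.Agent.H240.IX.Lim

/-!
# Intervals of quantum limits: cluster points
-/

set_option autoImplicit false
set_option linter.unusedSectionVars false

open Set Filter Topology MeasureTheory
open scoped ContDiff ComplexConjugate Real

noncomputable section

namespace Pool.Agent.H240.IX

open Pool.Agent.Y262.EG Pool.Agent.Y262.EX Pool.Agent.Y262.EL Pool.Agent.Y262.QE
open Pool.Agent.Y264.QR Pool.Agent.H240.SC Pool.Agent.H240.SG Pool.Agent.H240.CG

section

variable {M : Type} [MetricSpace M] [CompactSpace M] [MeasurableSpace M] [BorelSpace M]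
  {pr : ℂ → M}

/-- a smooth function which vanishes exactly on the closed geodesic -/
theorem hfun_ex {X : ℝ → ℝ} (hX : Cut X) (hpr : PrM Om ac pr) : ∃ H : M → ℝ,
    ContDiffOn ℝ ∞ (fun z => H (pr z)) Om ∧
    (∀ z : ℂ, |z.re - L0 / 2| < 4 / 5 * L0 → H (pr z) = (z.re - L0 / 2) ^ 2) ∧
    ∀ x, 0 ≤ H x ∧ (H x = 0 ↔ x ∈ Gm pr (L0 / 2)) := by
  have h0 := L0p
  have hF : ContDiffOn ℝ ∞ (fun x : ℝ => (x - L0 / 2) ^ 2) I0 := by
    have h1 : ContDiff ℝ ∞ fun x : ℝ => (x - L0 / 2) ^ 2 := by fun_prop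
    exact h1.contDiffOn
  have a3 := hfW (adW_et hF hX 1)
  obtain ⟨H, hH⟩ := desc hpr (F := Hf (et (fun x : ℝ => (x - L0 / 2) ^ 2) X 1) 1)
    a3.sm.continuousOn a3.inv
  have hz := h_zero_gen hX hpr (F := fun x : ℝ => (x - L0 / 2) ^ 2) (r := 0) (by positivity) hF
    (fun x hx => by
      have h1 := abs_nonpos_iff.1 hx
      simp only [h1]
      norm_num)
    (fun x _ hx => by
      have h1 := abs_pos.1 hx
      positivity) hH
  have hT : ∀ x, x ∈ Tc pr 0 ↔ x ∈ Gm pr (L0 / 2) := by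
    intro x
    have h1 : {z : ℂ | |z.re - L0 / 2| ≤ 0} = {z : ℂ | z.re = L0 / 2} := by
      ext z
      simp only [mem_setOf_eq, abs_nonpos_iff]
      exact sub_eq_zero
    unfold Tc Gm
    rw [h1]
  refine ⟨H, a3.sm.congr fun z hz => hH z hz, fun z hz => ?_, fun x => ⟨(hz x).1, ?_⟩⟩
  · have hzn : |z.re - L0 / 2| ≤ 4 / 5 * L0 := hz.le
    have hzS := stp_near hzn
    rw [hH z (strip_om hzS), a3.strip _ hzS, et_near hX hzn]
  · rw [(hz x).2, hT]

/-- values between the mean and the value on the closed geodesic are cluster points -/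
theorem clu_low (hAll : All) (hpr : PrM Om ac pr) {ν : Measure M} [IsFiniteMeasure ν]
    {u : ℕ → M → ℝ} {lam : ℕ → ℝ} (hmono : Monotone lam)
    (hint : ∀ j, Integrable (fun x => (u j x) ^ 2) ν) (hone : ∀ j, ∫ x, (u j x) ^ 2 ∂ν = 1)
    {F : ℕ → M → ℝ} {Pf : ℕ → ℝ → ℝ} {ψF : ℕ → M → ℝ} {α : ℕ → ℝ}
    (hF : ∀ k, Fn pr (F k) (Pf k) (ψF k) (α k))
    (hdense : ∀ (F' : M → ℝ) (P' : ℝ → ℝ) (ψ' : M → ℝ) (α' : ℝ), Fn pr F' P' ψ' α' →
      ∀ ε : ℝ, 0 < ε → ∃ k, ∀ x, |F k x - F' x| < ε)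
    (hwin : ∀ (k : ℕ) (t : ℚ), (t : ℝ) < 0 → (∫ x, F k x ∂ν) / ν.real univ < t →
      ∃ᶠ n : ℕ in atTop, ∃ j, (n : ℝ) < lam j ∧
        |(∫ x, F k x * (u j x) ^ 2 ∂ν) - t| < 1 / ((n : ℝ) + 1))
    {f : M → ℝ} {P : ℝ → ℝ} (hf : ContDiffOn ℝ ∞ (fun z => f (pr z)) Om)
    (hfP : ∀ z : ℂ, |z.re - L0 / 2| < 4 / 5 * L0 → f (pr z) = P z.re) {t : ℝ}
    (h1 : (∫ x, f x ∂ν) / ν.real univ < t) (h2 : t < P (L0 / 2)) :
    MapClusterPt t atTop (fun j => ∫ x, f x * (u j x) ^ 2 ∂ν) := by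
  have hfc : Continuous f := cont_sm hpr hf
  have hFc : ∀ k, Continuous (F k) := fun k => cont_sm hpr (fn_sm (hF k))
  have hI0 : ∀ {g : M → ℝ}, Continuous g → Integrable g ν := fun hg =>
    hg.integrable_of_hasCompactSupport (HasCompactSupport.of_compactSpace _)
  have hI : ∀ {g : M → ℝ}, Continuous g → ∀ j, Integrable (fun x => g x * (u j x) ^ 2) ν := by
    intro g hg j
    obtain ⟨C, hC⟩ := isCompact_univ.exists_bound_of_continuousOn hg.continuousOn
    exact (hint j).bdd_mul hg.aestronglyMeasurable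
      (Filter.Eventually.of_forall fun x => hC x (mem_univ x))
  have hνp : 0 < ν.real univ := by
    refine lt_of_le_of_ne measureReal_nonneg fun hcon => ?_
    have h3 : ν = 0 := by
      rw [← Measure.measure_univ_eq_zero]
      rcases (ENNReal.toReal_eq_zero_iff _).1 hcon.symm with h | h
      · exact h
      · exact absurd h (measure_ne_top _ _)
    have h4 := hone 0
    rw [h3, integral_zero_measure] at h4
    exact zero_ne_one h4
  set p0 : ℝ := P (L0 / 2) with hp0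
  set mf : ℝ := (∫ x, f x ∂ν) / ν.real univ with hmf
  rw [mapClusterPt_iff_frequently]
  intro s hs
  obtain ⟨ε, hε, hεs⟩ := Metric.mem_nhds_iff.1 hs
  set δ : ℝ := min (ε / 8) (min ((t - mf) / 8) ((p0 - t) / 8)) with hδ
  have hδp : 0 < δ := lt_min (by linarith) (lt_min (by linarith) (by linarith))
  have hδ1 : δ ≤ ε / 8 := min_le_left _ _
  have hδ2 : δ ≤ (t - mf) / 8 := (min_le_right _ _).trans (min_le_left _ _)
  have hδ3 : δ ≤ (p0 - t) / 8 := (min_le_right _ _).trans (min_le_right _ _)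
  obtain ⟨F', P', ψ', α', hF', hF'2⟩ := hAll.dec M pr f P hpr hf hfP δ hδp
  obtain ⟨k, hk⟩ := hdense F' P' ψ' α' hF' δ hδp
  have hk2 : ∀ x, |f x - p0 - F k x| ≤ 2 * δ := by
    intro x
    have e1 : f x - p0 - F k x = (f x - p0 - F' x) - (F k x - F' x) := by ring
    rw [e1]
    exact (abs_sub _ _).trans (by linarith [hF'2 x, hk x])
  obtain ⟨q, hq1, hq2⟩ := exists_rat_btwn (show t - p0 - δ < t - p0 + δ by linarith)
  have hq0 : (q : ℝ) < 0 := by linarith
  have hmean : (∫ x, F k x ∂ν) / ν.real univ < q := by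
    have h3 : ∫ x, F k x ∂ν ≤ ∫ x, (f x + (2 * δ - p0)) ∂ν := by
      refine integral_mono (hI0 (hFc k)) ((hI0 hfc).add (integrable_const _)) fun x => ?_
      have := (abs_le.1 (hk2 x)).1
      show F k x ≤ f x + (2 * δ - p0)
      linarith
    rw [integral_add (hI0 hfc) (integrable_const _), integral_const, smul_eq_mul] at h3
    have h4 : (∫ x, F k x ∂ν) / ν.real univ ≤ mf + (2 * δ - p0) := by
      rw [div_le_iff₀ hνp, add_mul, hmf, div_mul_cancel₀ _ hνp.ne']
      linarith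
    linarith
  have hfr := hwin k q hq0 hmean
  rw [frequently_atTop]
  intro J
  have hev : ∀ᶠ n : ℕ in atTop, lam J ≤ n ∧ 1 / ((n : ℝ) + 1) < δ := by
    refine Filter.Eventually.and ?_ ?_
    · exact (tendsto_natCast_atTop_atTop (R := ℝ)).eventually (eventually_ge_atTop _)
    · exact (tendsto_one_div_add_atTop_nhds_zero_nat (𝕜 := ℝ)).eventually (gt_mem_nhds hδp)
  obtain ⟨n, ⟨j, hj1, hj2⟩, hn1, hn2⟩ := (hfr.and_eventually hev).exists
  refine ⟨j, ?_, hεs ?_⟩
  · by_contra hcon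
    push Not at hcon
    have := hmono hcon.le
    linarith
  · rw [Metric.mem_ball, Real.dist_eq]
    have e1 : (∫ x, f x * (u j x) ^ 2 ∂ν) - t =
        (∫ x, (f x - p0 - F k x) * (u j x) ^ 2 ∂ν) + ((∫ x, F k x * (u j x) ^ 2 ∂ν) - q) +
          (q - (t - p0)) := by
      have e2 : (fun x => (f x - p0 - F k x) * (u j x) ^ 2) =
          fun x => (f x * (u j x) ^ 2 - p0 * (u j x) ^ 2) - F k x * (u j x) ^ 2 := by
        funext x
        ring
      have i1 : Integrable (fun x => f x * (u j x) ^ 2 - p0 * (u j x) ^ 2) ν :=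
        (hI hfc j).sub ((hint j).const_mul p0)
      rw [e2, integral_sub i1 (hI (hFc k) j),
        integral_sub (hI hfc j) ((hint j).const_mul p0), integral_const_mul, hone j]
      ring
    have e3 : |∫ x, (f x - p0 - F k x) * (u j x) ^ 2 ∂ν| ≤ 2 * δ := by
      have h3 : |∫ x, (f x - p0 - F k x) * (u j x) ^ 2 ∂ν| ≤
          ∫ x, |(f x - p0 - F k x) * (u j x) ^ 2| ∂ν := abs_integral_le_integral_abs
      have h4 : ∫ x, |(f x - p0 - F k x) * (u j x) ^ 2| ∂ν ≤ ∫ x, 2 * δ * (u j x) ^ 2 ∂ν := by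
        refine integral_mono (hI ((hfc.sub continuous_const).sub (hFc k)) j).abs
          ((hint j).const_mul _) fun x => ?_
        show |(f x - p0 - F k x) * (u j x) ^ 2| ≤ 2 * δ * (u j x) ^ 2
        rw [abs_mul, abs_of_nonneg (sq_nonneg (u j x))]
        exact mul_le_mul_of_nonneg_right (hk2 x) (sq_nonneg _)
      rw [integral_const_mul, hone j, mul_one] at h4
      exact h3.trans h4
    have e4 : |(q : ℝ) - (t - p0)| < δ := by
      rw [abs_lt]
      constructor <;> linarith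
    rw [e1]
    refine (abs_add_three _ _ _).trans_lt ?_
    linarith

/-- all values between the value on the closed geodesic and the mean are cluster points -/
theorem clu_all (hAll : All) {X : ℝ → ℝ} (hX : Cut X) (hpr : PrM Om ac pr) {ν : Measure M}
    [IsFiniteMeasure ν] (hν0 : ν (Gm pr (L0 / 2)) = 0) {u : ℕ → M → ℝ} {lam : ℕ → ℝ}
    (hmono : Monotone lam) (hint : ∀ j, Integrable (fun x => (u j x) ^ 2) ν)
    (hone : ∀ j, ∫ x, (u j x) ^ 2 ∂ν = 1)
    {F : ℕ → M → ℝ} {Pf : ℕ → ℝ → ℝ} {ψF : ℕ → M → ℝ} {α : ℕ → ℝ}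
    (hF : ∀ k, Fn pr (F k) (Pf k) (ψF k) (α k))
    (hdense : ∀ (F' : M → ℝ) (P' : ℝ → ℝ) (ψ' : M → ℝ) (α' : ℝ), Fn pr F' P' ψ' α' →
      ∀ ε : ℝ, 0 < ε → ∃ k, ∀ x, |F k x - F' x| < ε)
    (hwin : ∀ (k : ℕ) (t : ℚ), (t : ℝ) < 0 → (∫ x, F k x ∂ν) / ν.real univ < t →
      ∃ᶠ n : ℕ in atTop, ∃ j, (n : ℝ) < lam j ∧
        |(∫ x, F k x * (u j x) ^ 2 ∂ν) - t| < 1 / ((n : ℝ) + 1))
    {f : M → ℝ} {P : ℝ → ℝ} (hf : ContDiffOn ℝ ∞ (fun z => f (pr z)) Om)
    (hfP : ∀ z : ℂ, |z.re - L0 / 2| < 4 / 5 * L0 → f (pr z) = P z.re) {t : ℝ}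
    (ht : t ∈ uIcc (P (L0 / 2)) ((∫ x, f x ∂ν) / ν.real univ)) :
    ∃ θ : ℕ → ℕ, StrictMono θ ∧
      Tendsto (fun n => ∫ x, f x * (u (θ n) x) ^ 2 ∂ν) atTop (𝓝 t) := by
  have h0 := L0p
  -- the case of different endpoints
  have hne : ∀ {f : M → ℝ} {P : ℝ → ℝ}, ContDiffOn ℝ ∞ (fun z => f (pr z)) Om →
      (∀ z : ℂ, |z.re - L0 / 2| < 4 / 5 * L0 → f (pr z) = P z.re) →
      P (L0 / 2) ≠ (∫ x, f x ∂ν) / ν.real univ → ∀ t ∈ uIcc (P (L0 / 2))
        ((∫ x, f x ∂ν) / ν.real univ),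
      MapClusterPt t atTop (fun j => ∫ x, f x * (u j x) ^ 2 ∂ν) := by
    intro f P hf hfP hne t ht
    have hcl : IsClosed {t : ℝ | MapClusterPt t atTop (fun j => ∫ x, f x * (u j x) ^ 2 ∂ν)} :=
      isClosed_setOf_clusterPt
    rcases lt_or_gt_of_ne hne with h | h
    · -- the mean is larger
      rw [uIcc_of_le h.le, ← closure_Ioo h.ne] at ht
      refine hcl.closure_subset_iff.2 (fun s hs => ?_) ht
      have h3 := clu_low hAll hpr hmono hint hone hF hdense hwin (f := fun x => -f x)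
        (P := fun x => -P x) hf.neg (fun z hz => by rw [hfP z hz]) (t := -s) (by
          rw [integral_neg, neg_div]
          linarith [hs.2]) (by
          show -s < -P (L0 / 2)
          linarith [hs.1])
      have h4 := h3.tendsto_comp (continuous_neg.tendsto (-s))
      have e1 : ((fun x : ℝ => -x) ∘ fun j => ∫ x, -f x * (u j x) ^ 2 ∂ν) =
          fun j => ∫ x, f x * (u j x) ^ 2 ∂ν := by
        funext j
        show -∫ x, -f x * (u j x) ^ 2 ∂ν = _
        rw [← integral_neg]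
        congr 1
        funext x
        ring
      rw [neg_neg] at h4
      rw [mem_setOf_eq, ← e1]
      exact h4
    · rw [uIcc_of_ge h.le, ← closure_Ioo h.ne] at ht
      refine hcl.closure_subset_iff.2 (fun s hs => ?_) ht
      exact clu_low hAll hpr hmono hint hone hF hdense hwin hf hfP hs.1 hs.2
  suffices h : MapClusterPt t atTop (fun j => ∫ x, f x * (u j x) ^ 2 ∂ν) by
    obtain ⟨θ, h1, h2⟩ := TopologicalSpace.FirstCountableTopology.tendsto_subseq h
    exact ⟨θ, h1, h2⟩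
  by_cases hcase : P (L0 / 2) = (∫ x, f x ∂ν) / ν.real univ
  swap
  · exact hne hf hfP hcase t ht
  -- the case of equal endpoints
  rw [← hcase, uIcc_self, mem_singleton_iff] at ht
  subst ht
  obtain ⟨H, hH1, hH2, hH3⟩ := hfun_ex hX hpr
  have hHc : Continuous H := cont_sm hpr hH1
  have hfc : Continuous f := cont_sm hpr hf
  have hI0 : ∀ {g : M → ℝ}, Continuous g → Integrable g ν := fun hg =>
    hg.integrable_of_hasCompactSupport (HasCompactSupport.of_compactSpace _)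
  have hνne : ν univ ≠ 0 := by
    intro hcon
    rw [Measure.measure_univ_eq_zero] at hcon
    have h4 := hone 0
    rw [hcon, integral_zero_measure] at h4
    exact zero_ne_one h4
  have hνp : 0 < ν.real univ := ENNReal.toReal_pos hνne (measure_ne_top _ _)
  have hHp : 0 < ∫ x, H x ∂ν := by
    rw [integral_pos_iff_support_of_nonneg (fun x => (hH3 x).1) (hI0 hHc)]
    have h1 : Function.support H = (Gm pr (L0 / 2))ᶜ := by
      ext x
      rw [Function.mem_support, mem_compl_iff, ← (hH3 x).2]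
    rw [h1]
    refine pos_iff_ne_zero.2 fun hcon => hνne ?_
    have h2 : ν univ ≤ ν (Gm pr (L0 / 2)) + ν (Gm pr (L0 / 2))ᶜ := by
      rw [← union_compl_self (Gm pr (L0 / 2))]
      exact measure_union_le _ _
    rw [hν0, hcon, add_zero] at h2
    exact nonpos_iff_eq_zero.1 h2
  obtain ⟨K, hK⟩ := isCompact_univ.exists_bound_of_continuousOn hHc.continuousOn
  have hK0 : 0 ≤ K := by
    have hneM : Nonempty M := ⟨pr 0⟩
    exact (norm_nonneg _).trans (hK hneM.some (mem_univ _))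
  rw [mapClusterPt_iff_frequently]
  intro s hs
  obtain ⟨ε, hε, hεs⟩ := Metric.mem_nhds_iff.1 hs
  set δ : ℝ := ε / (2 * (K + 1)) with hδ
  have hδp : 0 < δ := by positivity
  have h3 := hne (f := fun x => f x + δ * H x) (P := fun x => P x + δ * (x - L0 / 2) ^ 2)
    (hf.add (contDiffOn_const.mul hH1)) (fun z hz => by rw [hfP z hz, hH2 z hz]) (by
      rw [integral_add (hI0 hfc) ((hI0 hHc).const_mul _), integral_const_mul, add_div, ← hcase]
      have : 0 < δ * (∫ x, H x ∂ν) / ν.real univ := by positivity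
      simp only [sub_self]
      intro hcon
      nlinarith) (P (L0 / 2)) (by
      have e1 : P (L0 / 2) = P (L0 / 2) + δ * (L0 / 2 - L0 / 2) ^ 2 := by ring
      rw [← e1]
      exact left_mem_uIcc)
  rw [mapClusterPt_iff_frequently] at h3
  refine (h3 (Metric.ball (P (L0 / 2)) (ε / 2)) (Metric.ball_mem_nhds _ (by positivity))).mono
    fun j hj => hεs ?_
  rw [Metric.mem_ball, Real.dist_eq] at hj ⊢
  have hI : ∀ {g : M → ℝ}, Continuous g → Integrable (fun x => g x * (u j x) ^ 2) ν := by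
    intro g hg
    obtain ⟨C, hC⟩ := isCompact_univ.exists_bound_of_continuousOn hg.continuousOn
    exact (hint j).bdd_mul hg.aestronglyMeasurable
      (Filter.Eventually.of_forall fun x => hC x (mem_univ x))
  have e1 : ∫ x, (f x + δ * H x) * (u j x) ^ 2 ∂ν =
      (∫ x, f x * (u j x) ^ 2 ∂ν) + δ * ∫ x, H x * (u j x) ^ 2 ∂ν := by
    have e2 : (fun x => (f x + δ * H x) * (u j x) ^ 2) =
        fun x => f x * (u j x) ^ 2 + δ * (H x * (u j x) ^ 2) := by
      funext x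
      ring
    rw [e2, integral_add (hI hfc) ((hI hHc).const_mul _), integral_const_mul]
  rw [e1] at hj
  have h4 : 0 ≤ ∫ x, H x * (u j x) ^ 2 ∂ν :=
    integral_nonneg fun x => mul_nonneg (hH3 x).1 (sq_nonneg _)
  have h5 : ∫ x, H x * (u j x) ^ 2 ∂ν ≤ K := by
    have h6 : ∫ x, H x * (u j x) ^ 2 ∂ν ≤ ∫ x, K * (u j x) ^ 2 ∂ν := by
      refine integral_mono (hI hHc) ((hint j).const_mul _) fun x => ?_
      refine mul_le_mul_of_nonneg_right ?_ (sq_nonneg _)
      have := hK x (mem_univ x)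
      rw [Real.norm_eq_abs] at this
      exact (le_abs_self _).trans this
    rwa [integral_const_mul, hone j, mul_one] at h6
  have h6 : δ * K ≤ ε / 2 := by
    rw [hδ, div_mul_eq_mul_div, div_le_iff₀ (by positivity)]
    nlinarith
  have h7 : δ * ∫ x, H x * (u j x) ^ 2 ∂ν ≤ δ * K := mul_le_mul_of_nonneg_left h5 hδp.le
  have h8 : 0 ≤ δ * ∫ x, H x * (u j x) ^ 2 ∂ν := mul_nonneg hδp.le h4
  rw [abs_lt] at hj ⊢
  constructor <;> linarith [hj.1, hj.2]

end

end Pool.Agent.H240.IX
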