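import Pool.Agent.H240.IX.Def

/-! IX-5 (helper665): connectedness along a path of metrics. -/

set_option autoImplicit false

open Set Filter Topology MeasureTheory

namespace Pool.Agent.H240.IX.A665

open Pool.Agent.Y262.QE Pool.Agent.Y264.QR Pool.Agent.H240.NX Pool.Agent.H240.IX

/-- unit eigenvectors exist -/
theorem exists_uv {H : Type} [NormedAddCommGroup H] [InnerProductSpace ℝ H] [CompleteSpace H]
    {a b : H →L[ℝ] H →L[ℝ] ℝ} (hF : Fm a b) (j : ℕ) : ∃ w, Uv a b (Ev a b j) w := by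
  obtain ⟨e, E, hE⟩ := tSp H a b hF
  refine ⟨e j, ⟨?_, ?_⟩⟩
  · rw [hE.orth, if_pos rfl]
  · intro v
    rw [Pool.Agent.Y592.QE.mm H a b hF e E hE j]
    exact hE.eig j v

theorem stCon (h1 : StKb) (h2 : StCU) (h3 : StIv) : StCon := by
  intro M _ _ _ _ μ _ H _ _ _ i a b S c s1 s2 hs hc f j t w1 w2 hw1 hw2 hcase
  by_contra hno
  have hno' : ∀ s ∈ Icc s1 s2, ∀ w, Uv a (b (c s)) (Ev a (b (c s)) j) w →
      kb μ i f (c s) w w ≠ t := fun s hs w hw h => hno ⟨s, hs, w, hw, h⟩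
  obtain ⟨-, -, -, -, -, -, hcont, -⟩ := h1 M μ H i a b S
  -- closedness
  have key : ∀ R : ℝ → Prop, IsClosed {x | R x} →
      IsClosed {s | s ∈ Icc s1 s2 ∧ ∃ w, Uv a (b (c s)) (Ev a (b (c s)) j) w ∧
        R (kb μ i f (c s) w w)} := by
    intro R hR
    refine IsSeqClosed.isClosed ?_
    intro s s0 hsn hs0
    have hs0' : s0 ∈ Icc s1 s2 := isClosed_Icc.mem_of_tendsto hs0
      (Eventually.of_forall fun n => (hsn n).1)
    choose w hw hRw using fun n => (hsn n).2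
    have hcs : Tendsto (fun n => c (s n)) atTop (𝓝 (c s0)) := by
      have h4 : Tendsto s atTop (𝓝[Icc s1 s2] s0) :=
        tendsto_nhdsWithin_iff.2 ⟨hs0, Eventually.of_forall fun n => (hsn n).1⟩
      exact (hc s0 hs0').tendsto.comp h4
    obtain ⟨θ, w0, hθ, hw0, hlim⟩ := h2 M μ H i a b S (fun n => c (s n)) (c s0) hcs j w hw
    have hk : Tendsto (fun n => kb μ i f (c (s (θ n))) (w (θ n)) (w (θ n))) atTop
        (𝓝 (kb μ i f (c s0) w0 w0)) :=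
      hcont (fun _ => f) f (fun n => c (s (θ n))) (c s0) (fun n => w (θ n)) (fun n => w (θ n))
        w0 w0 tendsto_const_nhds (hcs.comp hθ.tendsto_atTop) hlim hlim
    exact ⟨hs0', w0, hw0, hR.mem_of_tendsto hk (Eventually.of_forall fun n => hRw (θ n))⟩
  have hA := key (fun x => x ≤ t) isClosed_Iic
  have hB := key (fun x => t ≤ x) isClosed_Ici
  have hcov : Icc s1 s2 ⊆ {s | s ∈ Icc s1 s2 ∧ ∃ w, Uv a (b (c s)) (Ev a (b (c s)) j) w ∧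
        kb μ i f (c s) w w ≤ t} ∪ {s | s ∈ Icc s1 s2 ∧ ∃ w, Uv a (b (c s)) (Ev a (b (c s)) j) w ∧
        t ≤ kb μ i f (c s) w w} := by
    intro s hs'
    obtain ⟨w, hw⟩ := exists_uv (S.fm (c s)) j
    rcases le_total (kb μ i f (c s) w w) t with h | h
    · exact Or.inl ⟨hs', w, hw, h⟩
    · exact Or.inr ⟨hs', w, hw, h⟩
  have hs1 : s1 ∈ Icc s1 s2 := ⟨le_rfl, hs⟩
  have hs2 : s2 ∈ Icc s1 s2 := ⟨hs, le_rfl⟩
  have hne : (Icc s1 s2 ∩ {s | s ∈ Icc s1 s2 ∧ ∃ w, Uv a (b (c s)) (Ev a (b (c s)) j) w ∧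
        kb μ i f (c s) w w ≤ t}).Nonempty ∧ (Icc s1 s2 ∩ {s | s ∈ Icc s1 s2 ∧
        ∃ w, Uv a (b (c s)) (Ev a (b (c s)) j) w ∧ t ≤ kb μ i f (c s) w w}).Nonempty := by
    rcases hcase with ⟨ha, hb⟩ | ⟨ha, hb⟩
    · exact ⟨⟨s1, hs1, hs1, w1, hw1, ha.le⟩, ⟨s2, hs2, hs2, w2, hw2, hb.le⟩⟩
    · exact ⟨⟨s2, hs2, hs2, w2, hw2, ha.le⟩, ⟨s1, hs1, hs1, w1, hw1, hb.le⟩⟩
  obtain ⟨s, hs', hsA, hsB⟩ := isPreconnected_closed_iff.1 (isPreconnected_Icc (a := s1) (b := s2))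
    _ _ hA hB hcov hne.1 hne.2
  obtain ⟨-, w, hw, hwt⟩ := hsA
  obtain ⟨-, w', hw', hwt'⟩ := hsB
  obtain ⟨w'', hw'', heq⟩ := h3 M μ H i a b S f (c s) (Ev a (b (c s)) j) t w w' hw hw'
    (lt_of_le_of_ne hwt (hno' s hs' w hw)) (lt_of_le_of_ne hwt' (hno' s hs' w' hw').symm)
  exact hno' s hs' w'' hw'' heq

end Pool.Agent.H240.IX.A665
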