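import Pool.Agent.H240.IX.DefH

/-!
# IX-19: approximation of smooth functions by admissible functions
-/

set_option autoImplicit false
set_option linter.unusedSectionVars false

open Set Filter Topology MeasureTheory
open scoped ContDiff ComplexConjugate Real

noncomputable section

namespace Pool.Agent.H240.IX.A97

open Pool.Agent.Y262.EG Pool.Agent.Y262.EX Pool.Agent.Y262.EL Pool.Agent.Y262.QE
open Pool.Agent.Y264.QR Pool.Agent.H240.SC Pool.Agent.H240.SG Pool.Agent.H240.CG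
open Pool.Agent.H240.IX

/-- smooth cutoffs on the line -/
theorem cutoff (c r R : ℝ) (hr : 0 < r) (hR : r < R) : ∃ χ : ℝ → ℝ, ContDiff ℝ ∞ χ ∧
    (∀ x, |x - c| ≤ r → χ x = 1) ∧ (∀ x, R ≤ |x - c| → χ x = 0) ∧ (∀ x, 0 ≤ χ x) ∧
    ∀ x, χ x ≤ 1 := by
  let f : ContDiffBump c := ⟨r, R, hr, hR⟩
  refine ⟨f, f.contDiff, fun x hx => ?_, fun x hx => ?_, fun x => f.nonneg, fun x => f.le_one⟩
  · apply f.one_of_mem_closedBall
    rw [Metric.mem_closedBall, Real.dist_eq]
    exact hx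
  · apply f.zero_of_le_dist
    rw [Real.dist_eq]
    exact hx

theorem stDec : StDec := by
  intro M _ _ pr F P hpr hF hFP ε hε
  have h0 : 0 < L0 := L0p
  -- points near the centre
  have hstp : ∀ z : ℂ, |z.re - L0 / 2| < 4 / 5 * L0 → z ∈ Stp L0 (3 / 2 * L0) := fun z hz =>
    stp_near hz.le
  -- the function `P` is smooth near the centre
  have hopn : IsOpen {x : ℝ | |x - L0 / 2| < 4 / 5 * L0} :=
    isOpen_lt (by fun_prop) continuous_const
  have hPs : ContDiffOn ℝ ∞ P {x : ℝ | |x - L0 / 2| < 4 / 5 * L0} := by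
    have h1 : ContDiffOn ℝ ∞ (fun x : ℝ => F (pr (x : ℂ))) {x : ℝ | |x - L0 / 2| < 4 / 5 * L0} :=
      hF.comp (f := fun x : ℝ => (x : ℂ)) (Complex.ofRealCLM.contDiff.contDiffOn)
        fun x hx => strip_om (hstp _ (by rw [Complex.ofReal_re]; exact hx))
    refine h1.congr fun x hx => ?_
    rw [hFP (x : ℂ) (by rw [Complex.ofReal_re]; exact hx), Complex.ofReal_re]
  obtain ⟨v0, hv0⟩ : ∃ v0, v0 = P (L0 / 2) := ⟨_, rfl⟩
  -- the size of the small cutoff
  obtain ⟨α, hα, hα1, hα2⟩ : ∃ α : ℝ, 0 < α ∧ 2 * α < 1 / 2 * L0 ∧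
      ∀ x, |x - L0 / 2| ≤ 2 * α → |P x - v0| ≤ ε / 2 := by
    have hc : ContinuousAt P (L0 / 2) := (hPs.continuousOn).continuousAt (hopn.mem_nhds (by
      show |L0 / 2 - L0 / 2| < 4 / 5 * L0
      rw [sub_self, abs_zero]
      positivity))
    obtain ⟨d, hd, hd'⟩ := Metric.continuousAt_iff.1 hc (ε / 2) (by positivity)
    refine ⟨min (d / 4) (L0 / 8), lt_min (by positivity) (by positivity), ?_, fun x hx => ?_⟩
    · have := min_le_right (d / 4) (L0 / 8)
      linarith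
    · have h1 := min_le_left (d / 4) (L0 / 8)
      have h2 := hd' (x := x) (by
        rw [Real.dist_eq]
        linarith)
      rw [Real.dist_eq, ← hv0] at h2
      exact h2.le
  obtain ⟨χ, hχ, χ1, χ0, -, -⟩ := cutoff (L0 / 2) (31 / 40 * L0) (63 / 80 * L0) (by positivity)
    (by linarith)
  obtain ⟨η, hη, η1, η0, ηn, ηl⟩ := cutoff (L0 / 2) α (2 * α) hα (by linarith)
  -- the localized function
  obtain ⟨Q, hQ⟩ : ∃ Q : ℝ → ℝ, ∀ x, Q x = χ x * (P x - v0) := ⟨_, fun _ => rfl⟩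
  have hQ0 : ∀ x, 63 / 80 * L0 ≤ |x - L0 / 2| → Q x = 0 := fun x hx => by
    rw [hQ, χ0 x hx, zero_mul]
  have hQs : ContDiff ℝ ∞ Q := by
    rw [contDiff_iff_contDiffAt]
    intro x
    rcases lt_or_ge (|x - L0 / 2|) (4 / 5 * L0) with h | h
    · have h1 : ContDiffAt ℝ ∞ (fun x => χ x * (P x - v0)) x :=
        hχ.contDiffAt.mul ((hPs.contDiffAt (hopn.mem_nhds h)).sub contDiffAt_const)
      have h2 : Q = fun x => χ x * (P x - v0) := funext hQ
      rw [h2]
      exact h1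
    · have h1 : Q =ᶠ[𝓝 x] fun _ => 0 := by
        have h2 : {y : ℝ | 63 / 80 * L0 < |y - L0 / 2|} ∈ 𝓝 x :=
          (isOpen_lt continuous_const (by fun_prop)).mem_nhds (by
            show 63 / 80 * L0 < |x - L0 / 2|
            linarith)
        filter_upwards [h2] with y hy
        exact hQ0 y (le_of_lt hy)
      exact contDiffAt_const.congr_of_eventuallyEq h1
  -- the two parts
  obtain ⟨P', hP'⟩ : ∃ P' : ℝ → ℝ, ∀ x, P' x = (1 - η x) * Q x := ⟨_, fun _ => rfl⟩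
  obtain ⟨P'', hP''⟩ : ∃ P'' : ℝ → ℝ, ∀ x, P'' x = η x * Q x := ⟨_, fun _ => rfl⟩
  have hP's : ContDiff ℝ ∞ P' := by
    have h2 : P' = fun x => (1 - η x) * Q x := funext hP'
    rw [h2]
    exact (contDiff_const.sub hη).mul hQs
  have hP''s : ContDiff ℝ ∞ P'' := by
    have h2 : P'' = fun x => η x * Q x := funext hP''
    rw [h2]
    exact hη.mul hQs
  have far' : ∀ x, 9 / 10 * L0 ≤ |x - L0 / 2| → P' x = 0 := fun x hx => by
    rw [hP', hQ0 x (by linarith), mul_zero]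
  have far'' : ∀ x, 9 / 10 * L0 ≤ |x - L0 / 2| → P'' x = 0 := fun x hx => by
    rw [hP'', hQ0 x (by linarith), mul_zero]
  have A' := hfW (⟨hP's.contDiffOn, far'⟩ : AdW P' 0)
  have A'' := hfW (⟨hP''s.contDiffOn, far''⟩ : AdW P'' 0)
  obtain ⟨f', hf'⟩ := desc hpr A'.sm.continuousOn A'.inv
  obtain ⟨f'', hf''⟩ := desc hpr A''.sm.continuousOn A''.inv
  have hbd : ∀ x, |P'' x| ≤ ε / 2 := by
    intro x
    rcases lt_or_ge (|x - L0 / 2|) (2 * α) with h | h
    · have h1 := hα2 x h.le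
      have h2 : Q x = P x - v0 := by
        rw [hQ, χ1 x (by linarith), one_mul]
      rw [hP'', h2, abs_mul, abs_of_nonneg (ηn x)]
      have h3 := ηl x
      have h4 := abs_nonneg (P x - v0)
      nlinarith [ηn x]
    · rw [hP'', η0 x h, zero_mul, abs_zero]
      positivity
  refine ⟨fun x => F x - v0 - f'' x, P', fun x => F x - v0 - f'' x - f' x, α,
    ⟨⟨hα, hP's, fun x hx => ?_, far'⟩, ⟨?_, fun z hz => ?_⟩, fun z hz => ?_⟩, fun x => ?_⟩
  · rw [hP', η1 x hx, sub_self, zero_mul]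
  · have h1 : ContDiffOn ℝ ∞ (fun z => F (pr z) - v0 - Hf P'' 0 z - Hf P' 0 z) Om :=
      ((hF.sub contDiffOn_const).sub A''.sm).sub A'.sm
    refine h1.congr fun z hz => ?_
    rw [hf'' z hz, hf' z hz]
  · have h1 : z ∈ Stp L0 (3 / 2 * L0) := hstp z (by linarith)
    have h2 : z ∈ Om := strip_om h1
    change F (pr z) - v0 - f'' (pr z) - f' (pr z) = 0
    rw [hf'' z h2, hf' z h2, A''.strip z h1, A'.strip z h1, hP', hP'', hQ, χ1 z.re (by linarith),
      hFP z (by linarith)]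
    ring
  · change F (pr z) - v0 - f'' (pr z) = Hf P' 0 z + (F (pr z) - v0 - f'' (pr z) - f' (pr z))
    rw [hf' z hz]
    ring
  · obtain ⟨z, hz, rfl⟩ : x ∈ pr '' Om := by rw [hpr.surj]; trivial
    change |F (pr z) - P (L0 / 2) - (F (pr z) - v0 - f'' (pr z))| < ε
    have h1 : F (pr z) - P (L0 / 2) - (F (pr z) - v0 - f'' (pr z)) = Hf P'' 0 z := by
      rw [hf'' z hz, hv0]
      ring
    rw [h1]
    have h2 := Hf_bd hbd (by rw [abs_zero]; positivity : |(0 : ℝ)| ≤ ε / 2) z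
    linarith

end Pool.Agent.H240.IX.A97
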