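import Pool.Agent.H240.IX.Def

/-!
# `IX-6`: a perturbation whose form is not scalar on the eigenspace splits the eigenvalue
-/

set_option autoImplicit false
set_option linter.unusedSectionVars false

open Set Filter Topology MeasureTheory
open scoped Real ContDiff

noncomputable section

namespace Pool.Agent.H240.IX.A388

open Pool.Agent.Y262.QE Pool.Agent.Y264.QR Pool.Agent.H240.NX Pool.Agent.H240.IX

section

variable {H : Type} [NormedAddCommGroup H] [InnerProductSpace ℝ H] {a b : H →L[ℝ] H →L[ℝ] ℝ}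

/-- expansion of an eigenvector -/
theorem expand (hF : Fm a b) {e : ℕ → H} {E : ℕ → ℝ} (hE : Eg a b e E) (S : Finset ℕ) (lam : ℝ)
    (hS : ∀ k, E k = lam → k ∈ S) (hS' : ∀ k ∈ S, E k = lam) (u : H) (hu : Ws a b lam u) :
    u = ∑ k ∈ S, b u (e k) • e k := by
  classical
  set w := ∑ k ∈ S, b u (e k) • e k with hw
  have h0 : ∀ j, b w (e j) = if j ∈ S then b u (e j) else 0 := by
    intro j
    rw [hw, map_sum, sum_apply]
    simp only [map_smul, smul_apply, smul_eq_mul, hE.orth, mul_ite, mul_one, mul_zero]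
    rw [Finset.sum_ite_eq']
  have h1 : ∀ j, j ∉ S → b u (e j) = 0 := by
    intro j hj
    have h2 := hu (e j)
    rw [hF.sa, hE.eig, hF.sb (e j) u] at h2
    have h3 : E j ≠ lam := fun h => hj (hS j h)
    have h4 : (E j - lam) * b u (e j) = 0 := by linarith
    exact (mul_eq_zero.1 h4).resolve_left (sub_ne_zero.2 h3)
  have h2 : ∀ j, b (u - w) (e j) = 0 := by
    intro j
    rw [map_sub, sub_apply, h0]
    split_ifs with hj
    · exact sub_self _
    · rw [h1 j hj, sub_zero]
  have h3 : b (u - w) (u - w) = 0 := by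
    have h4 := hE.sum (u - w)
    simp only [h2] at h4
    have h5 : HasSum (fun _ : ℕ => ((0 : ℝ)) ^ 2) 0 := by
      simp
    exact h4.unique h5
  have h4 : ∀ v, a w v = lam * b w v := by
    intro v
    rw [hw, map_sum, map_sum, sum_apply, sum_apply,
      Finset.mul_sum]
    refine Finset.sum_congr rfl fun k hk => ?_
    simp only [map_smul, smul_apply, smul_eq_mul, hE.eig, hS' k hk]
    ring
  have h5 : a (u - w) (u - w) = 0 := by
    have h6 : a (u - w) (u - w) = lam * b (u - w) (u - w) := by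
      rw [map_sub a, map_sub b, sub_apply, sub_apply, hu, h4]
      ring
    rw [h6, h3, mul_zero]
  obtain ⟨c, hc, hco⟩ := hF.co
  have h6 := hco (u - w)
  rw [h3, h5, add_zero] at h6
  have h7 : ‖u - w‖ ^ 2 ≤ 0 := by
    by_contra h8
    push Not at h8
    have := mul_pos hc h8
    linarith
  have h8 : ‖u - w‖ = 0 := by
    have := sq_nonneg ‖u - w‖
    exact pow_eq_zero_iff (two_ne_zero) |>.1 (le_antisymm h7 this)
  exact sub_eq_zero.1 (norm_eq_zero.1 h8)

end

theorem stDrop (h1 : StKb) : StDrop := by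
  classical
  intro M _ _ _ _ μ _ H _ _ _ i a b hT φ m hm hpos ψ ψ0 ρ hψ hρ hρ0 hns
  obtain ⟨hsym, hadd, hsmul, -, -, -, -, hdq⟩ := h1 M μ H i a b hT
  obtain ⟨l1, l2, l3, l4, l5⟩ := tLip M μ H a b hT.fm hT.exp
  set Φ : ℕ → C(M, ℝ) := fun n => φ + ρ n • ψ n with hΦdef
  have hΦ : Tendsto Φ atTop (𝓝 φ) := by
    have h2 : Tendsto (fun n => φ + ρ n • ψ n) atTop (𝓝 (φ + (0 : ℝ) • ψ0)) :=
      tendsto_const_nhds.add (hρ.smul hψ)
    rwa [zero_smul, add_zero] at h2
  have hFt : ∀ j, Tendsto (fun n => Ev a (b (Φ n)) j) atTop (𝓝 (Ev a (b φ) j)) := fun j =>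
    ((l4 j).tendsto φ).comp hΦ
  -- the spectrum of the limit
  have tt : Tendsto (fun j => Ev a (b φ) j) atTop atTop := by
    obtain ⟨e', E', hE'⟩ := tSp H a (b φ) (hT.fm _)
    refine hE'.tt.congr fun j => ?_
    exact (Pool.Agent.Y592.QE.mm H a (b φ) (hT.fm _) e' E' hE' j).symm
  have hex : ∃ N, Ev a (b φ) m < Ev a (b φ) N := (tt.eventually_gt_atTop _).exists
  set N := Nat.find hex with hN
  have hN1 : Ev a (b φ) m < Ev a (b φ) N := Nat.find_spec hex
  have hN2 : ∀ k < N, Ev a (b φ) k ≤ Ev a (b φ) m := fun k hk => not_lt.1 (Nat.find_min hex hk)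
  have hS0 : {k | Ev a (b φ) k = Ev a (b φ) m} = (Finset.Ico m N : Set ℕ) := by
    ext k
    simp only [mem_ofPred_eq, Finset.coe_Ico, mem_Ico]
    constructor
    · intro hk
      constructor
      · by_contra h
        push Not at h
        exact absurd hk (hm k h).ne
      · by_contra h
        push Not at h
        have := l2 φ N k h
        linarith
    · rintro ⟨hk1, hk2⟩
      exact le_antisymm (hN2 k hk2) (l2 φ m k hk1)
  -- for large `n` the cluster of `m` is contained in the limit cluster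
  have hsub : ∀ᶠ n in atTop, {k | Ev a (b (Φ n)) k = Ev a (b (Φ n)) m} ⊆
      {k | Ev a (b φ) k = Ev a (b φ) m} := by
    have hev1 : ∀ᶠ n in atTop, Ev a (b (Φ n)) m < Ev a (b (Φ n)) N :=
      (hFt m).eventually_lt (hFt N) hN1
    have hev2 : ∀ᶠ n in atTop, 0 < m → Ev a (b (Φ n)) (m - 1) < Ev a (b (Φ n)) m := by
      by_cases h0 : 0 < m
      · filter_upwards [(hFt (m - 1)).eventually_lt (hFt m) (hm (m - 1) (by omega))] with n hn
        exact fun _ => hn
      · exact Eventually.of_forall fun n h => absurd h h0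
    filter_upwards [hev1, hev2] with n hn1 hn2
    rw [hS0]
    intro k hk
    simp only [mem_ofPred_eq] at hk
    simp only [Finset.coe_Ico, mem_Ico]
    constructor
    · by_contra h
      push Not at h
      have h3 := hn2 (by omega)
      have h4 := l2 (Φ n) k (m - 1) (by omega)
      linarith
    · by_contra h
      push Not at h
      have := l2 (Φ n) N k h
      linarith
  -- it is not the whole cluster
  have hne : ∀ᶠ n in atTop, {k | Ev a (b (Φ n)) k = Ev a (b (Φ n)) m} ≠
      {k | Ev a (b φ) k = Ev a (b φ) m} := by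
    by_contra hcon
    rw [Filter.not_eventually] at hcon
    obtain ⟨κ, hκ, hκe⟩ := extraction_of_frequently_atTop hcon
    apply hns
    choose e E hE using fun n => tSp H a (b (Φ (κ n))) (hT.fm _)
    obtain ⟨θ, e0, E0, hθ, hE0, he0, hlt⟩ := cpt hT.sf hT.isb hT.fm hT.exp (fun n => Φ (κ n)) φ
      (hΦ.comp hκ.tendsto_atTop) e E hE
    have hmm : ∀ n j, E n j = Ev a (b (Φ (κ n))) j := fun n j =>
      (Pool.Agent.Y592.QE.mm H a (b (Φ (κ n))) (hT.fm _) (e n) (E n) (hE n) j).symm
    have hmm0 : ∀ j, E0 j = Ev a (b φ) j := fun j =>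
      (Pool.Agent.Y592.QE.mm H a (b φ) (hT.fm _) e0 E0 hE0 j).symm
    set lam := Ev a (b φ) m with hlam
    set ι : ℕ → ℕ := fun n => κ (θ n) with hι
    have hιt : Tendsto ι atTop atTop := hκ.tendsto_atTop.comp hθ.tendsto_atTop
    set q : ℕ → ℝ := fun n => (lam - Ev a (b (Φ (ι n))) m) / ρ (ι n) with hq
    have hmem : ∀ n, ∀ k ∈ Finset.Ico m N, Ev a (b (Φ (ι n))) k = Ev a (b (Φ (ι n))) m := by
      intro n k hk
      have h3 := not_not.1 (hκe (θ n))
      rw [hS0] at h3
      have h4 : k ∈ ({k | Ev a (b (Φ (κ (θ n)))) k = Ev a (b (Φ (κ (θ n)))) m} : Set ℕ) := by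
        rw [h3]
        exact hk
      exact h4
    -- the key identity
    have key : ∀ k ∈ Finset.Ico m N, ∀ u, Ws a (b φ) lam u → ∀ n,
        q n * b φ u (e (θ n) k) = Ev a (b (Φ (ι n))) m *
          ((b (φ + ρ (ι n) • ψ (ι n)) (e (θ n) k) u - b φ (e (θ n) k) u) / ρ (ι n)) := by
      intro k hk u hu n
      have h3 := hu (e (θ n) k)
      rw [(hT.fm φ).sa, (hE (θ n)).eig, hmm] at h3
      have h4 := hmem n k hk
      rw [hι] at h4
      simp only at h4
      rw [h4] at h3
      have h5 : b (Φ (κ (θ n))) (e (θ n) k) u = b (φ + ρ (ι n) • ψ (ι n)) (e (θ n) k) u := rfl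
      rw [h5] at h3
      have h6 : b φ (e (θ n) k) u = b φ u (e (θ n) k) := (hT.fm φ).sb _ _
      rw [h6, hq]
      simp only [hι] at h3 ⊢
      rw [div_mul_eq_mul_div, mul_div_assoc']
      congr 1
      linarith
    have hlimR : ∀ k ∈ Finset.Ico m N, ∀ u, Ws a (b φ) lam u →
        Tendsto (fun n => q n * b φ u (e (θ n) k)) atTop (𝓝 (lam * kb μ i ψ0 φ (e0 k) u)) := by
      intro k hk u hu
      have h3 := hdq φ (fun n => ψ (ι n)) ψ0 (fun n => ρ (ι n)) (fun n => e (θ n) k)
        (fun _ => u) (e0 k) u (hψ.comp hιt) (hρ.comp hιt) (fun n => hρ0 _) (he0 k)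
        tendsto_const_nhds
      have h4 := ((hFt m).comp hιt).mul h3
      refine h4.congr fun n => ?_
      exact (key k hk u hu n).symm
    have hbt : ∀ k u, Tendsto (fun n => b φ u (e (θ n) k)) atTop (𝓝 (b φ u (e0 k))) := by
      intro k u
      exact ((b φ u).continuous.tendsto _).comp (he0 k)
    have hmN : m ∈ Finset.Ico m N := by
      rw [Finset.mem_Ico]
      refine ⟨le_rfl, ?_⟩
      by_contra h
      push Not at h
      have := l2 φ N m h
      linarith
    have hWm : Ws a (b φ) lam (e0 m) := by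
      intro v
      rw [hE0.eig, hmm0]
    set β := kb μ i ψ0 φ (e0 m) (e0 m) with hβ
    have hqt : Tendsto q atTop (𝓝 (lam * β)) := by
      have h3 := hlimR m hmN (e0 m) hWm
      have h4 := hbt m (e0 m)
      rw [hE0.orth, if_pos rfl] at h4
      have h5 := h3.div h4 one_ne_zero
      rw [div_one] at h5
      refine h5.congr' ?_
      filter_upwards [h4.eventually_ne one_ne_zero] with n hn
      exact mul_div_cancel_right₀ _ hn
    have hkb : ∀ k ∈ Finset.Ico m N, ∀ u, Ws a (b φ) lam u →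
        kb μ i ψ0 φ (e0 k) u = β * b φ (e0 k) u := by
      intro k hk u hu
      have h3 := tendsto_nhds_unique (hlimR k hk u hu) (hqt.mul (hbt k u))
      have h4 : lam * kb μ i ψ0 φ (e0 k) u = lam * (β * b φ (e0 k) u) := by
        rw [h3, (hT.fm φ).sb (e0 k) u]
        ring
      exact mul_left_cancel₀ hpos.ne' h4
    refine ⟨β, fun u v hu hv => ?_⟩
    have hexp := expand (hT.fm φ) hE0 (Finset.Ico m N) lam (fun k hk => by
      have h3 : k ∈ ({k | Ev a (b φ) k = lam} : Set ℕ) := by
        show Ev a (b φ) k = lam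
        rw [← hmm0 k]
        exact hk
      rw [hS0] at h3
      exact h3) (fun k hk => by
      have h3 : k ∈ ({k | Ev a (b φ) k = lam} : Set ℕ) := by
        rw [hS0]
        exact hk
      rw [hmm0]
      exact h3) u hu
    have hk0 : kb μ i ψ0 φ 0 v = 0 := by
      have := hsmul ψ0 φ 0 (0 : H) v
      simpa using this
    have hsum : ∀ S : Finset ℕ, kb μ i ψ0 φ (∑ k ∈ S, b φ u (e0 k) • e0 k) v =
        ∑ k ∈ S, b φ u (e0 k) * kb μ i ψ0 φ (e0 k) v := by
      intro S
      induction S using Finset.induction_on with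
      | empty => simp [hk0]
      | insert j S hj ih =>
        rw [Finset.sum_insert hj, Finset.sum_insert hj, hadd, hsmul, ih]
    have h3 : kb μ i ψ0 φ u v = ∑ k ∈ Finset.Ico m N, b φ u (e0 k) * kb μ i ψ0 φ (e0 k) v := by
      rw [← hsum, ← hexp]
    have h4 : b φ u v = ∑ k ∈ Finset.Ico m N, b φ u (e0 k) * b φ (e0 k) v := by
      conv_lhs => rw [hexp]
      rw [map_sum, sum_apply]
      refine Finset.sum_congr rfl fun k _ => ?_
      simp only [map_smul, smul_apply, smul_eq_mul]
    rw [h3, h4, Finset.mul_sum]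
    refine Finset.sum_congr rfl fun k hk => ?_
    rw [hkb k hk v hv]
    ring
  filter_upwards [hsub, hne] with n hn1 hn2
  refine Set.ncard_lt_ncard (Set.ssubset_iff_subset_ne.2 ⟨hn1, hn2⟩) ?_
  rw [hS0]
  exact Finset.finite_toSet _

end Pool.Agent.H240.IX.A388
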