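import Pool.Agent.H240.IX.Def

/-!
# Extremal eigenvectors (`IX-4` of helper240)
-/

set_option autoImplicit false

open Set Filter Topology MeasureTheory
open scoped Real ContDiff

noncomputable section

namespace Pool.Agent.H240.IX.A881

open Pool.Agent.Y262.QE Pool.Agent.Y264.QR Pool.Agent.H240.NX Pool.Agent.H240.IX

/-- first variation -/
theorem var1 (x y : ℝ) (h : ∀ s : ℝ, 2 * s * x + s ^ 2 * y ≤ 0) : x = 0 := by
  by_contra hx
  have hy : 0 < |y| + 1 := by positivity
  have h1 := h (x / (|y| + 1))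
  have hx2 : 0 < x ^ 2 := by positivity
  have h2 : (x / (|y| + 1)) ^ 2 * (-(|y| + 1)) ≤ (x / (|y| + 1)) ^ 2 * y :=
    mul_le_mul_of_nonneg_left (by linarith [neg_abs_le y]) (sq_nonneg _)
  have h3 : 2 * (x / (|y| + 1)) * x + (x / (|y| + 1)) ^ 2 * (-(|y| + 1)) = x ^ 2 / (|y| + 1) := by
    field_simp
    ring
  have h4 : 0 < x ^ 2 / (|y| + 1) := by positivity
  linarith

section

variable {H : Type} [NormedAddCommGroup H] [InnerProductSpace ℝ H]

/-- the form `K` is proportional to `B` in the direction of a maximizer -/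
theorem prop (a B : H →L[ℝ] H →L[ℝ] ℝ) (hF : Fm a B) (K : H → H → ℝ) (E m : ℝ)
    (hs : ∀ u v, K u v = K v u) (hadd : ∀ u u' v, K (u + u') v = K u v + K u' v)
    (hsm : ∀ (c : ℝ) u v, K (c • u) v = c * K u v)
    (hmax : ∀ w, Uv a B E w → K w w ≤ m) (u : H) (hu : Uv a B E u) (hm : K u u = m)
    (v : H) (hv : Uv a B E v) : K u v = m * B u v := by
  have hsm2 : ∀ (c : ℝ) u v, K u (c • v) = c * K u v := fun c u v => by
    rw [hs, hsm, hs]
  have hadd2 : ∀ u v v', K u (v + v') = K u v + K u v' := fun u v v' => by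
    rw [hs, hadd, hs v u, hs v' u]
  have hle : ∀ w, (∀ z, a w z = E * B w z) → K w w ≤ m * B w w := by
    intro w hw
    rcases (hF.nb w).eq_or_lt with h0 | h0
    · have h1 : a w w = 0 := by rw [hw, ← h0, mul_zero]
      obtain ⟨c, hc, hco⟩ := hF.co
      have h2 := hco w
      rw [h1, ← h0, add_zero] at h2
      have h3 : ‖w‖ ^ 2 ≤ 0 := by
        by_contra hcon
        push Not at hcon
        have := mul_pos hc hcon
        linarith
      have h4 : w = 0 := by
        have : ‖w‖ = 0 := by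
          have h5 := sq_nonneg ‖w‖
          exact pow_eq_zero_iff (two_ne_zero) |>.1 (le_antisymm h3 h5)
        exact norm_eq_zero.1 this
      have h5 : K w w = 0 := by
        have := hsm 0 w w
        rw [zero_smul, zero_mul] at this
        rw [h4] at this ⊢
        exact this
      rw [h5, ← h0, mul_zero]
    · obtain ⟨r, hr⟩ : ∃ r, r = Real.sqrt (B w w) := ⟨_, rfl⟩
      have hr0 : 0 < r := by rw [hr]; exact Real.sqrt_pos.2 h0
      have hr2 : r ^ 2 = B w w := by rw [hr]; exact Real.sq_sqrt h0.le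
      have hU : Uv a B E (r⁻¹ • w) := by
        refine ⟨?_, fun z => ?_⟩
        · simp only [map_smul, _root_.smul_apply, smul_eq_mul]
          rw [← hr2]
          field_simp
        · simp only [map_smul, _root_.smul_apply, smul_eq_mul]
          rw [hw z]
          ring
      have h1 := hmax _ hU
      rw [hsm, hsm2] at h1
      have h2 : K w w = r ^ 2 * (r⁻¹ * (r⁻¹ * K w w)) := by
        field_simp
      rw [h2, ← hr2]
      calc r ^ 2 * (r⁻¹ * (r⁻¹ * K w w)) ≤ r ^ 2 * m :=
            mul_le_mul_of_nonneg_left h1 (by positivity)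
        _ = m * r ^ 2 := by ring
  have key : K u v - m * B u v = 0 := by
    refine var1 _ (K v v - m * B v v) fun s => ?_
    have h1 := hle (u + s • v) (fun z => by
      simp only [map_add, map_smul, _root_.add_apply, _root_.smul_apply, smul_eq_mul]
      rw [hu.eig, hv.eig]
      ring)
    have h2 : K (u + s • v) (u + s • v) = K u u + 2 * s * K u v + s ^ 2 * K v v := by
      rw [hadd, hadd2, hadd2, hsm, hsm, hsm2, hsm2, hs v u]
      ring
    have h3 : B (u + s • v) (u + s • v) = B u u + 2 * s * B u v + s ^ 2 * B v v := by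
      simp only [map_add, map_smul, _root_.add_apply, _root_.smul_apply, smul_eq_mul]
      rw [hF.sb v u]
      ring
    rw [h2, h3, hm, hu.one] at h1
    linarith
  linarith

end

theorem stExt (h1 : StKb) (h2 : StCU) : StExt := by
  intro M _ _ _ _ μ _ H _ _ _ i a b hS f φ j
  obtain ⟨hs, hadd, hsm, -, -, -, hcont, -⟩ := h1 M μ H i a b hS
  obtain ⟨E, hE⟩ : ∃ E, E = Ev a (b φ) j := ⟨_, rfl⟩
  rw [← hE]
  have hF := hS.fm φ
  obtain ⟨W, hW⟩ : ∃ W : Set H, W = {w | Uv a (b φ) E w} := ⟨_, rfl⟩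
  have hcomp : IsCompact W := by
    apply IsSeqCompact.isCompact
    intro w hw
    obtain ⟨θ, w0, hθ, hw0, ht⟩ := h2 M μ H i a b hS (fun _ => φ) φ tendsto_const_nhds j w
      (fun n => by
        have := hw n
        rw [hW] at this
        rw [← hE]
        exact this)
    refine ⟨w0, ?_, θ, hθ, ht⟩
    rw [hW]
    rw [← hE] at hw0
    exact hw0
  have hne : W.Nonempty := by
    obtain ⟨e, E', hEg⟩ := tSp H a (b φ) hF
    have hmm := Pool.Agent.Y592.QE.mm H a (b φ) hF e E' hEg j
    refine ⟨e j, ?_⟩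
    rw [hW]
    refine ⟨by rw [hEg.orth, if_pos rfl], fun v => ?_⟩
    rw [hE, hmm]
    exact hEg.eig j v
  have hc : Continuous (fun w => kb μ i f φ w w) := by
    rw [continuous_iff_seqContinuous]
    intro w w0 hw
    exact hcont (fun _ => f) f (fun _ => φ) φ w w w0 w0 tendsto_const_nhds tendsto_const_nhds hw hw
  obtain ⟨u1, hu1, hmax⟩ := hcomp.exists_isMaxOn hne hc.continuousOn
  obtain ⟨u2, hu2, hmin⟩ := hcomp.exists_isMinOn hne hc.continuousOn
  have hW' : ∀ w, w ∈ W ↔ Uv a (b φ) E w := fun w => by rw [hW]; rfl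
  have hU1 := (hW' u1).1 hu1
  have hU2 := (hW' u2).1 hu2
  refine ⟨u1, u2, hU1, hU2, fun w hw => ⟨hmin ((hW' w).2 hw), hmax ((hW' w).2 hw)⟩, fun hlt => ?_⟩
  have e1 := prop a (b φ) hF (kb μ i f φ) E (kb μ i f φ u1 u1) (hs f φ) (hadd f φ) (hsm f φ)
    (fun w hw => hmax ((hW' w).2 hw)) u1 hU1 rfl u2 hU2
  have e2 := prop a (b φ) hF (fun u v => - kb μ i f φ u v) E (- kb μ i f φ u2 u2)
    (fun u v => by rw [hs]) (fun u u' v => by rw [hadd]; ring) (fun c u v => by rw [hsm]; ring)
    (fun w hw => neg_le_neg (hmin ((hW' w).2 hw))) u2 hU2 rfl u1 hU1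
  rw [hs f φ u2 u1, hF.sb u2 u1] at e2
  have e3 : (kb μ i f φ u1 u1 - kb μ i f φ u2 u2) * b φ u1 u2 = 0 := by linarith
  have e4 : b φ u1 u2 = 0 := (mul_eq_zero.1 e3).resolve_left (by linarith)
  exact ⟨e4, by rw [e1, e4, mul_zero]⟩

end Pool.Agent.H240.IX.A881
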