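import Pool.Agent.H240.IX.Def

/-!
# Perturbed eigenvectors of the lowest index of a cluster (project IX, part 7)

The eigenvectors for the lowest index of the cluster of the perturbed problem tend to unit vectors
which maximize the form of the perturbation on the eigenspace.
-/

set_option autoImplicit false
set_option linter.unusedSectionVars false

open Set Filter Topology MeasureTheory
open scoped Real ContDiff

noncomputable section

namespace Pool.Agent.H240.IX.A685

open Pool.Agent.Y262.QE Pool.Agent.Y264.QR Pool.Agent.H240.NX Pool.Agent.H240.IX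

section sys

variable {H : Type} [NormedAddCommGroup H] [InnerProductSpace ℝ H] {a b : H →L[ℝ] H →L[ℝ] ℝ}

/-- every unit eigenvector is a member of a complete system of eigenvectors (Householder
reflection) -/
theorem exists_sys (hF : Fm a b) {e : ℕ → H} {E : ℕ → ℝ} (hE : Eg a b e E) (m : ℕ) {u : H}
    (hu1 : b u u = 1) (hu : ∀ v, a u v = E m * b u v) : ∃ e' : ℕ → H, Eg a b e' E ∧ e' m = u := by
  by_cases h : e m = u
  · exact ⟨e, hE, h⟩
  obtain ⟨x, hx⟩ : ∃ x, x = e m - u := ⟨_, rfl⟩
  have hem : b (e m) (e m) = 1 := by rw [hE.orth, if_pos rfl]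
  have hax : ∀ v, a x v = E m * b x v := by
    intro v
    rw [hx, map_sub, map_sub, sub_apply, sub_apply, hE.eig, hu]
    ring
  have hq : b x x ≠ 0 := by
    intro h0
    obtain ⟨c, hc, hc2⟩ := hF.co
    have h1 := hc2 x
    rw [hax, h0, mul_zero, add_zero] at h1
    have h2 : ‖x‖ ^ 2 ≤ 0 := by
      by_contra hcon
      push Not at hcon
      have := mul_pos hc hcon
      linarith
    have h3 : x = 0 := norm_eq_zero.1 (pow_eq_zero_iff (two_ne_zero)|>.1 (le_antisymm h2 (sq_nonneg _)))
    rw [hx] at h3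
    exact h (sub_eq_zero.1 h3)
  have hqm : b x x = 2 - 2 * b (e m) u := by
    rw [hx]
    simp only [map_sub, sub_apply]
    rw [hem, hu1, hF.sb u (e m)]
    ring
  have hmx : b (e m) x = b x x / 2 := by
    rw [hqm, hx, map_sub, hem]
    ring
  obtain ⟨R, hR⟩ : ∃ R : H → H, ∀ v, R v = v - (2 * b v x / b x x) • x := ⟨_, fun _ => rfl⟩
  have hRR : ∀ v w, b (R v) w = b v (R w) := by
    intro v w
    rw [hR, hR]
    simp only [map_sub, sub_apply, map_smul, smul_apply, smul_eq_mul]
    rw [hF.sb x w]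
    ring
  have hRx : ∀ v, b (R v) x = - b v x := by
    intro v
    rw [hR]
    simp only [map_sub, sub_apply, map_smul, smul_apply, smul_eq_mul]
    field_simp
    ring
  have hiso : ∀ v w, b (R v) (R w) = b v w := by
    intro v w
    rw [hR w]
    simp only [map_sub, map_smul, smul_eq_mul]
    rw [hRx, hR v]
    simp only [map_sub, sub_apply, map_smul, smul_apply, smul_eq_mul]
    rw [hF.sb x w]
    ring
  refine ⟨fun j => R (e j), ⟨fun i j => ?_, fun j v => ?_, hE.mono, hE.tt, fun v => ?_⟩, ?_⟩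
  · rw [hiso, hE.orth]
  · have h1 : b (e j) x * (E j - E m) = 0 := by
      have h2 : a (e j) x = E j * b (e j) x := hE.eig j x
      have h3 : a x (e j) = E m * b x (e j) := hax (e j)
      rw [hF.sa x (e j), hF.sb x (e j)] at h3
      linarith
    rw [hR]
    simp only [map_sub, sub_apply, map_smul, smul_apply, smul_eq_mul]
    rw [hE.eig, hax]
    have h2 : 2 * b (e j) x / b x x * (E m * b x v) = E j * (2 * b (e j) x / b x x * b x v) := by
      have : 2 * b (e j) x / b x x * (E m * b x v) - E j * (2 * b (e j) x / b x x * b x v) =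
          -(2 / b x x * b x v) * (b (e j) x * (E j - E m)) := by ring
      rw [h1, mul_zero] at this
      linarith
    rw [h2]
    ring
  · have h1 := hE.sum (R v)
    rw [hiso] at h1
    refine h1.congr_fun ?_
    intro j
    rw [hRR]
  · change R (e m) = u
    rw [hR, hmx]
    have : 2 * (b x x / 2) / b x x = 1 := by field_simp
    rw [this, one_smul, hx]
    abel

end sys

theorem stExtr (h1 : StKb) : StExtr := by
  intro M _ _ _ _ μ _ H _ _ _ i a b hS φ m hlt hpos ψ ρ hρ hρ0 w w0 hw hw0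
  obtain ⟨-, -, -, -, -, -, -, hdq⟩ := h1 M μ H i a b hS
  obtain ⟨l1, l2, l3, l4, l5⟩ := tLip M μ H a b hS.fm hS.exp
  have hφn : Tendsto (fun n => φ + ρ n • ψ) atTop (𝓝 φ) := by
    have : Tendsto (fun n => φ + ρ n • ψ) atTop (𝓝 (φ + (0 : ℝ) • ψ)) :=
      tendsto_const_nhds.add (hρ.smul tendsto_const_nhds)
    rwa [zero_smul, add_zero] at this
  have hEn : Tendsto (fun n => Ev a (b (φ + ρ n • ψ)) m) atTop (𝓝 (Ev a (b φ) m)) :=
    ((l4 m).tendsto φ).comp hφn
  -- the limit is a unit eigenvector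
  have hone : b φ w0 w0 = 1 := by
    refine tendsto_nhds_unique (b_tendsto hS.isb hS.fm hφn hw0 hw0) ?_
    exact tendsto_const_nhds.congr fun n => ((hw n).one).symm
  have heig : ∀ v, a w0 v = Ev a (b φ) m * b φ w0 v := by
    intro v
    have g1 : Tendsto (fun n => a (w n) v) atTop (𝓝 (a w0 v)) := by
      have hc : Continuous fun y : H => a y v := by fun_prop
      exact (hc.tendsto _).comp hw0
    have g2 := hEn.mul (b_tendsto hS.isb hS.fm hφn hw0 (tendsto_const_nhds (x := v)))
    exact tendsto_nhds_unique g1 (g2.congr fun n => ((hw n).eig v).symm)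
  refine ⟨⟨hone, heig⟩, fun u hu => ?_⟩
  -- the derivative along the sequence
  have hcl1 : Tendsto (fun n => (Ev a (b φ) m - Ev a (b (φ + ρ n • ψ)) m) / ρ n) atTop
      (𝓝 (Ev a (b φ) m * kb μ i ψ φ w0 w0)) := by
    have g1 := hdq φ (fun _ => ψ) ψ ρ w (fun _ => w0) w0 w0 tendsto_const_nhds hρ
      (fun n => (hρ0 n).ne') hw0 tendsto_const_nhds
    have g2 := hEn.mul g1
    have g3 : Tendsto (fun n => b φ (w n) w0) atTop (𝓝 1) := by
      have hc : Continuous fun y : H => b φ y w0 := by fun_prop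
      have := (hc.tendsto w0).comp hw0
      rwa [hone] at this
    have g4 := g2.div g3 one_ne_zero
    rw [div_one] at g4
    refine g4.congr' ?_
    filter_upwards [g3.eventually_ne one_ne_zero] with n hn
    have k1 : Ev a (b φ) m * b φ (w n) w0 = Ev a (b (φ + ρ n • ψ)) m * b (φ + ρ n • ψ) (w n) w0 := by
      have k2 := heig (w n)
      have k3 := (hw n).eig w0
      rw [hS.sf.sa w0 (w n), k3, (hS.fm φ).sb w0 (w n)] at k2
      exact k2.symm
    have hρn := (hρ0 n).ne'
    change Ev a (b (φ + ρ n • ψ)) m * ((b (φ + ρ n • ψ) (w n) w0 - b φ (w n) w0) / ρ n) /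
      b φ (w n) w0 = (Ev a (b φ) m - Ev a (b (φ + ρ n • ψ)) m) / ρ n
    rw [div_eq_div_iff hn hρn]
    field_simp
    linear_combination -k1
  -- a system which contains `u`
  obtain ⟨e, E, hE⟩ := tSp H a (b φ) (hS.fm φ)
  have hmm : ∀ j, Ev a (b φ) j = E j := Pool.Agent.Y592.QE.mm H a (b φ) (hS.fm φ) e E hE
  obtain ⟨e', hE', he'⟩ := exists_sys (hS.fm φ) hE m hu.one (fun v => by rw [← hmm]; exact hu.eig v)
  -- the form of the perturbation
  obtain ⟨b', hB', hF', -, hexp', hk⟩ := tFm M μ H i a hS.sf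
  have hbb : b' = b := by
    funext θ
    ext x y
    rw [hB', hS.isb]
  subst hbb
  obtain ⟨k, hk1, hk2, hk3⟩ := hk ψ
  have hkb : k φ u u = kb μ i ψ φ u u := by
    rw [(hk2 φ u).1]
    unfold kap kb
    refine integral_congr_ae (Eventually.of_forall fun x => ?_)
    ring
  refine le_of_mul_le_mul_left ?_ hpos
  refine le_of_forall_pos_le_add fun ε hε => ?_
  obtain ⟨δ, hδ, hd⟩ := tDer0 H a (b' φ) (hS.fm φ) e' E hE' (k φ) ‖ψ‖ (hk1 φ)
    (fun v => (hk2 φ v).2) m m rfl (fun l hl => by rw [← hmm, ← hmm]; exact hlt l hl) ε hε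
  have hev : ∀ᶠ n in atTop, Ev a (b' φ) m * kb μ i ψ φ u u - ε ≤
      (Ev a (b' φ) m - Ev a (b' (φ + ρ n • ψ)) m) / ρ n := by
    have g1 : ∀ᶠ n in atTop, ρ n < δ := hρ.eventually (gt_mem_nhds hδ)
    filter_upwards [g1] with n hn
    have g2 := hd (ρ n) (by rwa [abs_of_pos (hρ0 n)]) (b' (φ + ρ n • ψ)) (fun v => hk3 φ v (ρ n))
    rw [he', hkb, abs_of_pos (hρ0 n), ← hmm] at g2
    rw [le_div_iff₀ (hρ0 n)]
    linarith
  have := ge_of_tendsto hcl1 hev
  linarith

end Pool.Agent.H240.IX.A685
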