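import Pool.Agent.H240.IX.DefH

/-!
# `IX-15`: a relatively compact open fundamental set, bounds of the derivatives on it (helper962)
-/

set_option autoImplicit false
set_option linter.unusedSectionVars false

open Set Filter Topology MeasureTheory
open scoped ContDiff ComplexConjugate Real

noncomputable section

namespace Pool.Agent.H240.IX.A962F

open Pool.Agent.Y262.EG Pool.Agent.Y262.EX Pool.Agent.H240.CG Pool.Agent.H240.IX

/-- **IX-15** -/
theorem stFd : StFd := by
  constructor
  · have hA : Act Gq Om ac := tAct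
    obtain ⟨K, hK, hKO, hcov⟩ := hA.cpt
    obtain ⟨O, hO, hKV, hVO, hV⟩ := exists_open_between_and_isCompact_closure hK hA.opn hKO
    refine ⟨O, hO, hV, hVO, fun z hz => ?_⟩
    obtain ⟨γ, hγ⟩ := hcov z hz
    exact ⟨γ, hKV hγ⟩
  · intro M pr O ψ hO hψ N
    have hA : Act Gq Om ac := tAct
    have hc : ∀ j : ℕ, ContinuousOn (iteratedFDeriv ℝ j (fun z => ψ (pr z))) (closure O) := by
      intro j z hz
      have hz' := hO.sub hz
      have h1 : ContDiffAt ℝ ∞ (fun z => ψ (pr z)) z :=
        (hψ.sm z hz').contDiffAt (hA.opn.mem_nhds hz')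
      have h2 : ContDiffAt ℝ 0 (iteratedFDeriv ℝ j (fun z => ψ (pr z))) z :=
        h1.iteratedFDeriv_right (by exact_mod_cast le_top)
      exact h2.continuousAt.continuousWithinAt
    choose K hK using fun j => hO.cpt.exists_bound_of_continuousOn (hc j)
    refine ⟨∑ j ∈ Finset.range (N + 1), |K j|, Finset.sum_nonneg fun j _ => abs_nonneg _, ?_⟩
    intro j hj z hz
    refine (hK j z (subset_closure hz)).trans ((le_abs_self _).trans ?_)
    exact Finset.single_le_sum (f := fun j => |K j|) (fun i _ => abs_nonneg _)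
      (Finset.mem_range.2 (Nat.lt_succ_of_le hj))

end Pool.Agent.H240.IX.A962F
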