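import Pool.Agent.H240.IX.DefH

/-!
# IX-16: sums of functions off the collar
-/

set_option autoImplicit false
set_option linter.unusedSectionVars false

open Set Filter Topology MeasureTheory
open scoped ContDiff ComplexConjugate Real

noncomputable section

namespace Pool.Agent.H240.IX.A79

open Pool.Agent.Y262.EG Pool.Agent.Y262.EX Pool.Agent.Y262.EL Pool.Agent.Y262.QE
open Pool.Agent.Y264.QR Pool.Agent.H240.SC Pool.Agent.H240.SG Pool.Agent.H240.CG Pool.Agent.H240.IX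

/-- sums of smooth functions on an open set -/
theorem local_sum (O : Set ℂ) (hO : IsOpen O) (f : ℕ → ℂ → ℝ) (ρ : ℕ → ℝ) (hρ : Summable ρ)
    (hf : ∀ n, ContDiffOn ℝ ∞ (f n) O)
    (hb : ∀ n, ∀ j ≤ n + 3, ∀ z ∈ O, ‖iteratedFDeriv ℝ j (f n) z‖ ≤ ρ n) (w : ℂ) (hw : w ∈ O) :
    ContDiffAt ℝ ∞ (fun z => ∑' n, f n z) w ∧
      ‖iteratedFDeriv ℝ 2 (fun z => ∑' n, f n z) w‖ ≤ ∑' n, ρ n := by
  have hρ0 : ∀ n, 0 ≤ ρ n := fun n => (norm_nonneg _).trans (hb n 0 (by omega) w hw)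
  -- the cutoff function
  obtain ⟨ε, hε, hball⟩ := Metric.isOpen_iff.1 hO w hw
  let χ : ContDiffBump w := ⟨ε / 4, ε / 2, by positivity, by linarith⟩
  have hχs : tsupport χ ⊆ O := by
    rw [χ.tsupport_eq]
    refine (Metric.closedBall_subset_ball ?_).trans hball
    change ε / 2 < ε
    linarith
  have hχ1 : ∀ᶠ z in 𝓝 w, χ z = 1 := χ.eventuallyEq_one
  have hχc : HasCompactSupport χ := χ.hasCompactSupport
  have hχd : ContDiff ℝ ∞ χ := χ.contDiff
  have hC : ∀ j : ℕ, ∃ C : ℝ, ∀ z, ‖iteratedFDeriv ℝ j χ z‖ ≤ C := by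
    intro j
    exact (hχd.continuous_iteratedFDeriv (m := j) (by exact_mod_cast le_top)).bounded_above_of_compact_support
      (hχc.iteratedFDeriv j)
  choose C hC using hC
  have hC0 : ∀ j, 0 ≤ C j := fun j => (norm_nonneg _).trans (hC j w)
  set g : ℕ → ℂ → ℝ := fun n z => χ z * f n z with hg
  have hzero : ∀ n, ∀ z, z ∉ tsupport χ → g n =ᶠ[𝓝 z] fun _ => 0 := by
    intro n z hz
    have h1 : χ =ᶠ[𝓝 z] 0 := notMem_tsupport_iff_eventuallyEq.1 hz
    filter_upwards [h1] with y hy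
    change χ y * f n y = 0
    rw [hy, Pi.zero_apply, zero_mul]
  have hgd : ∀ n, ContDiff ℝ ∞ (g n) := by
    intro n
    rw [contDiff_iff_contDiffAt]
    intro z
    by_cases hz : z ∈ tsupport χ
    · exact hχd.contDiffAt.mul ((hf n).contDiffAt (hO.mem_nhds (hχs hz)))
    · exact contDiffAt_const.congr_of_eventuallyEq (hzero n z hz)
  set D : ℕ → ℝ := fun j => ∑ i ∈ Finset.range (j + 1), (j.choose i : ℝ) * C i with hD
  have hD0 : ∀ j, 0 ≤ D j := fun j =>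
    Finset.sum_nonneg fun i _ => mul_nonneg (Nat.cast_nonneg _) (hC0 i)
  have hgb : ∀ (n j : ℕ), j ≤ n + 3 → ∀ z, ‖iteratedFDeriv ℝ j (g n) z‖ ≤ D j * ρ n := by
    intro n j hj z
    by_cases hz : z ∈ tsupport χ
    · have hzO := hχs hz
      have h1 := norm_iteratedFDerivWithin_mul_le (𝕜 := ℝ) (N := (∞ : WithTop ℕ∞)) (f := χ) (g := f n) (s := O)
        (x := z) hχd.contDiffOn (hf n) hO.uniqueDiffOn hzO (n := j)
        (by exact_mod_cast le_top)
      rw [iteratedFDerivWithin_of_isOpen j hO hzO] at h1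
      refine h1.trans ?_
      rw [hD, Finset.sum_mul]
      apply Finset.sum_le_sum
      intro i hi
      rw [iteratedFDerivWithin_of_isOpen i hO hzO, iteratedFDerivWithin_of_isOpen (j - i) hO hzO]
      apply mul_le_mul _ (hb n (j - i) (by omega) z hzO) (norm_nonneg _)
        (mul_nonneg (Nat.cast_nonneg _) (hC0 i))
      exact mul_le_mul_of_nonneg_left (hC i z) (Nat.cast_nonneg _)
    · have h1 := (hzero n z hz).iteratedFDeriv ℝ j
      have h2 : iteratedFDeriv ℝ j (g n) z = iteratedFDeriv ℝ j (fun _ : ℂ => (0 : ℝ)) z :=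
        h1.eq_of_nhds
      rw [h2]
      have h3 : iteratedFDeriv ℝ j (fun _ : ℂ => (0 : ℝ)) = 0 := iteratedFDeriv_fun_zero
      rw [h3, Pi.zero_apply, norm_zero]
      exact mul_nonneg (hD0 j) (hρ0 n)
  have hgs : ContDiff ℝ ∞ (fun z => ∑' n, g n z) := by
    refine contDiff_tsum_of_eventually (𝕜 := ℝ) (N := (⊤ : ℕ∞)) (v := fun j n => D j * ρ n) hgd
      (fun k _ => hρ.mul_left _) (fun k _ => ?_)
    have h1 : {i : ℕ | ¬ ∀ x : ℂ, ‖iteratedFDeriv ℝ k (g i) x‖ ≤ D k * ρ i} ⊆ Set.Iio k := by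
      intro i hi
      rw [Set.mem_Iio]
      by_contra hcon
      exact hi (hgb i k (by omega))
    exact (Set.finite_Iio k).subset h1
  have heq : (fun z => ∑' n, f n z) =ᶠ[𝓝 w] fun z => ∑' n, g n z := by
    filter_upwards [hχ1] with z hz
    refine tsum_congr fun n => ?_
    change f n z = χ z * f n z
    rw [hz, one_mul]
  refine ⟨hgs.contDiffAt.congr_of_eventuallyEq heq, ?_⟩
  have h2 : iteratedFDeriv ℝ 2 (fun z => ∑' n, f n z) w = iteratedFDeriv ℝ 2 (fun z => ∑' n, g n z) w :=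
    (heq.iteratedFDeriv ℝ 2).eq_of_nhds
  have h3 : iteratedFDeriv ℝ 2 (fun z => ∑' n, g n z) w = ∑' n, iteratedFDeriv ℝ 2 (g n) w := by
    refine iteratedFDeriv_tsum_apply (𝕜 := ℝ) (N := ((2 : ℕ) : ℕ∞)) (v := fun j n => D j * ρ n)
      (fun i => (hgd i).of_le (by exact_mod_cast le_top)) (fun k _ => hρ.mul_left _)
      (fun k i x hk => hgb i k ?_ x) le_rfl w
    have hk' : k ≤ 2 := by exact_mod_cast hk
    omega
  have h4 : ∀ n, ‖iteratedFDeriv ℝ 2 (g n) w‖ ≤ ρ n := by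
    intro n
    have h5 : g n =ᶠ[𝓝 w] f n := by
      filter_upwards [hχ1] with z hz
      change χ z * f n z = f n z
      rw [hz, one_mul]
    rw [(h5.iteratedFDeriv ℝ 2).eq_of_nhds]
    exact hb n 2 (by omega) w hw
  rw [h2, h3]
  exact tsum_of_norm_bounded hρ.hasSum h4

theorem second_le (S : ℂ → ℝ) (w : ℂ) (hS : ContDiffAt ℝ 2 S w) (a b : ℂ) (ha : ‖a‖ ≤ 1)
    (hb : ‖b‖ ≤ 1) : |fderiv ℝ (fun z => fderiv ℝ S z a) w b| ≤ ‖iteratedFDeriv ℝ 2 S w‖ := by
  have h1 : DifferentiableAt ℝ (fderiv ℝ S) w := by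
    have h2 : ContDiffAt ℝ 1 (fderiv ℝ S) w := hS.fderiv_right (m := 1) (by norm_num)
    exact h2.differentiableAt (by norm_num)
  have h2 : fderiv ℝ (fun z => fderiv ℝ S z a) w b = (fderiv ℝ (fderiv ℝ S) w b) a := by
    have h3 := (h1.hasFDerivAt.clm_apply (hasFDerivAt_const a w)).fderiv
    rw [h3]
    simp
  have h3 : iteratedFDeriv ℝ 2 S w ![b, a] = (fderiv ℝ (fderiv ℝ S) w b) a := by
    rw [iteratedFDeriv_two_apply]
    rfl
  rw [h2, ← h3, ← Real.norm_eq_abs]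
  refine (ContinuousMultilinearMap.le_opNorm _ _).trans ?_
  rw [Fin.prod_univ_two]
  change ‖iteratedFDeriv ℝ 2 S w‖ * (‖b‖ * ‖a‖) ≤ _
  have h4 : ‖b‖ * ‖a‖ ≤ 1 := mul_le_one₀ hb (norm_nonneg a) ha
  exact mul_le_of_le_one_right (norm_nonneg _) h4

theorem stOfS : StOfS := by
  intro M _ _ pr O hpr hFd ψ ρ hρ hof hbd
  have hA : Act Gq Om ac := tAct
  have hrel : ∀ γ, ∀ z ∈ Om, pr z = pr (ac γ z) := fun γ z hz =>
    (hpr.rel z hz (ac γ z) (hA.maps γ z hz)).2 ⟨γ, rfl⟩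
  have hrep : ∀ x : M, ∃ z ∈ O, pr z = x := by
    intro x
    have hx : x ∈ pr '' Om := by
      rw [hpr.surj]
      exact mem_univ x
    obtain ⟨z, hz, rfl⟩ := hx
    obtain ⟨γ, hγ⟩ := hFd.cov z hz
    exact ⟨ac γ z, hγ, (hrel γ z hz).symm⟩
  have hOOm : O ⊆ Om := subset_closure.trans hFd.sub
  have habs : ∀ n x, |ψ n x| ≤ ρ n := by
    intro n x
    obtain ⟨z, hz, rfl⟩ := hrep x
    have h := hbd n 0 (Nat.zero_le _) z hz
    rw [norm_iteratedFDeriv_zero] at h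
    exact h
  have hloc := local_sum O hFd.opn (fun n z => ψ n (pr z)) ρ hρ (fun n => (hof n).sm.mono hOOm)
    (fun n j hj z hz => hbd n j hj z hz)
  refine ⟨⟨?_, ?_⟩, habs, ?_, ?_⟩
  · intro z hz
    apply ContDiffAt.contDiffWithinAt
    obtain ⟨γ, hγ⟩ := hFd.cov z hz
    have h1 := (hloc (ac γ z) hγ).1
    have hOm : IsOpen Om := hA.opn
    have hac : ContDiffAt ℝ ∞ (ac γ) z :=
      (((hA.hol γ).contDiffOn (n := ∞) hOm).restrict_scalars ℝ).contDiffAt (hOm.mem_nhds hz)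
    have h2 : ContDiffAt ℝ ∞ (fun y => ∑' n, ψ n (pr (ac γ y))) z := h1.comp z hac
    refine h2.congr_of_eventuallyEq ?_
    filter_upwards [hOm.mem_nhds hz] with y hy
    change ∑' n, ψ n (pr y) = ∑' n, ψ n (pr (ac γ y))
    rw [← hrel γ y hy]
  · intro z hz
    change ∑' n, ψ n (pr z) = 0
    rw [tsum_congr fun n => (hof n).zero z hz, tsum_zero]
  · intro x
    have h1 : ‖∑' n, ψ n x‖ ≤ ∑' n, ρ n := tsum_of_norm_bounded hρ.hasSum fun n => habs n x
    exact h1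
  · intro z hz
    obtain ⟨h1, h2⟩ := hloc z hz
    have h2t : (2 : WithTop ℕ∞) ≤ ∞ := WithTop.coe_le_coe.2 le_top
    have h1' : ContDiffAt ℝ 2 (fun z => ∑' n, ψ n (pr z)) z := h1.of_le h2t
    have h3 := second_le _ z h1' 1 1 (by rw [norm_one]) (by rw [norm_one])
    have h4 := second_le _ z h1' Complex.I Complex.I (by rw [Complex.norm_I])
      (by rw [Complex.norm_I])
    have h5 : |px (px fun z => ∑' n, ψ n (pr z)) z| ≤ ∑' n, ρ n := h3.trans h2
    have h6 : |py (py fun z => ∑' n, ψ n (pr z)) z| ≤ ∑' n, ρ n := h4.trans h2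
    have h7 := abs_add_le (px (px fun z => ∑' n, ψ n (pr z)) z)
      (py (py fun z => ∑' n, ψ n (pr z)) z)
    linarith

end Pool.Agent.H240.IX.A79
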