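import Pool.Agent.H240.IX.DefG

/-!
# Transplantation of functions on a small disc outside of the collar to the surface (`IX-8`)
-/

set_option autoImplicit false

open Set Filter Topology MeasureTheory
open scoped ContDiff ComplexConjugate Real

noncomputable section

namespace Pool.Agent.H240.IX.A181

open Pool.Agent.Y262.EG Pool.Agent.Y262.EX Pool.Agent.Y262.EL Pool.Agent.Y262.QE
open Pool.Agent.Y264.QR Pool.Agent.H240.SC Pool.Agent.H240.SG Pool.Agent.H240.CG
open Pool.Agent.H240.IX

theorem rB_pos : 0 < rB := lt_min (by linarith [L0p]) one_pos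

theorem rB_le : rB ≤ L0 / 8 := min_le_left _ _

theorem rB_le_one : rB ≤ 1 := min_le_right _ _

theorem zB_re : zB.re = 2 * L0 := by simp [zB]

/-- the disc is contained in a vertical strip -/
theorem ball_re {z : ℂ} (hz : z ∈ Metric.ball zB rB) :
    15 / 8 * L0 < z.re ∧ z.re < 17 / 8 * L0 := by
  rw [Metric.mem_ball, dist_eq_norm] at hz
  have h1 : |z.re - 2 * L0| ≤ ‖z - zB‖ := by
    have := Complex.abs_re_le_norm (z - zB)
    rw [Complex.sub_re, zB_re] at this
    exact this
  have h2 := (abs_lt.1 (h1.trans_lt hz))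
  have h3 := rB_le
  constructor <;> linarith [h2.1, h2.2]

theorem ball_stp : Metric.ball zB rB ⊆ Stp L0 (3 / 2 * L0) := by
  intro z hz
  have h1 := ball_re hz
  have h2 := L0p
  exact ⟨by linarith [h1.1], by linarith [h1.2]⟩

theorem stp_om : Stp L0 (3 / 2 * L0) ⊆ Om := by
  rintro z ⟨h1, h2⟩
  have h3 := L0p
  exact ⟨by linarith, by linarith⟩

theorem isOpen_Om : IsOpen Om := by
  apply IsOpen.inter
  · exact isOpen_lt continuous_const Complex.continuous_re
  · exact isOpen_lt Complex.continuous_re continuous_const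

/-- equivalent points of the large collar differ by a multiple of `2 π i` -/
theorem col {M : Type} [TopologicalSpace M] {pr : ℂ → M} (hpr : PrM Om ac pr) {z w : ℂ}
    (hz : z ∈ Stp L0 (3 / 2 * L0)) (hw : w ∈ Stp L0 (3 / 2 * L0)) (h : pr z = pr w) :
    ∃ n : ℤ, w = z + n * (2 * π * Complex.I) := by
  obtain ⟨γ, hγ⟩ := (hpr.rel z (stp_om hz) w (stp_om hw)).1 h
  obtain ⟨n, hn⟩ := tCol.1 z hz γ (by rw [hγ]; exact hw)
  exact ⟨n, by rw [← hγ]; exact hn z (stp_om hz)⟩

theorem col_re {z w : ℂ} {n : ℤ} (h : w = z + n * (2 * π * Complex.I)) : w.re = z.re := by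
  rw [h]
  simp

theorem col_im {z w : ℂ} {n : ℤ} (h : w = z + n * (2 * π * Complex.I)) :
    w.im = z.im + n * (2 * π) := by
  rw [h]
  simp

/-- the projection is injective on the disc -/
theorem injB {M : Type} [TopologicalSpace M] {pr : ℂ → M} (hpr : PrM Om ac pr) :
    InjOn pr (Metric.ball zB rB) := by
  intro z hz w hw h
  obtain ⟨n, hn⟩ := col hpr (ball_stp hz) (ball_stp hw) h
  have h1 : ‖w - z‖ < 2 := by
    have h2 : dist w z ≤ dist w zB + dist z zB := dist_triangle_right _ _ _
    rw [dist_eq_norm] at h2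
    have h3 := Metric.mem_ball.1 hz
    have h4 := Metric.mem_ball.1 hw
    have h5 := rB_le_one
    linarith
  have h2 : |w.im - z.im| < 2 := by
    have := Complex.abs_im_le_norm (w - z)
    rw [Complex.sub_im] at this
    exact this.trans_lt h1
  rw [col_im hn, add_sub_cancel_left, abs_mul, abs_of_pos (by positivity : (0 : ℝ) < 2 * π)] at h2
  have h3 : n = 0 := by
    by_contra hne
    have h4 : (1 : ℝ) ≤ |(n : ℝ)| := by
      have := Int.one_le_abs hne
      exact_mod_cast this
    have h5 := Real.pi_gt_three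
    nlinarith
  rw [hn, h3]
  simp

/-- the value at a point of the disc -/
theorem tr_ball {M : Type} [TopologicalSpace M] {pr : ℂ → M} (hpr : PrM Om ac pr) (w : ℂ → ℝ)
    {z : ℂ} (hz : z ∈ Metric.ball zB rB) : tr pr w (pr z) = w z := by
  have hex : ∃ y, y ∈ Metric.ball zB rB ∧ pr y = pr z := ⟨z, hz, rfl⟩
  unfold tr
  rw [dif_pos hex]
  rw [injB hpr hex.choose_spec.1 hz hex.choose_spec.2]

/-- the function vanishes off the image of the disc -/
theorem tr_off {M : Type} {pr : ℂ → M} (w : ℂ → ℝ) {x : M}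
    (h : ∀ z ∈ Metric.ball zB rB, pr z ≠ x) : tr pr w x = 0 := by
  unfold tr
  rw [dif_neg]
  rintro ⟨z, hz, hzx⟩
  exact h z hz hzx

/-- the function vanishes off the image of the small disc -/
theorem tr_off2 {M : Type} {pr : ℂ → M} {w : ℂ → ℝ} (hw : Bm w) {x : M}
    (h : x ∉ pr '' Metric.closedBall zB (rB / 2)) : tr pr w x = 0 := by
  by_cases hex : ∃ y, y ∈ Metric.ball zB rB ∧ pr y = x
  · unfold tr
    rw [dif_pos hex]
    apply hw.sup
    by_contra hlt
    push Not at hlt
    apply h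
    refine ⟨hex.choose, ?_, hex.choose_spec.2⟩
    rw [Metric.mem_closedBall, dist_eq_norm]
    exact hlt.le
  · unfold tr
    rw [dif_neg hex]

/-- equivalent points have the same image -/
theorem pr_ac {M : Type} [TopologicalSpace M] {pr : ℂ → M} (hpr : PrM Om ac pr) {z : ℂ}
    (hz : z ∈ Om) (γ : Gq) : pr (ac γ z) = pr z :=
  ((hpr.rel z hz _ (tAc.1 γ z hz).1).2 ⟨γ, rfl⟩).symm

/-- if no equivalent point is in the disc, then the function vanishes at the point -/
theorem tr_no {M : Type} [TopologicalSpace M] {pr : ℂ → M} (hpr : PrM Om ac pr) (w : ℂ → ℝ)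
    {z : ℂ} (hz : z ∈ Om) (h : ∀ γ, ac γ z ∉ Metric.ball zB rB) : tr pr w (pr z) = 0 := by
  apply tr_off
  intro y hy hyz
  obtain ⟨γ, hγ⟩ := (hpr.rel z hz y (stp_om (ball_stp hy))).1 hyz.symm
  exact h γ (hγ ▸ hy)

/-- smoothness -/
theorem tr_smooth {M : Type} [MetricSpace M] {pr : ℂ → M} (hpr : PrM Om ac pr) {w : ℂ → ℝ}
    (hw : Bm w) : ContDiffOn ℝ ∞ (fun z => tr pr w (pr z)) Om := by
  intro z hz
  apply ContDiffAt.contDiffWithinAt
  have hOm : Om ∈ 𝓝 z := isOpen_Om.mem_nhds hz
  by_cases h : ∃ γ : Gq, ac γ z ∈ Metric.ball zB rB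
  · obtain ⟨γ, hγ⟩ := h
    have hac : ContDiffAt ℝ ∞ (ac γ) z :=
      (Pool.Agent.Y794.EX.cont_ac tAc γ).contDiffAt hOm
    have hcomp : ContDiffAt ℝ ∞ (fun y => w (ac γ y)) z := hw.sm.contDiffAt.comp z hac
    refine hcomp.congr_of_eventuallyEq ?_
    have h1 : ∀ᶠ y in 𝓝 z, ac γ y ∈ Metric.ball zB rB :=
      hac.continuousAt.eventually_mem (Metric.isOpen_ball.mem_nhds hγ)
    filter_upwards [h1, hOm] with y hy1 hy2
    rw [← pr_ac hpr hy2 γ]
    exact tr_ball hpr w hy1
  · push Not at h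
    have hK : IsClosed (pr '' Metric.closedBall zB (rB / 2)) := by
      apply IsCompact.isClosed
      apply (isCompact_closedBall _ _).image_of_continuousOn
      refine hpr.cont.mono (fun y hy => stp_om (ball_stp ?_))
      exact Metric.closedBall_subset_ball (by linarith [rB_pos]) hy
    have hzK : pr z ∉ pr '' Metric.closedBall zB (rB / 2) := by
      rintro ⟨y, hy, hyz⟩
      have hyB : y ∈ Metric.ball zB rB :=
        Metric.closedBall_subset_ball (by linarith [rB_pos]) hy
      obtain ⟨γ, hγ⟩ := (hpr.rel z hz y (stp_om (ball_stp hyB))).1 hyz.symm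
      exact h γ (hγ ▸ hyB)
    have hc : ContinuousAt pr z := hpr.cont.continuousAt hOm
    have h1 : ∀ᶠ y in 𝓝 z, pr y ∉ pr '' Metric.closedBall zB (rB / 2) :=
      hc.eventually_mem (hK.isOpen_compl.mem_nhds hzK)
    refine (contDiffAt_const (c := (0 : ℝ))).congr_of_eventuallyEq ?_
    filter_upwards [h1] with y hy
    exact tr_off2 hw hy

/-- `IX-8`: transplantation -/
theorem stTr : StTr := by
  intro M _ _ pr hpr
  refine ⟨ball_stp, injB hpr, fun w hw => ⟨fun z hz => tr_ball hpr w hz, tr_smooth hpr hw, ?_,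
    fun z hz h => tr_no hpr w hz h, ?_, ?_⟩⟩
  · intro z hz
    apply tr_off
    intro y hy hyz
    have hz' : z ∈ Stp L0 (3 / 2 * L0) := by
      have h3 := L0p
      exact ⟨by linarith [hz.1], by linarith [hz.2]⟩
    obtain ⟨n, hn⟩ := col hpr hz' (ball_stp hy) hyz.symm
    have h1 := col_re hn
    have h2 := (ball_re hy).1
    have h3 := hz.2
    have h4 := L0p
    linarith
  · intro K hK hwK x
    by_cases hex : ∃ y, y ∈ Metric.ball zB rB ∧ pr y = x
    · unfold tr
      rw [dif_pos hex]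
      exact hwK _
    · unfold tr
      rw [dif_neg hex, abs_zero]
      exact hK
  · intro w' c d x
    by_cases hex : ∃ y, y ∈ Metric.ball zB rB ∧ pr y = x
    · unfold tr
      rw [dif_pos hex, dif_pos hex, dif_pos hex]
    · unfold tr
      rw [dif_neg hex, dif_neg hex, dif_neg hex]
      ring

end Pool.Agent.H240.IX.A181
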