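import Pool.Graph.R_seed8.Y262.EG.Def
import Pool.Graph.R_pool_sql_team_seeded_3997aac3.Q73.NL.U

/-!
# Weak unique continuation for Schrödinger equations in the plane (`StUC`)

It follows from the strong unique continuation theorem `Pool.Agent.Q73.NL.u3` of the library.
-/

set_option autoImplicit false

open Set Filter Topology Metric
open scoped ContDiff

namespace Pool.Agent.H240.IX.A17

open Pool.Agent.Y262.EG

/-- `StUC`, unfolded -/
theorem uc (Ω : Set ℂ) (V u : ℂ → ℝ) (hΩ : IsOpen Ω) (hc : IsPreconnected Ω)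
    (hV : ContinuousOn V Ω) (hu : ContDiffOn ℝ ∞ u Ω)
    (he : ∀ z ∈ Ω, px (px u) z + py (py u) z = V z * u z)
    (h0 : ∃ O ⊆ Ω, IsOpen O ∧ O.Nonempty ∧ ∀ z ∈ O, u z = 0) : ∀ z ∈ Ω, u z = 0 := by
  obtain ⟨O, hOΩ, hO, ⟨p, hp⟩, hO0⟩ := h0
  set S : Set ℂ := {z | ∀ᶠ w in 𝓝 z, u w = 0} with hS
  have hSo : IsOpen S := by
    rw [isOpen_iff_mem_nhds]
    intro z hz
    exact eventually_eventually_nhds.2 hz
  have hpS : p ∈ S := by
    filter_upwards [hO.mem_nhds hp] with w hw using hO0 w hw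
  have hder : ∀ z ∈ S, ∀ k : ℕ, iteratedFDeriv ℝ k u z = 0 := by
    intro z hz k
    have h1 : u =ᶠ[𝓝 z] (0 : ℂ → ℝ) := hz
    have h2 := (h1.iteratedFDeriv ℝ k).eq_of_nhds
    rw [h2]
    simp
  have hcl : closure S ∩ Ω ⊆ S := by
    rintro z ⟨hz, hzΩ⟩
    have huz : ContDiffAt ℝ ∞ u z := hu.contDiffAt (hΩ.mem_nhds hzΩ)
    have hk : ∀ k : ℕ, iteratedFDeriv ℝ k u z = 0 := by
      intro k
      by_contra hne
      have h1 : ContinuousOn (iteratedFDeriv ℝ k u) Ω := by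
        have h2 : ContinuousOn (iteratedFDerivWithin ℝ k u Ω) Ω :=
          hu.continuousOn_iteratedFDerivWithin (by exact_mod_cast le_top) hΩ.uniqueDiffOn
        exact h2.congr fun w hw => (iteratedFDerivWithin_of_isOpen k hΩ hw).symm
      have h3 : ∀ᶠ w in 𝓝 z, iteratedFDeriv ℝ k u w ≠ 0 :=
        (h1.continuousAt (hΩ.mem_nhds hzΩ)).eventually_ne hne
      obtain ⟨w, hw, hwS⟩ := (mem_closure_iff_frequently.1 hz).and_eventually h3 |>.exists
      exact hwS (hder w hw k)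
    have hVz : ContinuousAt V z := hV.continuousAt (hΩ.mem_nhds hzΩ)
    have h4 : ∀ᶠ w in 𝓝 z, |V w| ≤ |V z| + 1 := by
      filter_upwards [hVz.abs.eventually (gt_mem_nhds (lt_add_one |V z|))] with w hw using hw.le
    obtain ⟨r, hr, hball⟩ := Metric.eventually_nhds_iff_ball.1 (h4.and (hΩ.mem_nhds hzΩ))
    exact Pool.Agent.Q73.NL.u3 (ball z r) (|V z| + 1) u isOpen_ball
      (hu.mono fun w hw => (hball w hw).2) (fun w hw => by
        have h5 : Pool.Agent.Q73.NL.lap u w = V w * u w := he w (hball w hw).2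
        rw [h5, abs_mul]
        exact mul_le_mul_of_nonneg_right (hball w hw).1 (abs_nonneg _)) z (mem_ball_self hr) hk
  intro z hz
  have h6 := hc.subset_of_closure_inter_subset hSo ⟨p, hOΩ hp, hpS⟩ hcl hz
  exact h6.self_of_nhds

end Pool.Agent.H240.IX.A17
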