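import Pool.Agent.H240.IX.DefG
import Pool.Graph.R_seed8.Y361.EL.Wk
import Pool.Graph.R_seed8.Y262.EL.All
import Pool.Agent.H240.SG.Prof

/-!
# `IX-12`: products of two eigenfunctions do not vanish on the disc
-/

set_option autoImplicit false
set_option linter.unusedSectionVars false

open Set Filter Topology MeasureTheory
open scoped ContDiff ComplexConjugate Real ENNReal NNReal

noncomputable section

namespace Pool.Agent.H240.IX.A643

open Pool.Agent.Y262.EG Pool.Agent.Y262.EX Pool.Agent.Y262.EL Pool.Agent.Y262.QE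
open Pool.Agent.Y264.QR Pool.Agent.H240.SC Pool.Agent.H240.SG Pool.Agent.H240.CG
open Pool.Agent.Y361.EL.Wk Pool.Agent.H240.IX

theorem rBpos : 0 < rB := by
  unfold rB
  have := Pool.Agent.H240.SG.L0p
  exact lt_min (by linarith) one_pos

theorem OmPre : IsPreconnected Om := by
  have : Om = {z : ℂ | -(7 / 2 * L0) < z.re} ∩ {z : ℂ | z.re < 9 / 2 * L0} := by
    ext z; simp [Om]
  rw [this]
  exact ((convex_halfSpace_re_gt _).inter (convex_halfSpace_re_lt _)).isPreconnected

/-- a function on the surface whose lift is continuous is continuous -/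
theorem contOf {M : Type} [TopologicalSpace M] {Ω : Set ℂ} {pr : ℂ → M}
    (hO : IsOpen Ω) (opn : ∀ O : Set ℂ, IsOpen O → O ⊆ Ω → IsOpen (pr '' O))
    (hs : pr '' Ω = univ) {f : M → ℝ} (hf : ContinuousOn (fun z => f (pr z)) Ω) :
    Continuous f := by
  rw [continuous_def]
  intro s hs'
  have h1 : f ⁻¹' s = pr '' (Ω ∩ (fun z => f (pr z)) ⁻¹' s) := by
    ext x
    constructor
    · intro hx
      obtain ⟨z, hz, rfl⟩ : x ∈ pr '' Ω := by rw [hs]; trivial
      exact ⟨z, ⟨hz, hx⟩, rfl⟩
    · rintro ⟨z, ⟨-, hz⟩, rfl⟩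
      exact hz
  rw [h1]
  exact opn _ (hf.isOpen_inter_preimage hO hs') inter_subset_left

theorem ballOm (h : Metric.ball zB rB ⊆ Stp L0 (3 / 2 * L0)) : Metric.ball zB rB ⊆ Om := by
  intro z hz
  have h1 := h hz
  have := Pool.Agent.H240.SG.L0p
  simp only [Stp, mem_ofPred_eq] at h1
  simp only [Om, mem_ofPred_eq]
  constructor <;> linarith [h1.1, h1.2]

theorem ef_zero {M : Type} {pr : ℂ → M} {φ : ℂ → ℝ} {E : ℝ} {U : M → ℝ}
    (h2 : Pool.Agent.H240.IX.StUC) (hO : IsOpen Om) (hφ : ContDiffOn ℝ ∞ φ Om)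
    (hs : pr '' Om = univ) (hU : IsEf Om φ pr E U)
    (hz : ∃ O ⊆ Om, IsOpen O ∧ O.Nonempty ∧ ∀ z ∈ O, U (pr z) = 0) : ∀ x, U x = 0 := by
  have h3 := h2 Om (fun z => -(E * Real.exp (2 * φ z))) (fun z => U (pr z)) hO OmPre
    ((continuousOn_const.mul (Real.continuous_exp.comp_continuousOn
      (continuousOn_const.mul hφ.continuousOn))).neg)
    hU.1 ?_ hz
  · intro x
    obtain ⟨z, hz, rfl⟩ : x ∈ pr '' Om := by rw [hs]; trivial
    exact h3 z hz
  · intro z hz
    have h4 := hU.2 z hz
    have h7 : Real.exp (-2 * φ z) * Real.exp (2 * φ z) = 1 := by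
      rw [← Real.exp_add]; simp
    set A := px (px fun z => U (pr z)) z + py (py fun z => U (pr z)) z with hA
    have h5 : A = -(E * Real.exp (2 * φ z)) * U (pr z) := by
      have h6 : A = (Real.exp (-2 * φ z) * Real.exp (2 * φ z)) * A := by rw [h7, one_mul]
      have h8 : (Real.exp (-2 * φ z) * Real.exp (2 * φ z)) * A =
          -(-(Real.exp (-2 * φ z) * A)) * Real.exp (2 * φ z) := by ring
      rw [h6, h8, h4]
      ring
    exact h5

theorem stUS (h1 : StTr) (h2 : Pool.Agent.H240.IX.StUC) : StUS := by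
  intro M P _ _ _ _ _ _ pr q φ ν hpr hUT hA U V E hU hV hU0 hV0
  by_contra hcon
  push Not at hcon
  obtain ⟨hB, hinj, hw⟩ := h1 M pr hpr
  have hBΩ : Metric.ball zB rB ⊆ Om := ballOm hB
  have hφ : ContinuousOn φ Om := hUT.smooth.continuousOn
  have hUc : Continuous U := contOf hUT.opn hpr.opn hpr.surj hU.1.continuousOn
  have hVc : Continuous V := contOf hUT.opn hpr.opn hpr.surj hV.1.continuousOn
  have hBo : IsOpen (Metric.ball zB rB) := Metric.isOpen_ball
  have hBm : MeasurableSet (Metric.ball zB rB) := hBo.measurableSet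
  have hr := rBpos
  classical
  have hp : Measurable ((Metric.ball zB rB).piecewise pr (fun _ => pr 0)) :=
    ContinuousOn.measurable_piecewise (hUT.contp.mono hBΩ) continuousOn_const hBm
  have hψ : Measurable ((Metric.ball zB rB).piecewise φ (fun _ => 0)) :=
    ContinuousOn.measurable_piecewise (hφ.mono hBΩ) continuousOn_const hBm
  have hpB : ∀ z ∈ Metric.ball zB rB, (Metric.ball zB rB).piecewise pr (fun _ => pr 0) z = pr z :=
    fun z hz => piecewise_eq_of_mem _ _ _ hz
  have hψB : ∀ z ∈ Metric.ball zB rB, (Metric.ball zB rB).piecewise φ (fun _ => 0) z = φ z :=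
    fun z hz => piecewise_eq_of_mem _ _ _ hz
  obtain ⟨cv, -, -, -⟩ := tCVM M P Om φ pr q ν hUT hA
  obtain ⟨-, hlin, -⟩ := cv _ hBm hBΩ hinj
  have hmp := mpres hBm hlin hp hpB hψB
  have IF := int_formula hBm hψ hpB hψB hmp
  -- the product
  set F : ℂ → ℝ := fun z => (U (pr z) * V (pr z)) * Real.exp (2 * φ z) with hF
  have hFc : ContinuousOn F Om :=
    (hU.1.continuousOn.mul hV.1.continuousOn).mul (Real.continuous_exp.comp_continuousOn
      (continuousOn_const.mul hφ))
  set B' := Metric.ball zB (rB / 2) with hB'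
  have hB'B : B' ⊆ Metric.ball zB rB := Metric.ball_subset_ball (by linarith)
  have hB'o : IsOpen B' := Metric.isOpen_ball
  have hae : ∀ᵐ z, z ∈ B' → F z = 0 := by
    refine hB'o.ae_eq_zero_of_integral_contDiff_smul_eq_zero
      ((hFc.mono (hB'B.trans hBΩ)).locallyIntegrableOn hB'o.measurableSet) ?_
    intro g hg _ hgs
    have hbm : Bm g := by
      refine ⟨hg, fun z hz => ?_⟩
      refine image_eq_zero_of_notMem_tsupport fun h => ?_
      have := hgs h
      rw [hB', Metric.mem_ball, dist_eq_norm] at this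
      linarith
    obtain ⟨w1, w2, -, -, -, -⟩ := hw g hbm
    have hwc : Continuous (tr pr g) := contOf hUT.opn hpr.opn hpr.surj w2.continuousOn
    have h0 := hcon g hbm
    have e0 : ∀ x, x ∉ pr '' (Metric.ball zB rB) → tr pr g x * (U x * V x) = 0 := by
      intro x hx
      have : tr pr g x = 0 := by
        unfold tr
        rw [dif_neg]
        rintro ⟨z, hz, rfl⟩
        exact hx ⟨z, hz, rfl⟩
      rw [this, zero_mul]
    rw [← setIntegral_eq_integral_of_forall_compl_eq_zero e0,
      IF (fun x => tr pr g x * (U x * V x)) (hwc.mul (hUc.mul hVc)).aestronglyMeasurable] at h0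
    rw [← h0, ← setIntegral_eq_integral_of_forall_compl_eq_zero (s := Metric.ball zB rB)
      (f := fun z => g z • F z)]
    · apply setIntegral_congr_fun hBm
      intro z hz
      simp only [hF, smul_eq_mul]
      rw [w1 z hz]
      ring
    · intro z hz
      have : g z = 0 := image_eq_zero_of_notMem_tsupport fun h => hz (hB'B (hgs h))
      simp [this]
  have hF0 : EqOn F (fun _ => 0) B' := by
    refine Measure.eqOn_open_of_ae_eq (μ := volume) ?_ hB'o (hFc.mono (hB'B.trans hBΩ))
      continuousOn_const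
    rw [Filter.EventuallyEq, ae_restrict_iff' hB'o.measurableSet]
    exact hae
  have hprod : ∀ z ∈ B', U (pr z) * V (pr z) = 0 := by
    intro z hz
    have h := hF0 hz
    simp only [hF] at h
    rcases mul_eq_zero.1 h with h | h
    · exact h
    · exact absurd h (Real.exp_pos _).ne'
  by_cases hU1 : ∀ z ∈ B', U (pr z) = 0
  · obtain ⟨x, hx⟩ := hU0
    exact hx (ef_zero h2 hUT.opn hUT.smooth hpr.surj hU
      ⟨B', hB'B.trans hBΩ, hB'o, ⟨zB, Metric.mem_ball_self (by linarith)⟩, hU1⟩ x)
  · push Not at hU1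
    obtain ⟨z0, hz0, hne⟩ := hU1
    obtain ⟨x, hx⟩ := hV0
    refine hx (ef_zero h2 hUT.opn hUT.smooth hpr.surj hV
      ⟨B' ∩ (fun z => U (pr z)) ⁻¹' {0}ᶜ, inter_subset_left.trans (hB'B.trans hBΩ), ?_,
        ⟨z0, hz0, hne⟩, ?_⟩ x)
    · exact (hU.1.continuousOn.mono (hB'B.trans hBΩ)).isOpen_inter_preimage hB'o
        isOpen_compl_singleton
    · rintro z ⟨hz, hz'⟩
      exact (mul_eq_zero.1 (hprod z hz)).resolve_left hz'

end Pool.Agent.H240.IX.A643
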