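import Pool.Agent.H240.IX.Kb
import Pool.Agent.H240.IX.CU
import Pool.Agent.H240.IX.Iv
import Pool.Agent.H240.IX.Ext
import Pool.Agent.H240.IX.Cnn
import Pool.Agent.H240.IX.Drop
import Pool.Agent.H240.IX.Extr
import Pool.Agent.H240.IX.UC
import Pool.Agent.H240.IX.Tr
import Pool.Agent.H240.IX.US
import Pool.Agent.H240.IX.Rad
import Pool.Agent.H240.IX.Fd
import Pool.Agent.H240.IX.Cls4
import Pool.Agent.H240.IX.OfS
import Pool.Agent.H240.IX.Crv
import Pool.Agent.H240.IX.Dec
import Pool.Agent.H240.IX.SepM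
import Pool.Agent.H240.IX.Clu

/-!
# Intervals of quantum limits: all statements
-/

set_option autoImplicit false

namespace Pool.Agent.H240.IX

theorem all : All := by
  have h1 := A34.stKb
  have h2 := A627.stCU
  have h3 := A551.stIv h1
  have h4 := A181.stTr
  exact ⟨h1, h2, A881.stExt h1 h2, A665.stCon h1 h2 h3, A388.stDrop h1, A685.stExtr h1, h4,
    A357.stRad, A643.stUS h4 A17.uc, A962F.stFd, A79.stOfS, A962.stCls4, A227.stCrv, A97.stDec,
    A225.stSepM⟩

end Pool.Agent.H240.IX
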