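import Pool.Agent.H240.NX.Stab
import Pool.Graph.R_seed8.Y262.EG.Def

/-!
# Intervals of quantum limits: the abstract part, statements

`H` is the form domain, `a` the Dirichlet form, `b φ` the `L²` form of the metric `exp φ · g`,
`Ev a (b φ) j` the eigenvalue number `j` of the metric `exp φ · g`.
-/

set_option autoImplicit false

open Set Filter Topology MeasureTheory
open scoped Real ContDiff

noncomputable section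

namespace Pool.Agent.H240.IX

open Pool.Agent.Y262.QE Pool.Agent.Y264.QR Pool.Agent.H240.NX Pool.Agent.Y262.EG

/-- the form of the function `f` for the metric `exp φ · g` -/
def kb {M : Type} [TopologicalSpace M] [MeasurableSpace M] (μ : Measure M) {H : Type}
    [NormedAddCommGroup H] [InnerProductSpace ℝ H] (i : H →L[ℝ] Lp ℝ 2 μ) (f φ : C(M, ℝ))
    (u v : H) : ℝ :=
  ∫ x, f x * (Real.exp (φ x) * (i u x * i v x)) ∂μ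

/-- eigenvectors -/
def Ws {H : Type} [NormedAddCommGroup H] [InnerProductSpace ℝ H] (a b : H →L[ℝ] H →L[ℝ] ℝ)
    (E : ℝ) (w : H) : Prop :=
  ∀ v, a w v = E * b w v

/-- unit eigenvectors -/
structure Uv {H : Type} [NormedAddCommGroup H] [InnerProductSpace ℝ H] (a b : H →L[ℝ] H →L[ℝ] ℝ)
    (E : ℝ) (w : H) : Prop where
  one : b w w = 1
  eig : ∀ v, a w v = E * b w v

/-- the abstract setting -/
structure Stt {M : Type} [TopologicalSpace M] [CompactSpace M] [MeasurableSpace M] (μ : Measure M)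
    {H : Type} [NormedAddCommGroup H] [InnerProductSpace ℝ H] (i : H →L[ℝ] Lp ℝ 2 μ)
    (a : H →L[ℝ] H →L[ℝ] ℝ) (b : C(M, ℝ) → H →L[ℝ] H →L[ℝ] ℝ) : Prop where
  sf : Sf μ i a
  isb : IsB μ i b
  fm : ∀ φ, Fm a (b φ)
  exp : ∀ (φ ψ : C(M, ℝ)) (v : H), b φ v v ≤ Real.exp ‖φ - ψ‖ * b ψ v v

/-- `IX-1`: the forms -/
def StKb : Prop :=
  ∀ (M : Type) [MetricSpace M] [CompactSpace M] [MeasurableSpace M] [BorelSpace M] (μ : Measure M)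
    [IsFiniteMeasure μ] (H : Type) [NormedAddCommGroup H] [InnerProductSpace ℝ H] [CompleteSpace H]
    (i : H →L[ℝ] Lp ℝ 2 μ) (a : H →L[ℝ] H →L[ℝ] ℝ) (b : C(M, ℝ) → H →L[ℝ] H →L[ℝ] ℝ),
    Stt μ i a b →
    -- bilinear and symmetric
    (∀ f φ u v, kb μ i f φ u v = kb μ i f φ v u) ∧
    (∀ f φ u u' v, kb μ i f φ (u + u') v = kb μ i f φ u v + kb μ i f φ u' v) ∧
    (∀ f φ (c : ℝ) u v, kb μ i f φ (c • u) v = c * kb μ i f φ u v) ∧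
    (∀ f g φ (c d : ℝ) u v, kb μ i (c • f + d • g) φ u v =
      c * kb μ i f φ u v + d * kb μ i g φ u v) ∧
    (∀ f φ v, kb μ i f φ v v = kap μ i f φ v) ∧
    (∀ φ u v, b φ u v = kb μ i 1 φ u v) ∧
    -- continuity
    (∀ (f : ℕ → C(M, ℝ)) (f0 : C(M, ℝ)) (φ : ℕ → C(M, ℝ)) (φ0 : C(M, ℝ)) (u v : ℕ → H) (u0 v0 : H),
      Tendsto f atTop (𝓝 f0) → Tendsto φ atTop (𝓝 φ0) → Tendsto u atTop (𝓝 u0) →
      Tendsto v atTop (𝓝 v0) →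
      Tendsto (fun n => kb μ i (f n) (φ n) (u n) (v n)) atTop (𝓝 (kb μ i f0 φ0 u0 v0))) ∧
    -- the difference quotient
    ∀ (φ0 : C(M, ℝ)) (ψ : ℕ → C(M, ℝ)) (ψ0 : C(M, ℝ)) (ρ : ℕ → ℝ) (u v : ℕ → H) (u0 v0 : H),
      Tendsto ψ atTop (𝓝 ψ0) → Tendsto ρ atTop (𝓝 0) → (∀ n, ρ n ≠ 0) → Tendsto u atTop (𝓝 u0) →
      Tendsto v atTop (𝓝 v0) →
      Tendsto (fun n => (b (φ0 + ρ n • ψ n) (u n) (v n) - b φ0 (u n) (v n)) / ρ n) atTop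
        (𝓝 (kb μ i ψ0 φ0 u0 v0))

/-- `IX-2`: compactness of the unit eigenvectors -/
def StCU : Prop :=
  ∀ (M : Type) [MetricSpace M] [CompactSpace M] [MeasurableSpace M] [BorelSpace M] (μ : Measure M)
    [IsFiniteMeasure μ] (H : Type) [NormedAddCommGroup H] [InnerProductSpace ℝ H] [CompleteSpace H]
    (i : H →L[ℝ] Lp ℝ 2 μ) (a : H →L[ℝ] H →L[ℝ] ℝ) (b : C(M, ℝ) → H →L[ℝ] H →L[ℝ] ℝ),
    Stt μ i a b →
    ∀ (φ : ℕ → C(M, ℝ)) (φ0 : C(M, ℝ)), Tendsto φ atTop (𝓝 φ0) → ∀ (j : ℕ) (w : ℕ → H),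
    (∀ n, Uv a (b (φ n)) (Ev a (b (φ n)) j) (w n)) →
    ∃ (θ : ℕ → ℕ) (w0 : H), StrictMono θ ∧ Uv a (b φ0) (Ev a (b φ0) j) w0 ∧
      Tendsto (fun n => w (θ n)) atTop (𝓝 w0)

/-- `IX-3`: intermediate values in an eigenspace -/
def StIv : Prop :=
  ∀ (M : Type) [MetricSpace M] [CompactSpace M] [MeasurableSpace M] [BorelSpace M] (μ : Measure M)
    [IsFiniteMeasure μ] (H : Type) [NormedAddCommGroup H] [InnerProductSpace ℝ H] [CompleteSpace H]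
    (i : H →L[ℝ] Lp ℝ 2 μ) (a : H →L[ℝ] H →L[ℝ] ℝ) (b : C(M, ℝ) → H →L[ℝ] H →L[ℝ] ℝ),
    Stt μ i a b → ∀ (f φ : C(M, ℝ)) (E t : ℝ) (w w' : H), Uv a (b φ) E w → Uv a (b φ) E w' →
    kb μ i f φ w w < t → t < kb μ i f φ w' w' → ∃ w'', Uv a (b φ) E w'' ∧ kb μ i f φ w'' w'' = t

/-- `IX-4`: the extremal eigenvectors -/
def StExt : Prop :=
  ∀ (M : Type) [MetricSpace M] [CompactSpace M] [MeasurableSpace M] [BorelSpace M] (μ : Measure M)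
    [IsFiniteMeasure μ] (H : Type) [NormedAddCommGroup H] [InnerProductSpace ℝ H] [CompleteSpace H]
    (i : H →L[ℝ] Lp ℝ 2 μ) (a : H →L[ℝ] H →L[ℝ] ℝ) (b : C(M, ℝ) → H →L[ℝ] H →L[ℝ] ℝ),
    Stt μ i a b → ∀ (f φ : C(M, ℝ)) (j : ℕ), ∃ u1 u2 : H,
    Uv a (b φ) (Ev a (b φ) j) u1 ∧ Uv a (b φ) (Ev a (b φ) j) u2 ∧
    (∀ w, Uv a (b φ) (Ev a (b φ) j) w →
      kb μ i f φ u2 u2 ≤ kb μ i f φ w w ∧ kb μ i f φ w w ≤ kb μ i f φ u1 u1) ∧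
    (kb μ i f φ u2 u2 < kb μ i f φ u1 u1 → b φ u1 u2 = 0 ∧ kb μ i f φ u1 u2 = 0)

/-- `IX-5`: connectedness along a path of metrics -/
def StCon : Prop :=
  ∀ (M : Type) [MetricSpace M] [CompactSpace M] [MeasurableSpace M] [BorelSpace M] (μ : Measure M)
    [IsFiniteMeasure μ] (H : Type) [NormedAddCommGroup H] [InnerProductSpace ℝ H] [CompleteSpace H]
    (i : H →L[ℝ] Lp ℝ 2 μ) (a : H →L[ℝ] H →L[ℝ] ℝ) (b : C(M, ℝ) → H →L[ℝ] H →L[ℝ] ℝ),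
    Stt μ i a b → ∀ (c : ℝ → C(M, ℝ)) (s1 s2 : ℝ), s1 ≤ s2 → ContinuousOn c (Icc s1 s2) →
    ∀ (f : C(M, ℝ)) (j : ℕ) (t : ℝ) (w1 w2 : H),
    Uv a (b (c s1)) (Ev a (b (c s1)) j) w1 → Uv a (b (c s2)) (Ev a (b (c s2)) j) w2 →
    ((kb μ i f (c s1) w1 w1 < t ∧ t < kb μ i f (c s2) w2 w2) ∨
      (kb μ i f (c s2) w2 w2 < t ∧ t < kb μ i f (c s1) w1 w1)) →
    ∃ s ∈ Icc s1 s2, ∃ w, Uv a (b (c s)) (Ev a (b (c s)) j) w ∧ kb μ i f (c s) w w = t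

/-- `IX-6`: a perturbation whose form is not scalar on the eigenspace splits the eigenvalue -/
def StDrop : Prop :=
  ∀ (M : Type) [MetricSpace M] [CompactSpace M] [MeasurableSpace M] [BorelSpace M] (μ : Measure M)
    [IsFiniteMeasure μ] (H : Type) [NormedAddCommGroup H] [InnerProductSpace ℝ H] [CompleteSpace H]
    (i : H →L[ℝ] Lp ℝ 2 μ) (a : H →L[ℝ] H →L[ℝ] ℝ) (b : C(M, ℝ) → H →L[ℝ] H →L[ℝ] ℝ),
    Stt μ i a b → ∀ (φ : C(M, ℝ)) (m : ℕ), (∀ k, k < m → Ev a (b φ) k < Ev a (b φ) m) →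
    0 < Ev a (b φ) m → ∀ (ψ : ℕ → C(M, ℝ)) (ψ0 : C(M, ℝ)) (ρ : ℕ → ℝ),
    Tendsto ψ atTop (𝓝 ψ0) → Tendsto ρ atTop (𝓝 0) → (∀ n, ρ n ≠ 0) →
    (¬ ∃ β : ℝ, ∀ u v, Ws a (b φ) (Ev a (b φ) m) u → Ws a (b φ) (Ev a (b φ) m) v →
      kb μ i ψ0 φ u v = β * b φ u v) →
    ∀ᶠ n in atTop, {k | Ev a (b (φ + ρ n • ψ n)) k = Ev a (b (φ + ρ n • ψ n)) m}.ncard <
      {k | Ev a (b φ) k = Ev a (b φ) m}.ncard

/-- `IX-7`: the eigenvectors for the lowest index of the cluster of the perturbed problem maximize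
the form of the perturbation -/
def StExtr : Prop :=
  ∀ (M : Type) [MetricSpace M] [CompactSpace M] [MeasurableSpace M] [BorelSpace M] (μ : Measure M)
    [IsFiniteMeasure μ] (H : Type) [NormedAddCommGroup H] [InnerProductSpace ℝ H] [CompleteSpace H]
    (i : H →L[ℝ] Lp ℝ 2 μ) (a : H →L[ℝ] H →L[ℝ] ℝ) (b : C(M, ℝ) → H →L[ℝ] H →L[ℝ] ℝ),
    Stt μ i a b → ∀ (φ : C(M, ℝ)) (m : ℕ), (∀ k, k < m → Ev a (b φ) k < Ev a (b φ) m) →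
    0 < Ev a (b φ) m → ∀ (ψ : C(M, ℝ)) (ρ : ℕ → ℝ), Tendsto ρ atTop (𝓝 0) → (∀ n, 0 < ρ n) →
    ∀ (w : ℕ → H) (w0 : H),
    (∀ n, Uv a (b (φ + ρ n • ψ)) (Ev a (b (φ + ρ n • ψ)) m) (w n)) → Tendsto w atTop (𝓝 w0) →
    Uv a (b φ) (Ev a (b φ) m) w0 ∧ ∀ u, Uv a (b φ) (Ev a (b φ) m) u →
      kb μ i ψ φ u u ≤ kb μ i ψ φ w0 w0

/-- `IX-U`: weak unique continuation for Schrödinger equations in the plane -/
def StUC : Prop :=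
  ∀ (Ω : Set ℂ) (V u : ℂ → ℝ), IsOpen Ω → IsPreconnected Ω → ContinuousOn V Ω →
    ContDiffOn ℝ ∞ u Ω → (∀ z ∈ Ω, px (px u) z + py (py u) z = V z * u z) →
    (∃ O ⊆ Ω, IsOpen O ∧ O.Nonempty ∧ ∀ z ∈ O, u z = 0) → ∀ z ∈ Ω, u z = 0

end Pool.Agent.H240.IX
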