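import Pool.Agent.H240.IX.Def
import Pool.Agent.H240.CG.Seq

/-!
# Intervals of quantum limits: the geometric part, statements
-/

set_option autoImplicit false
set_option linter.unusedSectionVars false

open Set Filter Topology MeasureTheory
open scoped ContDiff ComplexConjugate Real

noncomputable section

namespace Pool.Agent.H240.IX

open Pool.Agent.Y262.EG Pool.Agent.Y262.EX Pool.Agent.Y262.EL Pool.Agent.Y262.QE
open Pool.Agent.Y264.QR Pool.Agent.H240.SC Pool.Agent.H240.SG Pool.Agent.H240.CG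

/-- the centre of a disc outside of the collar -/
def zB : ℂ := ((2 * L0 : ℝ) : ℂ)

/-- its radius -/
def rB : ℝ := min (L0 / 8) 1

/-- smooth functions supported in the closed disc of half the radius -/
structure Bm (w : ℂ → ℝ) : Prop where
  sm : ContDiff ℝ ∞ w
  sup : ∀ z, rB / 2 ≤ ‖z - zB‖ → w z = 0

/-- transplantation of a function on the disc to the surface -/
def tr {M : Type} (pr : ℂ → M) (w : ℂ → ℝ) (x : M) : ℝ :=
  open Classical in if h : ∃ z, z ∈ Metric.ball zB rB ∧ pr z = x then w h.choose else 0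

/-- `IX-8`: transplantation -/
def StTr : Prop :=
  ∀ (M : Type) [MetricSpace M] [CompactSpace M] (pr : ℂ → M), PrM Om ac pr →
    Metric.ball zB rB ⊆ Stp L0 (3 / 2 * L0) ∧ InjOn pr (Metric.ball zB rB) ∧
    ∀ w : ℂ → ℝ, Bm w →
    (∀ z ∈ Metric.ball zB rB, tr pr w (pr z) = w z) ∧
    ContDiffOn ℝ ∞ (fun z => tr pr w (pr z)) Om ∧
    (∀ z ∈ Stp L0 (3 / 4 * L0), tr pr w (pr z) = 0) ∧
    (∀ z ∈ Om, (∀ γ, ac γ z ∉ Metric.ball zB rB) → tr pr w (pr z) = 0) ∧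
    (∀ K : ℝ, 0 ≤ K → (∀ z, |w z| ≤ K) → ∀ x, |tr pr w x| ≤ K) ∧
    ∀ (w' : ℂ → ℝ) (c d : ℝ) (x : M),
      tr pr (fun z => c * w z + d * w' z) x = c * tr pr w x + d * tr pr w' x

/-- `IX-9`: sums of functions supported in the disc -/
def StTrS : Prop :=
  ∀ (v : ℕ → ℂ → ℝ) (ρ : ℕ → ℝ), Summable ρ → (∀ n, Bm (v n)) →
    (∀ n, ∀ j ≤ n + 3, ∀ z, ‖iteratedFDeriv ℝ j (v n) z‖ ≤ ρ n) →
    Bm (fun z => ∑' n, v n z) ∧ (∀ z, |∑' n, v n z| ≤ ∑' n, ρ n) ∧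
    ∀ z, |px (px fun z => ∑' n, v n z) z + py (py fun z => ∑' n, v n z) z| ≤ 2 * ∑' n, ρ n

/-- `IX-10`: the surface belongs to the class with ergodic geodesic flow -/
def StClsE3 : Prop :=
  ∀ (G : ℝ → ℝ) (c C : ℝ), Prof2 G c C → ∀ w : ℂ → ℝ, Bm w → (∀ z, |w z| ≤ 1) →
    (∀ z, |px (px w) z + py (py w) z| ≤ lam ^ 2 / 2) →
    ∀ (M P : Type) [MetricSpace M] [CompactSpace M] [MetricSpace P] [CompactSpace P] (pr : ℂ → M)
      (q : Y → P), PrM Om ac pr → IsUT Om (fun z => phi G c z + tr pr w (pr z)) pr q →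
    ∃ κ' C' : ℝ, Cls2 Om (fun z => phi G c z + tr pr w (pr z)) pr L0 (1 / 2 * L0) (3 / 4 * L0) κ' C'
      (L0 / 2) G

/-- functions of the coordinate of the collar: zero near the centre, constant far from it -/
structure Rd (P : ℝ → ℝ) (e α : ℝ) : Prop where
  αp : 0 < α
  sm : ContDiff ℝ ∞ P
  near : ∀ x, |x - L0 / 2| ≤ α → P x = 0
  far : ∀ x, 9 / 10 * L0 ≤ |x - L0 / 2| → P x = e

/-- `IX-11`: perturbations of a profile away from its flat part -/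
def StRad : Prop :=
  ∀ (g X G P : ℝ → ℝ) (c1 C0 c r m C e α ρ : ℝ) (N : ℕ), Prof g c1 C0 → Cut X → PK g G c r m C →
    Rd P e α → r < α → 0 < ρ → ρ ≤ 1 / 2 → ρ < m →
    ∃ s1 : ℝ, 0 < s1 ∧ ∀ s : ℝ, |s| < s1 →
      PK g (fun x => G x + s * P x) (c + s * e) r (m - ρ) (C + ρ) ∧
      Cls' G (fun x => G x + s * P x) ρ N (fun x => s * P x) (s * e)

/-- `IX-12`: products of two eigenfunctions do not vanish on the disc -/
def StUS : Prop :=
  ∀ (M P : Type) [MetricSpace M] [CompactSpace M] [MetricSpace P] [CompactSpace P]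
    [MeasurableSpace M] [BorelSpace M] (pr : ℂ → M) (q : Y → P) (φ : ℂ → ℝ) (ν : Measure M),
    PrM Om ac pr → IsUT Om φ pr q → IsArea Om φ pr ν → ∀ (U V : M → ℝ) (E : ℝ),
    IsEf Om φ pr E U → IsEf Om φ pr E V → (∃ x, U x ≠ 0) → (∃ x, V x ≠ 0) →
    ∃ w : ℂ → ℝ, Bm w ∧ ∫ x, tr pr w x * (U x * V x) ∂ν ≠ 0

/-- `IX-13`: approximation of continuous functions of the coordinate of the collar -/
def StApp : Prop :=
  ∀ (P : ℝ → ℝ) (c : ℝ), Continuous P → (∀ x, 4 / 5 * L0 ≤ |x - L0 / 2| → P x = c) →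
    ∀ ε : ℝ, 0 < ε → ∃ (Q : ℝ → ℝ) (α : ℝ), Rd Q (c - P (L0 / 2)) α ∧
      ∀ x, |P x - P (L0 / 2) - Q x| < ε

/-- `IX-14`: a countable dense family -/
def StSep : Prop :=
  ∃ (Q : ℕ → ℝ → ℝ) (e α : ℕ → ℝ), (∀ k, Rd (Q k) (e k) (α k)) ∧
    ∀ (P : ℝ → ℝ) (e' α' : ℝ), Rd P e' α' → ∀ ε : ℝ, 0 < ε → ∃ k, (∀ x, |Q k x - P x| < ε) ∧
      |e k - e'| < ε

end Pool.Agent.H240.IX
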