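import Pool.Agent.H240.IX.AllP

/-!
# Intervals of quantum limits: the theorem
-/

set_option autoImplicit false
set_option linter.unusedSectionVars false

open Set Filter Topology MeasureTheory
open scoped ContDiff ComplexConjugate Real

noncomputable section

namespace Pool.Agent.H240.IX

open Pool.Agent.Y262.EG Pool.Agent.Y262.EX Pool.Agent.Y262.EL Pool.Agent.Y262.QE
open Pool.Agent.Y264.QR Pool.Agent.H240.SC Pool.Agent.H240.SG Pool.Agent.H240.CG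
open Pool.Agent.Y868.EX (stp_open om_open)

/-- Intervals of quantum limits on a surface with ergodic geodesic flow. -/
def ConclI : Prop :=
  ∃ (M P : Type) (_ : MetricSpace M) (_ : CompactSpace M) (_ : ConnectedSpace M)
    (_ : MeasurableSpace M) (_ : BorelSpace M) (_ : MetricSpace P) (_ : CompactSpace P)
    (_ : MeasurableSpace P) (_ : BorelSpace P) (Ω : Set ℂ) (φ : ℂ → ℝ) (pr : ℂ → M) (q : Y → P)
    (μ : Measure M) (m : Measure P) (Fl : ℝ → Y → Y) (G : ℝ → ℝ) (x0 δ δ' : ℝ),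
    0 < δ ∧ δ < δ' ∧ (∀ z : ℂ, |z.re - x0| < δ' → z ∈ Ω) ∧
    (∀ z : ℂ, |z.re - x0| < δ → φ z = G z.re) ∧
    (∀ z w : ℂ, |z.re - x0| < δ' → |w.re - x0| < δ' →
      (pr z = pr w ↔ ∃ n : ℤ, w = z + n * (2 * π * Complex.I))) ∧
    G x0 = 0 ∧ HasDerivAt G 0 x0 ∧
    IsUT Ω φ pr q ∧ IsArea Ω φ pr μ ∧ IsFiniteMeasure μ ∧ IsLiou Ω φ q m ∧ IsGeo Ω φ Fl ∧
    (∀ z : ℂ, z.re = x0 → ∀ t : ℝ, Fl t (z, π / 2) = (z + t * Complex.I, π / 2)) ∧
    (∀ z ∈ Ω, curv φ z ≤ 0) ∧ (∀ z ∈ Ω, curv φ z = 0 ↔ pr z ∈ Gm pr x0) ∧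
    Erg Ω q m Fl ∧ IsClosed (Gm pr x0) ∧ μ (Gm pr x0) = 0 ∧
    (∃ u lam, EB Ω φ pr μ u lam) ∧
    (∃ H : M → ℝ, ContDiffOn ℝ ∞ (fun z => H (pr z)) Ω ∧
      (∀ z : ℂ, |z.re - x0| < δ' → H (pr z) = (z.re - x0) ^ 2) ∧
      ∀ x, 0 ≤ H x ∧ (H x = 0 ↔ x ∈ Gm pr x0)) ∧
    ∀ u lam, EB Ω φ pr μ u lam → Tendsto lam atTop atTop ∧
      (∀ j, Integrable (fun x => (u j x) ^ 2) μ) ∧ (∀ j, ∫ x, (u j x) ^ 2 ∂μ = 1) ∧
      ∀ (F : M → ℝ) (P : ℝ → ℝ), ContDiffOn ℝ ∞ (fun z => F (pr z)) Ω →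
        (∀ z : ℂ, |z.re - x0| < δ' → F (pr z) = P z.re) →
        ∀ t ∈ uIcc (P x0) ((∫ x, F x ∂μ) / μ.real univ), ∃ θ : ℕ → ℕ, StrictMono θ ∧
          Tendsto (fun n => ∫ x, F x * (u (θ n) x) ^ 2 ∂μ) atTop (𝓝 t)

theorem finI : ConclI := by
  obtain ⟨g, c1, C0, hP⟩ := tProf
  obtain ⟨X, hX⟩ := cut_ex
  have h0 := L0p
  have hA : Act Gq Om ac := tAct
  obtain ⟨hI, hconj⟩ := tPhi2 g c1 C0 hP
  obtain ⟨M, iM, cM, pr, hpr⟩ := Pool.Agent.Y338.EX.qM Pool.Agent.Y749.EX.top Gq Om ac hA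
  obtain ⟨P, iP, cP, q, hq⟩ := Pool.Agent.Y848.EX.qP Pool.Agent.Y749.EX.top Gq Om ac hA
    (fun γ z hz => (hI.2 γ z hz).1)
  let _ : MeasurableSpace M := borel M
  have _ : BorelSpace M := ⟨rfl⟩
  let _ : MeasurableSpace P := borel P
  have _ : BorelSpace P := ⟨rfl⟩
  obtain ⟨μ0, D, Φ, σ, hB⟩ := base0_ex hP hX hpr hq
  have hneM : Nonempty M := ⟨Φ 0⟩
  have hconn : ConnectedSpace M := { toPreconnectedSpace := ⟨hpr.conn⟩, toNonempty := hneM }
  obtain ⟨G, c, C, Ψ, κ', O, F, Pf, ψF, α, hG2, hG0, hAd, hO, hΨ, hκ', hneg, hF, hdense, hwin⟩ :=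
    surf_ex all hP hX hpr hq hB
  have hGW : ProfW G (c1 + c) := hG2.profW
  have hUT0 : IsUT Om (phi G (c1 + c)) pr q := ut_prof hpr hq hGW
  obtain ⟨C0', hC0⟩ := clsE2 hG2 hpr hUT0
  have hUT : IsUT Om (fun z => phi G (c1 + c) z + Ψ (pr z)) pr q := ut_psi hpr hq hGW hΨ
  obtain ⟨C', hC⟩ := all.cls M P pr q G (c1 + c) C Ψ κ' O hO hG2 hΨ hκ' hneg hpr hUT
  obtain ⟨ν, hν, hνf, hbas, hall⟩ := dataI hP hX hpr hq hB hGW hAd hΨ
  have hIn0 : Inva Om (phi G (c1 + c)) ac := (phi2W hGW).1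
  have hIn : Inva Om (fun z => phi G (c1 + c) z + Ψ (pr z)) ac := by
    refine ⟨hIn0.1.add hΨ.sm, fun γ z hz => ⟨(hIn0.2 γ z hz).1, ?_⟩⟩
    have h1 := (hIn0.2 γ z hz).2
    have h2 := pr_inv hpr γ hz
    beta_reduce
    rw [h2]
    linarith
  obtain ⟨Fl, hFl⟩ := tGeo Gq Om ac _ hA hIn
  obtain ⟨m, hm⟩ := tLiouEx M P Om _ pr q hUT
  have hS : ∀ z : ℂ, |z.re - L0 / 2| < 4 / 5 * L0 → z ∈ Stp L0 (3 / 2 * L0) := by
    intro z hz
    have h1 := abs_lt.1 hz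
    exact ⟨by linarith [h1.1], by linarith [h1.2]⟩
  have hS' : ∀ z : ℂ, |z.re - L0 / 2| < 3 / 4 * L0 → z ∈ Stp L0 (1 / 4 * L0) := by
    intro z hz
    have h1 := abs_lt.1 hz
    exact ⟨by linarith [h1.1], by linarith [h1.2]⟩
  have hc0 : ∀ z : ℂ, z.re = L0 / 2 → |z.re - L0 / 2| < 3 / 4 * L0 := by
    intro z hz
    rw [hz, sub_self, abs_zero]
    positivity
  have hline : ∀ z : ℂ, z.re = L0 / 2 → z ∈ Stp L0 (3 / 2 * L0) := by
    intro z hz
    exact hS z ((hc0 z hz).trans (by linarith))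
  have hper : ∀ z ∈ Stp L0 (3 / 2 * L0), ∀ w ∈ Stp L0 (3 / 2 * L0),
      (pr z = pr w ↔ ∃ n : ℤ, w = z + n * (2 * π * Complex.I)) := by
    intro z hz w hw
    refine ⟨hC0.inj z hz w hw, ?_⟩
    rintro ⟨n, hn⟩
    have hper : ∀ k : ℤ, pr (z + k * (2 * π * Complex.I)) = pr z := by
      have hre : ∀ k : ℤ, (z + k * (2 * π * Complex.I)) ∈ Stp L0 (3 / 2 * L0) := by
        intro k
        have : (z + k * (2 * π * Complex.I)).re = z.re := by simp
        constructor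
        · rw [this]; exact hz.1
        · rw [this]; exact hz.2
      intro k
      induction k using Int.induction_on with
      | zero => simp
      | succ k ih =>
        have h1 := hC0.per _ (hre k)
        rw [ih] at h1
        rw [← h1]
        congr 1
        push_cast
        ring
      | pred k ih =>
        have h1 := hC0.per _ (hre (-k - 1))
        rw [← h1, ← ih]
        congr 1
        push_cast
        ring
    rw [hn, hper n]
  have hrot : ∀ z : ℂ, |z.re - L0 / 2| < 3 / 4 * L0 →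
      phi G (c1 + c) z + Ψ (pr z) = G z.re := fun z hz => hC.rot z (hS' z hz)
  have hpx : ∀ z : ℂ, z.re = L0 / 2 →
      phi G (c1 + c) z + Ψ (pr z) = 0 ∧ px (fun z => phi G (c1 + c) z + Ψ (pr z)) z = 0 := by
    intro z hz
    refine ⟨by rw [hrot z (hc0 z hz), hz, hG2.g0], ?_⟩
    have h1 : (fun z => phi G (c1 + c) z + Ψ (pr z)) =ᶠ[𝓝 z] fun w => G w.re := by
      filter_upwards [(stp_open _ _).mem_nhds (hS' z (hc0 z hz))] with w hw using hC.rot w hw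
    have h2 : HasFDerivAt (fun w : ℂ => G w.re)
        ((ContinuousLinearMap.toSpanSingleton ℝ (0 : ℝ)).comp Complex.reCLM) z := by
      have h3 : HasDerivAt G 0 (Complex.reCLM z) := by
        show HasDerivAt G 0 z.re
        rw [hz]
        exact hG2.g1
      exact h3.hasFDerivAt.comp z Complex.reCLM.hasFDerivAt
    unfold px
    rw [h1.fderiv_eq, h2.fderiv]
    simp
  have hν0 : ν (Gm pr (L0 / 2)) = 0 :=
    gm_null hν (fun z hz => strip_om (hline z hz)) fun z w hz hw => hper z (hline z hz) w (hline w hw)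
  refine ⟨M, P, iM, cM, hconn, inferInstance, inferInstance, iP, cP, inferInstance, inferInstance,
    Om, fun z => phi G (c1 + c) z + Ψ (pr z), pr, q, ν, m, Fl, G, L0 / 2, 3 / 4 * L0, 4 / 5 * L0,
    by positivity, by linarith, fun z hz => strip_om (hS z hz), hrot, ?_, hG2.g0, hG2.g1, hUT, hν,
    hνf, hm, hFl, ?_, hC.neg, ?_, ?_, (gm_far hX hpr).1, hν0, hbas, hfun_ex hX hpr,
    fun u lam hu => ?_⟩
  · intro z w hz hw
    exact hper z (hS z hz) w (hS w hw)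
  · exact geo_line om_open hIn.1 hFl (fun z hz => strip_om (hline z hz)) hpx
  · intro z hz
    constructor
    · intro hz0
      obtain ⟨w, hw1, hw2⟩ := hC.zero z hz hz0
      exact ⟨w, hw1, hw2⟩
    · rintro ⟨w, hw1, hw2⟩
      have hw1' : w.re = L0 / 2 := hw1
      obtain ⟨γ, hγ⟩ := (hpr.rel z hz w (strip_om (hline w hw1'))).1 hw2.symm
      have h1 : (fun z => phi G (c1 + c) z + Ψ (pr z)) =ᶠ[𝓝 w] phi G (c1 + c) := by
        filter_upwards [(stp_open _ _).mem_nhds (hS' w (hc0 w hw1'))] with y hy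
        have hy1 : |y.re - L0 / 2| < 3 / 4 * L0 := by
          rw [abs_lt]
          constructor <;> linarith [hy.1, hy.2]
        rw [hΨ.zero y hy1, add_zero]
      rw [← curv_ac hIn γ hz, hγ, A962.curv_congr h1, (phi3W hGW).1 w (hline w hw1'), hw1', hG0]
      simp
  · exact erg2 M P Om _ pr q m Fl _ _ _ _ _ _ _ hUT hm hFl hC
  · obtain ⟨h1, h2, h3⟩ := hall u lam hu
    exact ⟨h1, h2, h3, fun f Q hf hfQ t ht => clu_all all hX hpr hν0 hu.mono h2 h3 hF hdense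
      (fun k t ht havg => hwin ν hν u lam hu k t ht havg) hf hfQ ht⟩

end Pool.Agent.H240.IX
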