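import Pool.Agent.H240.IX.Def
import Pool.Agent.H240.NX.Cpt

/-!
# IX-1: the bilinear forms of functions (helper34 for helper240)
-/

set_option autoImplicit false
set_option linter.unusedSectionVars false

open Set Filter Topology MeasureTheory
open scoped Real ContDiff

noncomputable section

namespace Pool.Agent.H240.IX.A34

open Pool.Agent.Y262.QE Pool.Agent.Y264.QR Pool.Agent.H240.NX Pool.Agent.H240.IX

section

variable {M : Type} [MetricSpace M] [CompactSpace M] [MeasurableSpace M] [BorelSpace M]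
  {μ : Measure M} [IsFiniteMeasure μ]

/-- the bilinear form with weight `w` -/
def Bq (μ : Measure M) (w : C(M, ℝ)) (x y : Lp ℝ 2 μ) : ℝ := ∫ t, w t * (x t * y t) ∂μ

theorem int_xy (w : C(M, ℝ)) (x y : Lp ℝ 2 μ) : Integrable (fun t => w t * (x t * y t)) μ :=
  ((Lp.memLp x).integrable_mul (Lp.memLp y)).bdd_mul (c := ‖w‖)
    w.continuous.aestronglyMeasurable (Eventually.of_forall fun t => w.norm_coe_le_norm t)

theorem Bq_comm (w : C(M, ℝ)) (x y : Lp ℝ 2 μ) : Bq μ w x y = Bq μ w y x := by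
  unfold Bq
  refine integral_congr_ae (Eventually.of_forall fun t => ?_)
  show w t * (x t * y t) = w t * (y t * x t)
  ring

theorem Bq_add (w : C(M, ℝ)) (x x' y : Lp ℝ 2 μ) :
    Bq μ w (x + x') y = Bq μ w x y + Bq μ w x' y := by
  unfold Bq
  rw [← integral_add (int_xy w x y) (int_xy w x' y)]
  refine integral_congr_ae ?_
  filter_upwards [Lp.coeFn_add x x'] with t ht
  rw [ht, Pi.add_apply]
  ring

theorem Bq_smul (w : C(M, ℝ)) (c : ℝ) (x y : Lp ℝ 2 μ) : Bq μ w (c • x) y = c * Bq μ w x y := by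
  unfold Bq
  rw [← integral_const_mul]
  refine integral_congr_ae ?_
  filter_upwards [Lp.coeFn_smul c x] with t ht
  rw [ht, Pi.smul_apply, smul_eq_mul]
  ring

theorem Bq_lin (w w' : C(M, ℝ)) (c d : ℝ) (x y : Lp ℝ 2 μ) :
    Bq μ (c • w + d • w') x y = c * Bq μ w x y + d * Bq μ w' x y := by
  unfold Bq
  rw [← integral_const_mul, ← integral_const_mul,
    ← integral_add ((int_xy w x y).const_mul c) ((int_xy w' x y).const_mul d)]
  refine integral_congr_ae (Eventually.of_forall fun t => ?_)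
  show (c * w t + d * w' t) * (x t * y t) = c * (w t * (x t * y t)) + d * (w' t * (x t * y t))
  ring

theorem Bq_self (w : C(M, ℝ)) (x : Lp ℝ 2 μ) : Bq μ w x x = ∫ t, w t * (x t) ^ 2 ∂μ := by
  unfold Bq
  refine integral_congr_ae (Eventually.of_forall fun t => ?_)
  show w t * (x t * x t) = w t * (x t) ^ 2
  ring

theorem Bq_neg (w : C(M, ℝ)) (x y : Lp ℝ 2 μ) : Bq μ w (-x) y = - Bq μ w x y := by
  have h := Bq_smul w (-1) x y
  rw [neg_one_smul] at h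
  rw [h]
  ring

theorem Bq_pol (w : C(M, ℝ)) (x y : Lp ℝ 2 μ) :
    Bq μ w x y = (Bq μ w (x + y) (x + y) - Bq μ w (x - y) (x - y)) / 4 := by
  have e1 : Bq μ w (x + y) (x + y) = Bq μ w x x + 2 * Bq μ w x y + Bq μ w y y := by
    rw [Bq_add, Bq_comm w x (x + y), Bq_comm w y (x + y), Bq_add, Bq_add, Bq_comm w y x]
    ring
  have e2 : Bq μ w (x - y) (x - y) = Bq μ w x x - 2 * Bq μ w x y + Bq μ w y y := by
    rw [sub_eq_add_neg, Bq_add, Bq_neg, Bq_comm w x (x + -y), Bq_comm w y (x + -y), Bq_add,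
      Bq_add, Bq_neg, Bq_neg, Bq_comm w y x]
    ring
  rw [e1, e2]
  ring

theorem Bq_tendsto {ι : Type*} {l : Filter ι} {w : ι → C(M, ℝ)} {w0 : C(M, ℝ)}
    (hw : Tendsto w l (𝓝 w0)) {x y : ι → Lp ℝ 2 μ} {x0 y0 : Lp ℝ 2 μ}
    (hx : Tendsto x l (𝓝 x0)) (hy : Tendsto y l (𝓝 y0)) :
    Tendsto (fun n => Bq μ (w n) (x n) (y n)) l (𝓝 (Bq μ w0 x0 y0)) := by
  have h1 := q_tendsto (μ := μ) hw (hx.add hy)
  have h2 := q_tendsto (μ := μ) hw (hx.sub hy)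
  rw [Bq_pol w0 x0 y0, Bq_self, Bq_self]
  refine ((h1.sub h2).div_const 4).congr fun n => ?_
  rw [Bq_pol (w n) (x n) (y n), Bq_self, Bq_self]

variable {H : Type} [NormedAddCommGroup H] [InnerProductSpace ℝ H] {i : H →L[ℝ] Lp ℝ 2 μ}

theorem kb_eq (f φ : C(M, ℝ)) (u v : H) : kb μ i f φ u v = Bq μ (f * ex φ) (i u) (i v) := by
  unfold kb Bq
  refine integral_congr_ae (Eventually.of_forall fun t => ?_)
  show f t * (Real.exp (φ t) * (i u t * i v t)) = f t * Real.exp (φ t) * (i u t * i v t)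
  ring

/-- the difference quotient of the exponential -/
theorem dq_tendsto (φ0 : C(M, ℝ)) {ψ : ℕ → C(M, ℝ)} {ψ0 : C(M, ℝ)} {ρ : ℕ → ℝ}
    (hψ : Tendsto ψ atTop (𝓝 ψ0)) (hρ : Tendsto ρ atTop (𝓝 0)) (hρ0 : ∀ n, ρ n ≠ 0) :
    Tendsto (fun n => (ρ n)⁻¹ • (ex (φ0 + ρ n • ψ n) - ex φ0)) atTop (𝓝 (ψ0 * ex φ0)) := by
  have h1 : Tendsto (fun n => ψ n * ex φ0) atTop (𝓝 (ψ0 * ex φ0)) := hψ.mul tendsto_const_nhds
  have h2 : Tendsto (fun n => |ρ n| * ‖ψ n‖ ^ 2 * ‖ex φ0‖) atTop (𝓝 0) := by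
    have h3 : Tendsto (fun n => |ρ n|) atTop (𝓝 0) := by
      have := hρ.abs
      rwa [abs_zero] at this
    have h4 := (h3.mul (hψ.norm.pow 2)).mul_const ‖ex φ0‖
    rwa [zero_mul, zero_mul] at h4
  have h5 : ∀ᶠ n in atTop, |ρ n| * ‖ψ n‖ ≤ 1 := by
    have h3 : Tendsto (fun n => |ρ n|) atTop (𝓝 0) := by
      have := hρ.abs
      rwa [abs_zero] at this
    have h4 := h3.mul hψ.norm
    rw [zero_mul] at h4
    exact (h4.eventually (gt_mem_nhds one_pos)).mono fun n hn => le_of_lt hn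
  have h6 : ∀ᶠ n in atTop, ‖(ρ n)⁻¹ • (ex (φ0 + ρ n • ψ n) - ex φ0) - ψ n * ex φ0‖ ≤
      |ρ n| * ‖ψ n‖ ^ 2 * ‖ex φ0‖ := by
    filter_upwards [h5] with n hn
    rw [ContinuousMap.norm_le _ (by positivity)]
    intro t
    have e1 : ((ρ n)⁻¹ • (ex (φ0 + ρ n • ψ n) - ex φ0) - ψ n * ex φ0) t =
        (ρ n)⁻¹ * (Real.exp (ρ n * ψ n t) - 1 - ρ n * ψ n t) * Real.exp (φ0 t) := by
      show (ρ n)⁻¹ * (Real.exp (φ0 t + ρ n * ψ n t) - Real.exp (φ0 t)) -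
        ψ n t * Real.exp (φ0 t) = _
      rw [Real.exp_add]
      have := hρ0 n
      field_simp
    have h7 : |ψ n t| ≤ ‖ψ n‖ := (ψ n).norm_coe_le_norm t
    have h8 : |ρ n * ψ n t| ≤ 1 := by
      rw [abs_mul]
      exact (mul_le_mul_of_nonneg_left h7 (abs_nonneg _)).trans hn
    have h9 : |Real.exp (ρ n * ψ n t) - 1 - ρ n * ψ n t| ≤ (ρ n * ψ n t) ^ 2 :=
      Real.abs_exp_sub_one_sub_id_le h8
    have h10 : (ρ n * ψ n t) ^ 2 ≤ |ρ n| ^ 2 * ‖ψ n‖ ^ 2 := by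
      rw [← sq_abs, abs_mul, mul_pow]
      exact mul_le_mul_of_nonneg_left (pow_le_pow_left₀ (abs_nonneg _) h7 2) (by positivity)
    have h11 : Real.exp (φ0 t) ≤ ‖ex φ0‖ := (le_abs_self _).trans ((ex φ0).norm_coe_le_norm t)
    have hpos : 0 < |ρ n| := abs_pos.2 (hρ0 n)
    rw [e1, Real.norm_eq_abs, abs_mul, abs_mul, abs_inv, abs_of_pos (Real.exp_pos (φ0 t))]
    have h12 : |ρ n|⁻¹ * |Real.exp (ρ n * ψ n t) - 1 - ρ n * ψ n t| ≤ |ρ n| * ‖ψ n‖ ^ 2 := by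
      rw [inv_mul_le_iff₀ hpos]
      calc _ ≤ |ρ n| ^ 2 * ‖ψ n‖ ^ 2 := h9.trans h10
        _ = _ := by ring
    exact mul_le_mul h12 h11 (Real.exp_pos _).le (by positivity)
  have h7 : Tendsto (fun n => (ρ n)⁻¹ • (ex (φ0 + ρ n • ψ n) - ex φ0) - ψ n * ex φ0) atTop
      (𝓝 0) := squeeze_zero_norm' h6 h2
  have h8 := h7.add h1
  rw [zero_add] at h8
  refine h8.congr fun n => ?_
  rw [sub_add_cancel]

end

theorem stKb : StKb := by
  intro M _ _ _ _ μ _ H _ _ _ i a b hS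
  have hb : ∀ φ u v, b φ u v = Bq μ (ex φ) (i u) (i v) := fun φ u v => by
    rw [hS.isb]
    rfl
  refine ⟨?_, ?_, ?_, ?_, ?_, ?_, ?_, ?_⟩
  · intro f φ u v
    rw [kb_eq, kb_eq, Bq_comm]
  · intro f φ u u' v
    rw [kb_eq, kb_eq, kb_eq, map_add, Bq_add]
  · intro f φ c u v
    rw [kb_eq, kb_eq, map_smul, Bq_smul]
  · intro f g φ c d u v
    rw [kb_eq, kb_eq, kb_eq, ← Bq_lin]
    have h1 : (c • f + d • g) * ex φ = c • (f * ex φ) + d • (g * ex φ) := by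
      rw [add_mul, smul_mul_assoc, smul_mul_assoc]
    rw [h1]
  · intro f φ v
    unfold kb kap
    refine integral_congr_ae (Eventually.of_forall fun t => ?_)
    show f t * (Real.exp (φ t) * (i v t * i v t)) = f t * (Real.exp (φ t) * (i v t) ^ 2)
    ring
  · intro φ u v
    rw [kb_eq, hb, one_mul]
  · intro f f0 φ φ0 u v u0 v0 hf hφ hu hv
    simp only [kb_eq]
    exact Bq_tendsto (hf.mul ((ex_cont.tendsto φ0).comp hφ)) ((i.continuous.tendsto u0).comp hu)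
      ((i.continuous.tendsto v0).comp hv)
  · intro φ0 ψ ψ0 ρ u v u0 v0 hψ hρ hρ0 hu hv
    have h1 := Bq_tendsto (μ := μ) (dq_tendsto φ0 hψ hρ hρ0) ((i.continuous.tendsto u0).comp hu)
      ((i.continuous.tendsto v0).comp hv)
    rw [kb_eq]
    refine h1.congr fun n => ?_
    have h2 : (ρ n)⁻¹ • (ex (φ0 + ρ n • ψ n) - ex φ0) =
        (ρ n)⁻¹ • ex (φ0 + ρ n • ψ n) + (-(ρ n)⁻¹) • ex φ0 := by
      rw [smul_sub, neg_smul, sub_eq_add_neg]
    rw [h2, Bq_lin, hb, hb]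
    show (ρ n)⁻¹ * Bq μ (ex (φ0 + ρ n • ψ n)) (i (u n)) (i (v n)) +
      -(ρ n)⁻¹ * Bq μ (ex φ0) (i (u n)) (i (v n)) = _
    rw [div_eq_mul_inv]
    ring

end Pool.Agent.H240.IX.A34
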