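import Pool.Agent.H240.IX.Seq

/-!
# Intervals of quantum limits: the limit surface
-/

set_option autoImplicit false
set_option linter.unusedSectionVars false

open Set Filter Topology MeasureTheory
open scoped ContDiff ComplexConjugate Real

noncomputable section

namespace Pool.Agent.H240.IX

open Pool.Agent.Y262.EG Pool.Agent.Y262.EX Pool.Agent.Y262.EL Pool.Agent.Y262.QE
open Pool.Agent.Y264.QR Pool.Agent.H240.SC Pool.Agent.H240.SG Pool.Agent.H240.CG

/-- every pair is a target infinitely often -/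
theorem enum_ex : ∃ e : ℕ → ℕ × ℚ, ∀ a, ∃ᶠ n in atTop, e n = a := by
  set E := (Denumerable.eqv (ℕ × ℚ × ℕ)).symm with hE
  refine ⟨fun n => ((E n).1, (E n).2.1), fun a => ?_⟩
  rw [Nat.frequently_atTop_iff_infinite]
  refine Set.infinite_of_injective_forall_mem (f := fun j : ℕ => E.symm (a.1, a.2, j)) ?_ ?_
  · intro i j hij
    have h1 := E.symm.injective hij
    simpa using h1
  · intro j
    simp

section

variable {g X : ℝ → ℝ} {c1 C0 c r m C : ℝ} {M P : Type} [MetricSpace M] [CompactSpace M]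
  [MetricSpace P] [CompactSpace P] [MeasurableSpace M] [BorelSpace M] {pr : ℂ → M} {q : Y → P}
  {μ : Measure M} {D : Data M} {Φ : ℂ → M} {σ : M → M}

/-- area of the perturbed metric -/
theorem area_ex (hP : Prof g c1 C0) (hX : Cut X) (hpr : PrM Om ac pr) (hq : PrP Om ac q)
    (hB : Bs0 g X c1 pr μ D Φ σ) {G : ℝ → ℝ} {c : ℝ} (hA : AdW (fun x => G x - g x) c) {Ψ : M → ℝ}
    (hΨ : Of pr Ψ) {κ : C(M, ℝ)} (hκ : Ex pr g X G c Ψ κ) :
    (D.conf fun x => Real.exp (κ x)).IsSurf (wm μ fun x => Real.exp (κ x)) ∧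
      Compat (D.conf fun x => Real.exp (κ x)) Om (fun z => phi G (c1 + c) z + Ψ (pr z)) pr ∧
      IsArea Om (fun z => phi G (c1 + c) z + Ψ (pr z)) pr (wm μ fun x => Real.exp (κ x)) := by
  have hdat := ex_data hP hX hpr hq hB hA hΨ hκ 0 (by
    simpa using (contDiffOn_const (c := (0 : ℝ))))
  rw [smul_zero, add_zero] at hdat
  have hz : (fun z => phi G (c1 + c) z + Ψ (pr z) + (0 : C(M, ℝ)) (pr z)) =
      fun z => phi G (c1 + c) z + Ψ (pr z) := by
    funext z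
    simp
  rwa [hz] at hdat

/-- area and bases of eigenfunctions -/
theorem dataI (hP : Prof g c1 C0) (hX : Cut X) (hpr : PrM Om ac pr) (hq : PrP Om ac q)
    (hB : Bs0 g X c1 pr μ D Φ σ) {G : ℝ → ℝ} {c : ℝ} (hG : ProfW G (c1 + c))
    (hA : AdW (fun x => G x - g x) c) {Ψ : M → ℝ} (hΨ : Of pr Ψ) :
    ∃ ν : Measure M, IsArea Om (fun z => phi G (c1 + c) z + Ψ (pr z)) pr ν ∧ IsFiniteMeasure ν ∧
      (∃ u lam, EB Om (fun z => phi G (c1 + c) z + Ψ (pr z)) pr ν u lam) ∧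
      ∀ u lam, EB Om (fun z => phi G (c1 + c) z + Ψ (pr z)) pr ν u lam → Tendsto lam atTop atTop ∧
        (∀ j, Integrable (fun x => (u j x) ^ 2) ν) ∧ ∀ j, ∫ x, (u j x) ^ 2 ∂ν = 1 := by
  have hneM : Nonempty M := ⟨Φ 0⟩
  obtain ⟨κ, hκ⟩ := ex_ex hP hX hpr hA hΨ
  obtain ⟨b1, b2, b3⟩ := area_ex hP hX hpr hq hB hA hΨ hκ
  have hUT := ut_psi hpr hq hG hΨ
  have hfin : IsFiniteMeasure (wm μ fun x => Real.exp (κ x)) := (tFin M _ _ b1).1
  obtain ⟨u, lam, hu⟩ := tEx M μ D hB.surf hneM κ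
  obtain ⟨v, hv⟩ := eb_ex hUT b1 b2 b3 hu
  refine ⟨_, b3, hfin, ⟨v, lam, hv⟩, fun u lam hu => ?_⟩
  have hw := eb_weak hUT b1 b2 b3 hu
  refine ⟨Pool.Agent.H240.NL.eb_tt hB.surf hneM hw, fun j => (hw.eig j).mem.integrable_sq,
    fun j => ?_⟩
  have h8 := hw.orth j j
  rw [if_pos rfl] at h8
  rw [← h8]
  refine integral_congr_ae (Filter.Eventually.of_forall fun x => ?_)
  simp only
  ring

theorem surf_ex (hAll : All) (hP : Prof g c1 C0) (hX : Cut X) (hpr : PrM Om ac pr)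
    (hq : PrP Om ac q) (hB : Bs0 g X c1 pr μ D Φ σ) :
    ∃ (G : ℝ → ℝ) (c C : ℝ) (Ψ : M → ℝ) (κ' : ℝ) (O : Set ℂ) (F : ℕ → M → ℝ) (Pf : ℕ → ℝ → ℝ)
      (ψF : ℕ → M → ℝ) (α : ℕ → ℝ), Prof2 G (c1 + c) C ∧
      deriv (deriv G) (L0 / 2) = 0 ∧ AdW (fun x => G x - g x) c ∧ Fd O ∧ Of pr Ψ ∧ 0 < κ' ∧
      (∀ z ∈ Om, (∀ γ, 5 / 8 * L0 ≤ |(ac γ z).re - L0 / 2|) →
        curv (fun z => phi G (c1 + c) z + Ψ (pr z)) z ≤ -κ') ∧
      (∀ k, Fn pr (F k) (Pf k) (ψF k) (α k)) ∧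
      (∀ (F' : M → ℝ) (P' : ℝ → ℝ) (ψ' : M → ℝ) (α' : ℝ), Fn pr F' P' ψ' α' → ∀ ε : ℝ, 0 < ε →
        ∃ k, ∀ x, |F k x - F' x| < ε) ∧
      ∀ ν : Measure M, IsArea Om (fun z => phi G (c1 + c) z + Ψ (pr z)) pr ν →
      ∀ (u : ℕ → M → ℝ) (lam : ℕ → ℝ), EB Om (fun z => phi G (c1 + c) z + Ψ (pr z)) pr ν u lam →
      ∀ (k : ℕ) (t : ℚ), (t : ℝ) < 0 → (∫ x, F k x ∂ν) / ν.real univ < t →
      ∃ᶠ n : ℕ in atTop, ∃ j, (n : ℝ) < lam j ∧
        |(∫ x, F k x * (u j x) ^ 2 ∂ν) - t| < 1 / ((n : ℝ) + 1) := by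
  have hL := L0p
  obtain ⟨O, hO⟩ := hAll.fd.1
  obtain ⟨F, Pf, ψF, α, hF, hdense⟩ := hAll.sep M pr hpr
  obtain ⟨en, hen⟩ := enum_ex
  obtain ⟨m, Cb, hpk⟩ := PK.base hP
  have hm := hpk.mp
  obtain ⟨ε0, κ', hε0, hκ', hcrv⟩ := hAll.crv M pr g c1 C0 (m / 2) O hpr hO hP (by linarith)
  obtain ⟨S, p, e, ψ, θ, hS0, hS0c, hS0Ψ, hS0ρ, hS0m, hI, hR⟩ := seqI_ex hAll hP hX hpr hq hB hO hpk
    (fun n => F (en n).1) (fun n => Pf (en n).1) (fun n => ψF (en n).1) (fun n => α (en n).1)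
    (fun n => ((en n).2 : ℝ)) (fun n => hF _) (ε := ε0 / 4) (by linarith)
  obtain ⟨G, c, C, T, E, hG2, hG0, hAd, hr0, hρ0, hρs, hρt, hGg, hcb, hlow, hmid, hfar, htail⟩ :=
    limI_ex hP hS0 hS0c hI hR
  have hρ4 := (hI 0).ρh
  have hρp := fun n => (hI n).ρp
  -- the tails off the collar
  set Tψ : ℕ → M → ℝ := fun k x => ∑' n, ψ (n + k) x with hTψ
  have hψt : ∀ k, Of pr (Tψ k) ∧ (∀ x, |Tψ k x| ≤ 2 * (S k).ρ) ∧
      ∀ z ∈ O, |px (px fun z => Tψ k (pr z)) z + py (py fun z => Tψ k (pr z)) z| ≤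
        4 * (S k).ρ := by
    intro k
    obtain ⟨a1, -, a3, a4⟩ := hAll.ofs M pr O hpr hO (fun n => ψ (n + k)) (fun n => (S (n + k)).ρ)
      (hρs k) (fun n => (hR (n + k)).of) fun n j hj z hz => (hR (n + k)).bd j (by omega) z hz
    refine ⟨a1, fun x => (a3 x).trans (hρt k), fun z hz => (a4 z hz).trans ?_⟩
    have := hρt k
    linarith
  have hψb : ∀ n x, |ψ n x| ≤ (S n).ρ := by
    obtain ⟨-, a2, -⟩ := hAll.ofs M pr O hpr hO (fun n => ψ (n + 0)) (fun n => (S (n + 0)).ρ)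
      (hρs 0) (fun n => (hR (n + 0)).of) fun n j hj z hz => (hR (n + 0)).bd j (by omega) z hz
    simpa using a2
  set Ψ : M → ℝ := Tψ 0 with hΨdef
  have hpart : ∀ k x, (S k).Ψ x = ∑ i ∈ Finset.range k, ψ i x := by
    intro k x
    induction k with
    | zero => rw [hS0Ψ]; simp
    | succ k ih =>
      rw [(hR k).Ψ x, ih, Finset.sum_range_succ]
  have hsx : ∀ x, Summable fun n => ψ n x := fun x => by
    have h1 : Summable fun n => (S n).ρ := by simpa using hρs 0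
    exact Summable.of_norm_bounded h1 fun n => by
      rw [Real.norm_eq_abs]
      exact hψb n x
  have hΨk : ∀ k x, Ψ x = (S k).Ψ x + Tψ k x := by
    intro k x
    have h1 := (hsx x).sum_add_tsum_nat_add k
    have h2 : Ψ x = ∑' n, ψ n x := by simp [hΨdef, hTψ]
    rw [hpart k x, h2, ← h1]
  refine ⟨G, c, C, Ψ, κ', O, F, Pf, ψF, α, hG2, hG0, hAd, hO, (hψt 0).1, hκ', ?_, hF, hdense, ?_⟩
  · -- curvature
    refine hcrv G c C hG2 (fun x hx => (hGg x hx).trans (by linarith)) (hcb.trans (by linarith)) ?_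
      (fun x h1 h2 => hS0m.trans (hmid x h1 h2)) hfar Ψ (hψt 0).1
      (fun x => ((hψt 0).2.1 x).trans (by linarith))
      (fun z hz => ((hψt 0).2.2 z hz).trans (by linarith))
    intro x hx
    refine le_trans ?_ (hlow x hx)
    have h1 := (hpk.cvx x hx)
    exact mul_le_mul_of_nonneg_right (by linarith) h1
  · intro ν hν u lam hu k t ht havg
    have hGW : ProfW G (c1 + c) := hG2.profW
    have hUT := ut_psi hpr hq hGW (hψt 0).1
    -- the differences
    have hfx : ∀ n, ∃ f : C(M, ℝ), ∀ z ∈ Om, f (pr z) = Hf (T n) (E n) z + Tψ n (pr z) := by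
      intro n
      have hh := hfW (htail n).1
      exact desc hpr (F := fun z => Hf (T n) (E n) z + Tψ n (pr z))
        (hh.sm.continuousOn.add (hψt n).1.sm.continuousOn)
        (fun γ z hz => by rw [hh.inv γ z hz, pr_inv hpr γ hz])
    choose f hf using hfx
    have hfs : ∀ n, ContDiffOn ℝ ∞ (fun z => f n (pr z)) Om := fun n =>
      ((hfW (htail n).1).sm.add (hψt n).1.sm).congr fun z hz => hf n z hz
    have hfb : ∀ n x, |f n x| ≤ 4 * (S n).ρ := by
      intro n x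
      obtain ⟨z, hz, rfl⟩ : x ∈ pr '' Om := by rw [hpr.surj]; trivial
      rw [hf n z hz]
      have h1 := Hf_bd (htail n).2.2.2.1 (htail n).2.2.2.2 z
      have h2 := (hψt n).2.1 (pr z)
      exact (abs_add_le _ _).trans (by linarith)
    -- the exponents
    obtain ⟨κ, hκ⟩ := ex_ex hP hX hpr hAd (hψt 0).1
    obtain ⟨b1, b2, b3⟩ := area_ex hP hX hpr hq hB hAd (hψt 0).1 hκ
    have hνκ : ν = wm μ fun x => Real.exp (κ x) := Pool.Agent.H240.NL.area_unique hUT hν b3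
    have hκn : ∀ n, Ex pr g X (S n).G (S n).c (S n).Ψ (κ - (2 : ℝ) • f n) := by
      intro n z hz
      have e1 : (κ - (2 : ℝ) • f n) (pr z) = κ (pr z) - 2 * f n (pr z) := rfl
      have e2 := Hf_lin (fun x => (S n).G x - g x) (T n) (S n).c (E n) 1 z
      have e3 : (fun x => (fun x => (S n).G x - g x) x + 1 * T n x) = fun x => G x - g x := by
        funext x
        rw [(htail n).2.1 x]
        ring
      have e4 : (S n).c + 1 * E n = c := by
        rw [(htail n).2.2.1]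
        ring
      rw [e3, e4] at e2
      have e5 : Tψ 0 (pr z) = (S n).Ψ (pr z) + Tψ n (pr z) := hΨk n (pr z)
      rw [e1, hκ z hz, hf n z hz, e2, e5]
      ring
    have hκt : Tendsto (fun n => κ - (2 : ℝ) • f n) atTop (𝓝 κ) := by
      have h1 : Tendsto f atTop (𝓝 0) := by
        refine squeeze_zero_norm (a := fun n => 4 * (S n).ρ) (fun n => ?_) ?_
        · rw [ContinuousMap.norm_le _ (by have := hρp n; positivity)]
          exact hfb n
        · simpa using hρ0.const_mul 4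
      have h2 := (h1.const_smul (2 : ℝ)).const_sub κ
      simpa using h2
    set FC : C(M, ℝ) := ⟨F k, cont_sm hpr (fn_sm (hF k))⟩ with hFC
    have hfinμ : IsFiniteMeasure μ := (tFin M μ D hB.surf).1
    have hne : NeZero μ := ⟨fun h => by
      have hneM : Nonempty M := ⟨Φ 0⟩
      have h1 := (tFin M μ D hB.surf).2 univ isOpen_univ univ_nonempty
      rw [h] at h1
      simp at h1⟩
    have havg2 : avg μ FC κ < t := by
      rw [Pool.Agent.H240.NX.avg_eq, ← hνκ]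
      exact havg
    have hev := (Pool.Agent.H240.NX.avg_tendsto (μ := μ) FC hκt).eventually (gt_mem_nhds havg2)
    have hev1 : ∀ᶠ n in atTop, avg μ FC (κ - (2 : ℝ) • f (n + 1)) < t :=
      (tendsto_add_atTop_nat 1).eventually hev
    have hev2 : ∀ᶠ n in atTop, (S (n + 1)).r < α k :=
      (tendsto_add_atTop_nat 1).eventually (hr0.eventually (gt_mem_nhds (hF k).rd.αp))
    refine ((hen (k, t)).and_eventually (hev1.and hev2)).mono ?_
    rintro n ⟨hn, hn1, hn2⟩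
    have hw := (hR n).win
    rw [hn] at hw
    have hsn : Of pr (S (n + 1)).Ψ := (hI (n + 1)).of
    have hpkn := (hI (n + 1)).pk
    obtain ⟨d1, d2, d3⟩ := area_ex hP hX hpr hq hB (hpkn.adW hP) hsn (hκn (n + 1))
    have hUTn := ut_psi hpr hq (hpkn.prof hP) hsn
    have hwin := hw hn2 ht fun ν' hν' => by
      have h1 : ν' = wm μ fun x => Real.exp ((κ - (2 : ℝ) • f (n + 1)) x) :=
        Pool.Agent.H240.NL.area_unique hUTn hν' d3
      rw [h1]
      rw [Pool.Agent.H240.NX.avg_eq] at hn1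
      exact hn1
    have he : ∀ z ∈ Om, phi (S (n + 1)).G (c1 + (S (n + 1)).c) z + (S (n + 1)).Ψ (pr z) +
        f (n + 1) (pr z) = phi G (c1 + c) z + Ψ (pr z) := by
      intro z hz
      have h1 := phi_lin (S (n + 1)).G (T (n + 1)) (c1 + (S (n + 1)).c) (E (n + 1)) 1 z
      have h2 : (fun x => (S (n + 1)).G x + 1 * T (n + 1) x) = G := by
        funext x
        rw [(htail (n + 1)).2.1 x, one_mul]
      have h3 : c1 + (S (n + 1)).c + 1 * E (n + 1) = c1 + c := by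
        rw [(htail (n + 1)).2.2.1]
        ring
      rw [h2, h3] at h1
      rw [h1, hf (n + 1) z hz, one_mul, hΨk (n + 1) (pr z)]
      ring
    exact hwin (f (n + 1)) (hfs (n + 1)) (fun x => (hfb (n + 1) x).trans_lt (by
      have h2 := (hR n).ρθ
      have h3 := hρp (n + 1)
      linarith)) ν (area_congr hν he) u lam (eb_congr hu he)

end

end Pool.Agent.H240.IX
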