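import Pool.Agent.H240.IX.Def

/-!
# Intervals of quantum limits: the abstract theorem
-/

set_option autoImplicit false
set_option linter.unusedSectionVars false

open Set Filter Topology MeasureTheory
open scoped Real ContDiff

noncomputable section

namespace Pool.Agent.H240.IX

open Pool.Agent.Y262.QE Pool.Agent.Y264.QR Pool.Agent.H240.NX

section

variable {M : Type} [MetricSpace M] [CompactSpace M] [MeasurableSpace M] [BorelSpace M]
  {μ : Measure M} [IsFiniteMeasure μ] {H : Type} [NormedAddCommGroup H] [InnerProductSpace ℝ H]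
  [CompleteSpace H] {i : H →L[ℝ] Lp ℝ 2 μ} {a : H →L[ℝ] H →L[ℝ] ℝ}
  {b : C(M, ℝ) → H →L[ℝ] H →L[ℝ] ℝ}

/-- for small perturbations in the direction `g` the eigenvectors of lowest index have a large form -/
theorem side (hK : StKb) (hC : StCU) (hX : StExtr) (hS : Stt μ i a b) (φ g : C(M, ℝ)) (m : ℕ)
    (hm : ∀ k, k < m → Ev a (b φ) k < Ev a (b φ) m) (hp : 0 < Ev a (b φ) m) (ρ : ℕ → ℝ)
    (hρ0 : Tendsto ρ atTop (𝓝 0)) (hρ : ∀ n, 0 < ρ n) (t : ℝ) (u : H)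
    (hu : Uv a (b φ) (Ev a (b φ) m) u) (ht : t < kb μ i g φ u u) :
    ∀ᶠ n in atTop, ∀ v, Uv a (b (φ + ρ n • g)) (Ev a (b (φ + ρ n • g)) m) v →
      t < kb μ i g (φ + ρ n • g) v v := by
  by_contra hcon
  rw [not_eventually] at hcon
  have hcon2 : ∃ᶠ n in atTop, ∃ v, Uv a (b (φ + ρ n • g)) (Ev a (b (φ + ρ n • g)) m) v ∧
      kb μ i g (φ + ρ n • g) v v ≤ t := by
    refine hcon.mono fun n hn => ?_
    push Not at hn
    exact hn
  obtain ⟨θ, hθ, hθ2⟩ := extraction_of_frequently_atTop hcon2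
  choose v hv1 hv2 using hθ2
  have hρθ : Tendsto (fun n => ρ (θ n)) atTop (𝓝 0) := hρ0.comp hθ.tendsto_atTop
  have hφ : Tendsto (fun n => φ + ρ (θ n) • g) atTop (𝓝 φ) := by
    have h1 : Tendsto (fun n => φ + ρ (θ n) • g) atTop (𝓝 (φ + (0 : ℝ) • g)) :=
      tendsto_const_nhds.add (hρθ.smul_const g)
    rwa [zero_smul, add_zero] at h1
  obtain ⟨θ2, w0, hθ2, hw0, hw0t⟩ := hC M μ H i a b hS _ φ hφ m v hv1
  obtain ⟨-, hmax⟩ := hX M μ H i a b hS φ m hm hp g (fun n => ρ (θ (θ2 n)))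
    (hρθ.comp hθ2.tendsto_atTop) (fun n => hρ _) (fun n => v (θ2 n)) w0 (fun n => hv1 (θ2 n)) hw0t
  have h1 := hmax u hu
  obtain ⟨-, -, -, -, -, -, hct, -⟩ := hK M μ H i a b hS
  have h2 := hct (fun _ => g) g (fun n => φ + ρ (θ (θ2 n)) • g) φ (fun n => v (θ2 n))
    (fun n => v (θ2 n)) w0 w0 tendsto_const_nhds (hφ.comp hθ2.tendsto_atTop) hw0t hw0t
  have h3 : kb μ i g φ w0 w0 ≤ t := le_of_tendsto h2 (Eventually.of_forall fun n => hv2 (θ2 n))
  linarith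

theorem abs_win (hK : StKb) (hC : StCU) (hE : StExt) (hCo : StCon) (hD : StDrop) (hX : StExtr)
    (hS : Stt μ i a b) (φ0 f : C(M, ℝ)) (s1 : ℝ) (W D : Set C(M, ℝ)) (hW0 : (0 : C(M, ℝ)) ∈ W)
    (hWD : ∀ w ∈ W, ∀ ψ ∈ D, ∃ δ : ℝ, 0 < δ ∧ ∀ t : ℝ, |t| < δ → w + t • ψ ∈ W)
    (hUC : ∀ (s : ℝ) (w : C(M, ℝ)), |s| < s1 → w ∈ W → ∀ E : ℝ, 0 < E → ∀ u1 u2 : H,
      Uv a (b (φ0 + s • f + w)) E u1 → Uv a (b (φ0 + s • f + w)) E u2 →
      b (φ0 + s • f + w) u1 u2 = 0 → ∃ ψ ∈ D, kb μ i ψ (φ0 + s • f + w) u1 u2 ≠ 0)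
    (Λ : ℝ) (hΛ : 0 ≤ Λ) (t ε : ℝ) (hε : 0 < ε) (s2 : ℝ) (hs2 : 0 ≤ s2) (hs21 : s2 < s1) (j : ℕ)
    (hj : ∀ s ∈ Icc 0 s2, Λ < Ev a (b (φ0 + s • f)) j) (w0 w1 : H)
    (h0 : Uv a (b (φ0 + s2 • f)) (Ev a (b (φ0 + s2 • f)) j) w0)
    (h0t : kb μ i f (φ0 + s2 • f) w0 w0 < t)
    (h1 : Uv a (b φ0) (Ev a (b φ0) j) w1) (h1t : t < kb μ i f φ0 w1 w1) :
    ∃ (s : ℝ) (w : C(M, ℝ)), |s| < s1 ∧ w ∈ W ∧ ∃ j, Λ < Ev a (b (φ0 + s • f + w)) j ∧
      ∀ u, Uv a (b (φ0 + s • f + w)) (Ev a (b (φ0 + s • f + w)) j) u →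
        |kb μ i f (φ0 + s • f + w) u u - t| < ε := by
  classical
  obtain ⟨l1, l2, l3, l4, l5⟩ := tLip M μ H a b hS.fm hS.exp
  obtain ⟨ksy, kad, ksm, klin, -, kb1, hct, -⟩ := hK M μ H i a b hS
  by_contra hcon
  push Not at hcon
  -- the multiplicities
  set S : Set ℕ := {d | ∃ (s : ℝ) (w : C(M, ℝ)) (j : ℕ) (u : H), |s| < s1 ∧ w ∈ W ∧
    Λ < Ev a (b (φ0 + s • f + w)) j ∧ Uv a (b (φ0 + s • f + w)) (Ev a (b (φ0 + s • f + w)) j) u ∧
    |kb μ i f (φ0 + s • f + w) u u - t| < ε ∧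
    d = {k | Ev a (b (φ0 + s • f + w)) k = Ev a (b (φ0 + s • f + w)) j}.ncard} with hSdef
  have hSne : S.Nonempty := by
    have hcont : ContinuousOn (fun s : ℝ => φ0 + s • f) (Icc 0 s2) := by fun_prop
    obtain ⟨s, hs, u, hu, hut⟩ := hCo M μ H i a b hS (fun s => φ0 + s • f) 0 s2 hs2 hcont f j t w1 w0
      (by simpa using h1) h0 (Or.inr ⟨h0t, by simpa using h1t⟩)
    refine ⟨_, s, 0, j, u, ?_, hW0, ?_, ?_, ?_, rfl⟩
    · rw [abs_of_nonneg hs.1]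
      linarith [hs.2]
    · rw [add_zero]
      exact hj s hs
    · rw [add_zero]
      exact hu
    · rw [add_zero, hut, sub_self, abs_zero]
      exact hε
  obtain ⟨s, w, j', u, hs, hw, hΛj, hu, hut, hd⟩ := Nat.sInf_mem hSne
  set φ : C(M, ℝ) := φ0 + s • f + w with hφ
  obtain ⟨u', hu', hut'⟩ := hcon s w hs hw j' hΛj
  -- extremal vectors
  obtain ⟨x1, x2, hx1, hx2, hx3, hx4⟩ := hE M μ H i a b hS f φ j'
  have hu1 := hx3 u hu
  have hu2 := hx3 u' hu'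
  obtain ⟨t1, ht1, ht2, ht3⟩ : ∃ t1 : ℝ, |t1 - t| < ε ∧ kb μ i f φ x2 x2 < t1 ∧
      t1 < kb μ i f φ x1 x1 := by
    have e1 := abs_lt.1 hut
    rcases le_abs.1 hut' with e2 | e2
    · -- the value at `u'` is large
      have e3 : kb μ i f φ u u < min (kb μ i f φ u' u') (t + ε) := lt_min (by linarith) (by linarith)
      obtain ⟨t1, h1, h2⟩ := exists_between e3
      have h3 := h2.trans_le (min_le_left _ _)
      have h4 := h2.trans_le (min_le_right _ _)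
      exact ⟨t1, by rw [abs_lt]; constructor <;> linarith, by linarith, by linarith⟩
    · have e3 : max (kb μ i f φ u' u') (t - ε) < kb μ i f φ u u := max_lt (by linarith) (by linarith)
      obtain ⟨t1, h1, h2⟩ := exists_between e3
      have h3 := (le_max_left _ _).trans_lt h1
      have h4 := (le_max_right _ _).trans_lt h1
      exact ⟨t1, by rw [abs_lt]; constructor <;> linarith, by linarith, by linarith⟩
  obtain ⟨hx5, hx6⟩ := hx4 (ht2.trans ht3)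
  -- the lowest index
  have hex : ∃ k, Ev a (b φ) k = Ev a (b φ) j' := ⟨j', rfl⟩
  set m := Nat.find hex with hmdef
  have hmE : Ev a (b φ) m = Ev a (b φ) j' := Nat.find_spec hex
  have hmlow : ∀ k, k < m → Ev a (b φ) k < Ev a (b φ) m := by
    intro k hk
    refine lt_of_le_of_ne (l2 _ _ _ hk.le) fun he => ?_
    exact Nat.find_min hex hk (he.trans hmE)
  have hmp : 0 < Ev a (b φ) m := by rw [hmE]; exact hΛ.trans_lt hΛj
  have hy1 : Uv a (b φ) (Ev a (b φ) m) x1 := by rw [hmE]; exact hx1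
  have hy2 : Uv a (b φ) (Ev a (b φ) m) x2 := by rw [hmE]; exact hx2
  have hdm : sInf S = {k | Ev a (b φ) k = Ev a (b φ) m}.ncard := by rw [hd, hmE]
  obtain ⟨ψ, hψD, hψ⟩ := hUC s w hs hw _ hmp x1 x2 hy1 hy2 hx5
  -- the circle of perturbations
  set ρ : ℕ → ℝ := fun n => 1 / ((n : ℝ) + 1) with hρd
  have hρp : ∀ n, 0 < ρ n := fun n => by rw [hρd]; positivity
  have hρ0 : Tendsto ρ atTop (𝓝 0) := tendsto_one_div_add_atTop_nhds_zero_nat
  set dir : ℝ → C(M, ℝ) := fun τ => Real.cos τ • f + Real.sin τ • ψ with hdir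
  have hdirc : Continuous dir := by
    rw [hdir]
    fun_prop
  have hdirb : ∀ τ, ‖dir τ‖ ≤ ‖f‖ + ‖ψ‖ := by
    intro τ
    refine (norm_add_le _ _).trans (add_le_add ?_ ?_)
    · rw [norm_smul, Real.norm_eq_abs]
      exact mul_le_of_le_one_left (norm_nonneg _) (Real.abs_cos_le_one τ)
    · rw [norm_smul, Real.norm_eq_abs]
      exact mul_le_of_le_one_left (norm_nonneg _) (Real.abs_sin_le_one τ)
  -- the perturbed metric is admissible
  have hform : ∀ (r τ : ℝ), φ + r • dir τ = φ0 + (s + r * Real.cos τ) • f + (w + (r * Real.sin τ) • ψ) := by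
    intro r τ
    rw [hφ, hdir]
    simp only [smul_add, smul_smul, add_smul]
    abel
  obtain ⟨δ, hδ, hδW⟩ := hWD w hw ψ hψD
  have hadm : ∀ᶠ n in atTop, ∀ τ : ℝ, |s + ρ n * Real.cos τ| < s1 ∧
      w + (ρ n * Real.sin τ) • ψ ∈ W ∧ Λ < Ev a (b (φ + ρ n • dir τ)) m := by
    have e1 : ∀ᶠ n in atTop, ρ n < s1 - |s| := hρ0.eventually (gt_mem_nhds (by linarith))
    have e2 : ∀ᶠ n in atTop, ρ n < δ := hρ0.eventually (gt_mem_nhds hδ)
    have e3 : Tendsto (fun n => Real.exp (ρ n * (‖f‖ + ‖ψ‖)) * Λ) atTop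
        (𝓝 (Real.exp (0 * (‖f‖ + ‖ψ‖)) * Λ)) :=
      ((Real.continuous_exp.tendsto _).comp (hρ0.mul_const _)).mul_const _
    rw [zero_mul, Real.exp_zero, one_mul] at e3
    have e4 : ∀ᶠ n in atTop, Real.exp (ρ n * (‖f‖ + ‖ψ‖)) * Λ < Ev a (b φ) m :=
      e3.eventually (gt_mem_nhds (by rw [hmE]; exact hΛj))
    filter_upwards [e1, e2, e4] with n h1 h2 h4 τ
    have c1 := Real.abs_cos_le_one τ
    have c2 := Real.abs_sin_le_one τ
    have hr := hρp n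
    refine ⟨?_, hδW _ ?_, ?_⟩
    · refine (abs_add_le _ _).trans_lt ?_
      rw [abs_mul, abs_of_pos hr]
      nlinarith
    · rw [abs_mul, abs_of_pos hr]
      nlinarith [abs_nonneg (Real.sin τ)]
    · by_contra hle
      push Not at hle
      have h5 := l3 φ (φ + ρ n • dir τ) m
      have h6 : ‖φ - (φ + ρ n • dir τ)‖ ≤ ρ n * (‖f‖ + ‖ψ‖) := by
        rw [sub_add_cancel_left, norm_neg, norm_smul, Real.norm_eq_abs, abs_of_pos hr]
        exact mul_le_mul_of_nonneg_left (hdirb τ) hr.le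
      have h7 : Real.exp ‖φ - (φ + ρ n • dir τ)‖ * Ev a (b (φ + ρ n • dir τ)) m ≤
          Real.exp (ρ n * (‖f‖ + ‖ψ‖)) * Λ :=
        mul_le_mul (Real.exp_le_exp.2 h6) hle (l1 _ _) (Real.exp_pos _).le
      linarith
  -- the two ends
  have hend1 := side hK hC hX hS φ f m hmlow hmp ρ hρ0 hρp t1 x1 hy1 ht3
  have hneg : ∀ (φ : C(M, ℝ)) (v : H), kb μ i (-f) φ v v = -kb μ i f φ v v := by
    intro φ v
    have h1 := klin f f φ (-1) 0 v v
    rw [zero_smul, add_zero, neg_one_smul, zero_mul, add_zero] at h1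
    linarith
  have hend2 := side hK hC hX hS φ (-f) m hmlow hmp ρ hρ0 hρp (-t1) x2 hy2 (by
    rw [hneg]
    linarith)
  -- unit eigenvectors exist
  have hexv : ∀ (φ : C(M, ℝ)) (k : ℕ), ∃ v, Uv a (b φ) (Ev a (b φ) k) v := by
    intro φ k
    obtain ⟨y, -, hy, -⟩ := hE M μ H i a b hS f φ k
    exact ⟨y, hy⟩
  have hmid : ∀ᶠ n in atTop, ∃ τ ∈ Icc 0 π, ∃ v, Uv a (b (φ + ρ n • dir τ))
      (Ev a (b (φ + ρ n • dir τ)) m) v ∧ kb μ i f (φ + ρ n • dir τ) v v = t1 := by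
    filter_upwards [hend1, hend2] with n h1 h2
    have d0 : dir 0 = f := by rw [hdir]; simp
    have dπ : dir π = -f := by rw [hdir]; simp
    obtain ⟨v1, hv1⟩ := hexv (φ + ρ n • dir 0) m
    obtain ⟨v2, hv2⟩ := hexv (φ + ρ n • dir π) m
    refine hCo M μ H i a b hS (fun τ => φ + ρ n • dir τ) 0 π Real.pi_pos.le
      (by fun_prop) f m t1 v1 v2 hv1 hv2 (Or.inr ⟨?_, ?_⟩)
    · have h3 := h2 v2 (by rw [← dπ]; exact hv2)
      rw [hneg, ← dπ] at h3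
      beta_reduce
      linarith
    · have h3 := h1 v1 (by rw [← d0]; exact hv1)
      rw [← d0] at h3
      beta_reduce
      rw [d0] at h3 ⊢
      exact h3
  obtain ⟨n0, hn0⟩ := (hmid.and hadm).exists_forall_of_atTop
  choose τ hτ v hv hvt using fun n : ℕ => (hn0 (n + n0) (Nat.le_add_left _ _)).1
  obtain ⟨τ0, -, θ, hθ, hθτ⟩ := isCompact_Icc.tendsto_subseq hτ
  -- the limit direction is not scalar
  have hns : ¬ ∃ β : ℝ, ∀ u v, Ws a (b φ) (Ev a (b φ) m) u → Ws a (b φ) (Ev a (b φ) m) v →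
      kb μ i (dir τ0) φ u v = β * b φ u v := by
    rintro ⟨β, hβ⟩
    have h12 := hβ x1 x2 hy1.eig hy2.eig
    have h11 := hβ x1 x1 hy1.eig hy1.eig
    have h22 := hβ x2 x2 hy2.eig hy2.eig
    rw [hdir] at h12 h11 h22
    beta_reduce at h12 h11 h22
    rw [klin] at h12 h11 h22
    rw [hx5, hx6, mul_zero, mul_zero, zero_add] at h12
    have hsin : Real.sin τ0 = 0 := by
      rcases mul_eq_zero.1 h12 with h | h
      · exact h
      · exact absurd h hψ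
    rw [hsin, zero_mul, add_zero, hy1.one, mul_one] at h11
    rw [hsin, zero_mul, add_zero, hy2.one, mul_one] at h22
    have hcs := Real.sin_sq_add_cos_sq τ0
    rw [hsin] at hcs
    have hne : Real.cos τ0 ≠ 0 := by
      intro h
      rw [h] at hcs
      norm_num at hcs
    have := mul_left_cancel₀ hne (h11.trans h22.symm)
    linarith
  have hρθ : Tendsto (fun n => ρ (θ n + n0)) atTop (𝓝 0) :=
    (hρ0.comp (tendsto_add_atTop_nat n0)).comp hθ.tendsto_atTop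
  have hψt : Tendsto (fun n => dir (τ (θ n))) atTop (𝓝 (dir τ0)) := (hdirc.tendsto τ0).comp hθτ
  have hdrop := hD M μ H i a b hS φ m hmlow hmp (fun n => dir (τ (θ n))) (dir τ0)
    (fun n => ρ (θ n + n0)) hψt hρθ (fun n => (hρp _).ne') hns
  obtain ⟨n, hn⟩ := hdrop.exists
  rw [← hdm] at hn
  obtain ⟨a1, a2, a3⟩ := (hn0 (θ n + n0) (Nat.le_add_left _ _)).2 (τ (θ n))
  refine absurd (Nat.sInf_le (m := {k | Ev a (b (φ + ρ (θ n + n0) • dir (τ (θ n)))) k =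
    Ev a (b (φ + ρ (θ n + n0) • dir (τ (θ n)))) m}.ncard) ?_) (not_le.2 hn)
  refine ⟨s + ρ (θ n + n0) * Real.cos (τ (θ n)), w + (ρ (θ n + n0) * Real.sin (τ (θ n))) • ψ, m,
    v (θ n), a1, a2, ?_, ?_, ?_, ?_⟩
  · rw [← hform]
    exact a3
  · rw [← hform]
    exact hv (θ n)
  · rw [← hform, hvt (θ n)]
    exact ht1
  · rw [← hform]

end

end Pool.Agent.H240.IX
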