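import Mathlib

/-!
# Existence of weak limits of probability densities on compact spaces
-/

set_option autoImplicit false

open Set Filter Topology MeasureTheory
open scoped ENNReal

noncomputable section

namespace Pool.Agent.H240.IX

theorem ql_ex {M : Type} [MetricSpace M] [CompactSpace M] [MeasurableSpace M] [BorelSpace M]
    {μ : Measure M} {w : ℕ → M → ℝ} (hw : ∀ n x, 0 ≤ w n x) (hint : ∀ n, Integrable (w n) μ)
    (hone : ∀ n, ∫ x, w n x ∂μ = 1) :
    ∃ (θ : ℕ → ℕ) (ν : Measure M), StrictMono θ ∧ IsProbabilityMeasure ν ∧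
      ∀ f : M → ℝ, Continuous f →
        Tendsto (fun n => ∫ x, f x * w (θ n) x ∂μ) atTop (𝓝 (∫ x, f x ∂ν)) := by
  have hpr : ∀ n, IsProbabilityMeasure (μ.withDensity fun x => ENNReal.ofReal (w n x)) := by
    intro n
    refine ⟨?_⟩
    rw [withDensity_apply _ MeasurableSet.univ, Measure.restrict_univ,
      ← ofReal_integral_eq_lintegral_ofReal (hint n) (Eventually.of_forall (hw n)), hone n,
      ENNReal.ofReal_one]
  have hI : ∀ n (f : M → ℝ), ∫ x, f x ∂(μ.withDensity fun x => ENNReal.ofReal (w n x)) =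
      ∫ x, f x * w n x ∂μ := by
    intro n f
    rw [integral_withDensity_eq_integral_toReal_smul₀ (hint n).aemeasurable.ennreal_ofReal
      (Eventually.of_forall fun x => ENNReal.ofReal_lt_top)]
    refine integral_congr_ae (Eventually.of_forall fun x => ?_)
    simp only [ENNReal.toReal_ofReal (hw n x), smul_eq_mul]
    ring
  set ρ : ℕ → ProbabilityMeasure M := fun n => ⟨_, hpr n⟩ with hρ
  obtain ⟨ν, θ, hθ, hν⟩ := CompactSpace.tendsto_subseq ρ
  refine ⟨θ, ν, hθ, inferInstance, fun f hf => ?_⟩
  rw [ProbabilityMeasure.tendsto_iff_forall_integral_tendsto] at hν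
  have h1 := hν (BoundedContinuousFunction.mkOfCompact ⟨f, hf⟩)
  refine h1.congr fun n => ?_
  exact hI (θ n) f

end Pool.Agent.H240.IX
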