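import Pool.Agent.H240.IX.DefH

/-!
# IX-20 (helper225 for helper240): a countable dense family of admissible functions
-/

set_option autoImplicit false

open Set Filter Topology MeasureTheory
open scoped ContDiff ComplexConjugate Real

noncomputable section

namespace Pool.Agent.H240.IX.A225

open Pool.Agent.Y262.EG Pool.Agent.Y262.EX Pool.Agent.Y262.EL Pool.Agent.Y262.QE
open Pool.Agent.Y264.QR Pool.Agent.H240.SC Pool.Agent.H240.SG Pool.Agent.H240.CG
open Pool.Agent.H240.IX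

theorem Om_open' : IsOpen Om := by
  have h1 : IsOpen {z : ℂ | -(7 / 2 * L0) < z.re} := isOpen_lt continuous_const Complex.continuous_re
  have h2 : IsOpen {z : ℂ | z.re < 9 / 2 * L0} := isOpen_lt Complex.continuous_re continuous_const
  exact h1.inter h2

theorem fn_cont {M : Type} [MetricSpace M] [CompactSpace M] {pr : ℂ → M} (hpr : PrM Om ac pr)
    {F : M → ℝ} {P : ℝ → ℝ} {ψ : M → ℝ} {α : ℝ} (h : Fn pr F P ψ α) : Continuous F := by
  have hA : AdW P 0 := ⟨h.rd.sm.contDiffOn, h.rd.far⟩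
  have h1 : ContinuousOn (fun z => F (pr z)) Om := by
    have h2 : ContinuousOn (fun z => Hf P 0 z + ψ (pr z)) Om :=
      (hfW hA).sm.continuousOn.add h.of.sm.continuousOn
    exact h2.congr fun z hz => h.eq z hz
  rw [continuous_def]
  intro V hV
  have h3 : IsOpen (Om ∩ (fun z => F (pr z)) ⁻¹' V) := h1.isOpen_inter_preimage Om_open' hV
  have h2 := hpr.opn _ h3 inter_subset_left
  have e : F ⁻¹' V = pr '' (Om ∩ (fun z => F (pr z)) ⁻¹' V) := by
    ext x
    constructor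
    · intro hx
      obtain ⟨z, hz, rfl⟩ : x ∈ pr '' Om := by
        rw [hpr.surj]
        trivial
      exact ⟨z, ⟨hz, hx⟩, rfl⟩
    · rintro ⟨z, ⟨hz1, hz2⟩, rfl⟩
      exact hz2
  rw [e]
  exact h2

theorem fn_zero {M : Type} (pr : ℂ → M) : Fn pr (fun _ => 0) (fun _ => 0) (fun _ => 0) 1 where
  rd := ⟨one_pos, contDiff_const, fun _ _ => rfl, fun _ _ => rfl⟩
  of := ⟨contDiffOn_const, fun _ _ => rfl⟩
  eq := by
    intro z _
    unfold Hf
    split_ifs <;> norm_num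

theorem stSepM : StSepM := by
  intro M _ _ pr hpr
  let A : Set C(M, ℝ) := {f | ∃ (P : ℝ → ℝ) (ψ : M → ℝ) (α : ℝ), Fn pr f P ψ α}
  have hne : Nonempty A := ⟨⟨⟨fun _ => 0, continuous_const⟩, fun _ => 0, fun _ => 0, 1, fn_zero pr⟩⟩
  have hd := TopologicalSpace.denseRange_denseSeq A
  choose P ψ α hF using fun k : ℕ => (TopologicalSpace.denseSeq A k).2
  refine ⟨fun k => ((TopologicalSpace.denseSeq A k : C(M, ℝ)) : M → ℝ), P, ψ, α, hF, ?_⟩
  intro F' P' ψ' α' h' ε hε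
  obtain ⟨k, hk⟩ := hd.exists_dist_lt (⟨⟨F', fn_cont hpr h'⟩, P', ψ', α', h'⟩ : A) hε
  refine ⟨k, fun x => ?_⟩
  have h1 : dist (⟨F', fn_cont hpr h'⟩ : C(M, ℝ)) (TopologicalSpace.denseSeq A k : C(M, ℝ)) < ε := hk
  have h2 := (ContinuousMap.dist_apply_le_dist (f := (⟨F', fn_cont hpr h'⟩ : C(M, ℝ)))
    (g := (TopologicalSpace.denseSeq A k : C(M, ℝ))) x).trans_lt h1
  rw [dist_comm, Real.dist_eq] at h2
  exact h2

end Pool.Agent.H240.IX.A225
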