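import Pool.Agent.H240.IX.Step3
import Pool.Agent.H240.CG.Fin

/-!
# Intervals of quantum limits: the sequence of profiles and its limit
-/

set_option autoImplicit false
set_option linter.unusedSectionVars false

open Set Filter Topology MeasureTheory
open scoped ContDiff ComplexConjugate Real

noncomputable section

namespace Pool.Agent.H240.IX

open Pool.Agent.Y262.EG Pool.Agent.Y262.EX Pool.Agent.Y262.EL Pool.Agent.Y262.QE
open Pool.Agent.Y264.QR Pool.Agent.H240.SC Pool.Agent.H240.SG Pool.Agent.H240.CG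

section

variable {g X : ℝ → ℝ} {c1 C0 c r m C : ℝ} {M P : Type} [MetricSpace M] [CompactSpace M]
  [MetricSpace P] [CompactSpace P] [MeasurableSpace M] [BorelSpace M] {pr : ℂ → M} {q : Y → P}
  {μ : Measure M} {D : Data M} {Φ : ℂ → M} {σ : M → M}

theorem seqI_ex (hAll : All) (hP : Prof g c1 C0) (hX : Cut X) (hpr : PrM Om ac pr)
    (hq : PrP Om ac q) (hB : Bs0 g X c1 pr μ D Φ σ) {O : Set ℂ} (hO : Fd O)
    (hpk : PK g g 0 (L0 / 2) m C) (F : ℕ → M → ℝ) (Pf : ℕ → ℝ → ℝ) (ψF : ℕ → M → ℝ) (α t : ℕ → ℝ)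
    (hF : ∀ n, Fn pr (F n) (Pf n) (ψF n) (α n)) {ε : ℝ} (hε : 0 < ε) :
    ∃ (S : ℕ → StI M) (p : ℕ → ℝ → ℝ) (e : ℕ → ℝ) (ψ : ℕ → M → ℝ) (θ : ℕ → ℝ), (S 0).G = g ∧
      (S 0).c = 0 ∧ (∀ x, (S 0).Ψ x = 0) ∧ (S 0).ρ ≤ ε ∧ m / 2 ≤ (S 0).m - 2 * (S 0).ρ ∧
      (∀ n, IvI pr g (S n)) ∧
      ∀ n, RelI pr c1 O (F n) (t n) (α n) n (S n) (S (n + 1)) (p n) (e n) (ψ n) (θ n) := by
  have h0 := L0p
  have hm := hpk.mp
  let T : Type := {S : StI M // IvI pr g S}
  have hstep : ∀ (n : ℕ) (S : T), ∃ S' : T, ∃ (p : ℝ → ℝ) (e : ℝ) (ψ : M → ℝ) (θ : ℝ),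
      RelI pr c1 O (F n) (t n) (α n) n S.1 S'.1 p e ψ θ := by
    intro n S
    obtain ⟨S', p, e, ψ, θ, h1, h2⟩ := step_ex hAll hP hX hpr hq hB hO S.2 (hF n) (t n) n
    exact ⟨⟨S', h1⟩, p, e, ψ, θ, h2⟩
  choose Fs hFs using hstep
  let S0 : T := ⟨⟨g, 0, L0 / 2, m, C, min (min (1 / 4) (m / 4)) ε, fun _ => 0⟩,
    ⟨hpk, lt_min (lt_min (by norm_num) (by linarith)) hε,
      (min_le_left _ _).trans (min_le_left _ _), by
      have := (min_le_left (min (1 / 4) (m / 4)) ε).trans (min_le_right (1 / 4 : ℝ) (m / 4))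
      show 4 * min (min (1 / 4) (m / 4)) ε ≤ m
      linarith, ⟨contDiffOn_const, fun _ _ => rfl⟩⟩⟩
  let Sq : ℕ → T := fun n => Nat.rec S0 (fun n S => Fs n S) n
  have hSq : ∀ n, Sq (n + 1) = Fs n (Sq n) := fun n => rfl
  have hrel : ∀ n, ∃ (p : ℝ → ℝ) (e : ℝ) (ψ : M → ℝ) (θ : ℝ),
      RelI pr c1 O (F n) (t n) (α n) n (Sq n).1 (Sq (n + 1)).1 p e ψ θ := by
    intro n
    rw [hSq]
    exact hFs n (Sq n)
  choose p e ψ θ hpe using hrel
  refine ⟨fun n => (Sq n).1, p, e, ψ, θ, rfl, rfl, fun x => rfl, min_le_right _ _, ?_,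
    fun n => (Sq n).2, hpe⟩
  have := (min_le_left (min (1 / 4) (m / 4)) ε).trans (min_le_right (1 / 4 : ℝ) (m / 4))
  show m / 2 ≤ m - 2 * min (min (1 / 4) (m / 4)) ε
  linarith

theorem limI_ex (hP : Prof g c1 C0) {O : Set ℂ} {F : ℕ → M → ℝ} {α t : ℕ → ℝ} {S : ℕ → StI M}
    {p : ℕ → ℝ → ℝ} {e : ℕ → ℝ} {ψ : ℕ → M → ℝ} {θ : ℕ → ℝ} (hS0 : (S 0).G = g)
    (hS0c : (S 0).c = 0) (hI : ∀ n, IvI pr g (S n))
    (hR : ∀ n, RelI pr c1 O (F n) (t n) (α n) n (S n) (S (n + 1)) (p n) (e n) (ψ n) (θ n)) :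
    ∃ (G : ℝ → ℝ) (c C : ℝ) (T : ℕ → ℝ → ℝ) (E : ℕ → ℝ), Prof2 G (c1 + c) C ∧
      deriv (deriv G) (L0 / 2) = 0 ∧ AdW (fun x => G x - g x) c ∧
      Tendsto (fun n => (S n).r) atTop (𝓝 0) ∧ Tendsto (fun n => (S n).ρ) atTop (𝓝 0) ∧
      (∀ k, Summable fun n => (S (n + k)).ρ) ∧ (∀ k, ∑' n, (S (n + k)).ρ ≤ 2 * (S k).ρ) ∧
      (∀ x ∈ I0, |G x - g x| ≤ 2 * (S 0).ρ) ∧ |c| ≤ 2 * (S 0).ρ ∧
      (∀ x, |x - L0 / 2| < 4 / 5 * L0 →
        (1 - 2 * (S 0).ρ) * deriv (deriv g) x ≤ deriv (deriv G) x) ∧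
      (∀ x, 4 / 5 * L0 ≤ |x - L0 / 2| → |x - L0 / 2| ≤ 9 / 10 * L0 →
        (S 0).m - 2 * (S 0).ρ ≤ deriv (deriv G) x) ∧
      (∀ x, 9 / 10 * L0 ≤ |x - L0 / 2| → G x = g x + c) ∧
      ∀ k, AdW (T k) (E k) ∧ (∀ x, G x = (S k).G x + T k x) ∧ c = (S k).c + E k ∧
        (∀ x, |T k x| ≤ 2 * (S k).ρ) ∧ |E k| ≤ 2 * (S k).ρ := by
  have hL := L0p
  obtain ⟨hρg, hρs, hρt, hρ0⟩ := rho_sum (ρ := fun n => (S n).ρ) (fun n => (hI n).ρp)
    (fun n => (hR n).ρ)
  have hs0 : Summable fun n => (S n).ρ := by simpa using hρs 0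
  -- the tails
  set T : ℕ → ℝ → ℝ := fun k x => ∑' n, p (n + k) x with hT
  have hpsm : ∀ n, ContDiff ℝ ∞ (p n) := fun n => (hR n).cls.sm
  have hpb : ∀ n, ∀ j ≤ n + 3, ∀ x, |iteratedDeriv j (p n) x| ≤ (S n).ρ := fun n j hj x =>
    (hR n).cls.bd j hj x
  have hpb0 : ∀ n x, ‖p n x‖ ≤ (S n).ρ := fun n x => by
    have := hpb n 0 (by omega) x
    rwa [iteratedDeriv_zero] at this
  have hTsm : ∀ k, ContDiff ℝ ∞ (T k) := fun k =>
    tail_cd (hρs k) (fun n => hpsm (n + k)) (k := 0)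
      (fun n j hj x => hpb (n + k) j (by omega) x)
  have hT3 := fun k => tail3 (hρs k) (fun n => hpsm (n + k))
    (fun n j hj x => hpb (n + k) j (by omega) x) (T := T k) (fun x => rfl)
  -- the limits of the constants
  have hfar : ∀ n x, 9 / 10 * L0 ≤ |x - L0 / 2| → p n x = e n := fun n => (hR n).cls.far
  set E : ℕ → ℝ := fun k => ∑' n, e (n + k) with hE
  have hTfar : ∀ k x, 9 / 10 * L0 ≤ |x - L0 / 2| → T k x = E k := fun k x hx => by
    simp only [hT, hE]
    exact tsum_congr fun n => hfar (n + k) x hx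
  -- the profile
  set W : ℝ → ℝ := T 0 with hW
  set G : ℝ → ℝ := fun x => g x + W x with hG
  have hpart : ∀ k x, (S k).G x = g x + ∑ i ∈ Finset.range k, p i x := by
    intro k x
    induction k with
    | zero => rw [hS0]; simp
    | succ k ih =>
      rw [(hR k).cls.eq x, ih, Finset.sum_range_succ]
      ring
  have hcpart : ∀ k, (S k).c = ∑ i ∈ Finset.range k, e i := by
    intro k
    induction k with
    | zero => rw [hS0c]; simp
    | succ k ih =>
      rw [(hR k).c, ih, Finset.sum_range_succ]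
  have hsx : ∀ x, Summable fun n => p n x := fun x => Summable.of_norm_bounded hs0 fun n => hpb0 n x
  have hGk : ∀ k x, G x = (S k).G x + T k x := by
    intro k x
    have h1 := (hsx x).sum_add_tsum_nat_add k
    have h2 : W x = ∑' n, p n x := by simp [hW, hT]
    rw [hG, hpart k x]
    beta_reduce
    rw [h2, ← h1]
    ring
  have hse : Summable e := by
    have h1 := hsx (L0 / 2 + L0)
    have h2 : (fun n => p n (L0 / 2 + L0)) = e := by
      funext n
      refine hfar n _ ?_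
      rw [add_sub_cancel_left, abs_of_pos hL]
      linarith
    rwa [h2] at h1
  set c : ℝ := E 0 with hc
  have hck : ∀ k, c = (S k).c + E k := by
    intro k
    have h1 := hse.sum_add_tsum_nat_add k
    have h2 : c = ∑' n, e n := by simp [hc, hE]
    rw [h2, hcpart k, ← h1]
  -- closeness of the derivatives
  have hderiv : ∀ k, ∀ x ∈ I0, deriv G x = deriv (S k).G x + deriv (T k) x ∧
      deriv (deriv G) x = deriv (deriv (S k).G) x + deriv (deriv (T k)) x ∧
      deriv (deriv (deriv G)) x = deriv (deriv (deriv (S k).G)) x + deriv (deriv (deriv (T k))) x := by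
    intro k x hx
    obtain ⟨h1, h2, h3⟩ := d_three I0_open (fun x hx => hx) (hI k).pk.sm (hTsm k) 1 1
      (F := G) (fun x _ => by rw [hGk k x]; ring)
    refine ⟨?_, ?_, ?_⟩
    · rw [h1 x hx]; ring
    · rw [h2 x hx]; ring
    · rw [h3 x hx]; ring
  have hlim : ∀ (a : ℝ) (b t : ℕ → ℝ), (∀ k, a = b k + t k) → (∀ k, |t k| ≤ ∑' n, (S (n + k)).ρ) →
      Tendsto b atTop (𝓝 a) := by
    intro a b t hab ht
    have h1 : Tendsto t atTop (𝓝 0) := by
      refine squeeze_zero_norm (a := fun k => 2 * (S k).ρ) (fun k => ?_) ?_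
      · rw [Real.norm_eq_abs]
        exact (ht k).trans (hρt k)
      · simpa using hρ0.const_mul 2
    have h2 : b = fun k => a - t k := by
      funext k
      rw [hab k]
      ring
    rw [h2]
    simpa using h1.const_sub a
  have hl1 : ∀ x ∈ I0, Tendsto (fun k => deriv (S k).G x) atTop (𝓝 (deriv G x)) := fun x hx =>
    hlim _ _ _ (fun k => (hderiv k x hx).1) fun k => (hT3 k).2.1 x
  have hl2 : ∀ x ∈ I0, Tendsto (fun k => deriv (deriv (S k).G) x) atTop (𝓝 (deriv (deriv G) x)) :=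
    fun x hx => hlim _ _ _ (fun k => (hderiv k x hx).2.1) fun k => (hT3 k).2.2.1 x
  have hl3 : ∀ x ∈ I0, Tendsto (fun k => deriv (deriv (deriv (S k).G)) x) atTop
      (𝓝 (deriv (deriv (deriv G)) x)) :=
    fun x hx => hlim _ _ _ (fun k => (hderiv k x hx).2.2) fun k => (hT3 k).2.2.2 x
  have hl0 : ∀ x, Tendsto (fun k => (S k).G x) atTop (𝓝 (G x)) := fun x =>
    hlim _ _ _ (fun k => hGk k x) fun k => (hT3 k).1 x
  -- bounds of the constants
  have hm : ∀ k, (S 0).m - 2 * (S 0).ρ ≤ (S k).m := by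
    have h1 : ∀ k, (S 0).m - 2 * (S 0).ρ ≤ (S k).m - 2 * (S k).ρ := by
      intro k
      induction k with
      | zero => exact le_rfl
      | succ k ih =>
        have h2 := (hR k).m
        have h3 := (hR k).ρ
        linarith
    intro k
    have h2 := h1 k
    have h3 := (hI k).ρp
    linarith
  have hC : ∀ k, (S k).C ≤ (S 0).C + 2 * (S 0).ρ := by
    have h1 : ∀ k, (S k).C + 2 * (S k).ρ ≤ (S 0).C + 2 * (S 0).ρ := by
      intro k
      induction k with
      | zero => exact le_rfl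
      | succ k ih =>
        have h2 := (hR k).C
        have h3 := (hR k).ρ
        linarith
    intro k
    have h2 := h1 k
    have h3 := (hI k).ρp
    linarith
  set m0 : ℝ := (S 0).m - 2 * (S 0).ρ with hm0
  have hm0p : 0 < m0 := by
    have h1 := (hI 0).ρm
    have h2 := (hI 0).ρp
    linarith
  set K1 : ℝ := (S 0).C + 2 * (S 0).ρ with hK1
  have hK1p : 0 ≤ K1 := by
    have h1 := (hI 0).pk.Cp
    have h2 := (hI 0).ρp
    linarith
  have hrk : ∀ k, (S k).r = (S 0).r * (1 / 2) ^ k := by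
    intro k
    induction k with
    | zero => simp
    | succ k ih =>
      rw [(hR k).r, ih, pow_succ]
      ring
  have hr0 : Tendsto (fun k => (S k).r) atTop (𝓝 0) := by
    have h1 : (fun k => (S k).r) = fun k => (S 0).r * (1 / 2) ^ k := funext hrk
    rw [h1]
    simpa using (tendsto_pow_atTop_nhds_zero_of_lt_one (r := (1 / 2 : ℝ)) (by norm_num)
      (by norm_num)).const_mul (S 0).r
  -- monotonicity of the second derivative
  have hmono : ∀ k, ∀ x, |x - L0 / 2| < 4 / 5 * L0 →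
      (1 - 2 * (S k).ρ) * deriv (deriv (S k).G) x ≤ deriv (deriv G) x := by
    intro k x hx
    have hxI : x ∈ I0 := mem_I0 (by linarith)
    have h1 : ∀ i, (1 - 2 * (S (i + k)).ρ) * deriv (deriv (S (i + k)).G) x ≤
        (1 - 2 * (S (i + k + 1)).ρ) * deriv (deriv (S (i + k + 1)).G) x := by
      intro i
      have h2 := (hR (i + k)).cls.low x hx
      have h3 := (hR (i + k)).ρ
      have h4 := (hI (i + k)).pk.cvx x hx
      have h5 := (hI (i + k)).ρp
      have h6 := (hI (i + k)).ρh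
      have h7 := (hI (i + k + 1)).ρp
      set y := deriv (deriv (S (i + k)).G) x
      set y' := deriv (deriv (S (i + k + 1)).G) x
      have h8 : (1 - 2 * (S (i + k)).ρ) * y ≤ (1 - (S (i + k)).ρ) * ((1 - (S (i + k)).ρ) * y) := by
        have h9 : 0 ≤ (S (i + k)).ρ ^ 2 * y := by positivity
        nlinarith
      have h10 : (1 - (S (i + k)).ρ) * ((1 - (S (i + k)).ρ) * y) ≤ (1 - (S (i + k)).ρ) * y' :=
        mul_le_mul_of_nonneg_left h2 (by linarith)
      have h11 : 0 ≤ y' := (hI (i + k + 1)).pk.cvx x hx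
      have h12 : (1 - (S (i + k)).ρ) * y' ≤ (1 - 2 * (S (i + k + 1)).ρ) * y' :=
        mul_le_mul_of_nonneg_right (by linarith) h11
      linarith
    have h2 : ∀ i, (1 - 2 * (S k).ρ) * deriv (deriv (S k).G) x ≤
        (1 - 2 * (S (i + k)).ρ) * deriv (deriv (S (i + k)).G) x := by
      intro i
      induction i with
      | zero => simp
      | succ i ih =>
        have h3 := h1 i
        have e1 : i + 1 + k = i + k + 1 := by ring
        rw [e1]
        exact ih.trans h3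
    have h3 : Tendsto (fun i => (1 - 2 * (S (i + k)).ρ) * deriv (deriv (S (i + k)).G) x) atTop
        (𝓝 ((1 - 2 * 0) * deriv (deriv G) x)) := by
      have h4 := (((hρ0.const_mul 2).const_sub 1).mul (hl2 x hxI))
      exact h4.comp (tendsto_add_atTop_nat k)
    have h4 : (1 - 2 * (0 : ℝ)) * deriv (deriv G) x = deriv (deriv G) x := by ring
    rw [h4] at h3
    exact ge_of_tendsto h3 (Eventually.of_forall h2)
  have hfar2 : ∀ x ∈ I0, 9 / 10 * L0 < |x - L0 / 2| → deriv (deriv G) x = deriv (deriv g) x := by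
    intro x hxI hx
    have h1 := hl2 x hxI
    have h2 : (fun k => deriv (deriv (S k).G) x) = fun _ => deriv (deriv g) x := by
      funext k
      exact (hI k).pk.far2 hx
    rw [h2] at h1
    exact tendsto_nhds_unique tendsto_const_nhds h1 |>.symm
  have hfar3 : ∀ x ∈ I0, 9 / 10 * L0 < |x - L0 / 2| →
      deriv (deriv (deriv G)) x = deriv (deriv (deriv g)) x := by
    intro x hxI hx
    have hO : IsOpen (I0 ∩ {x : ℝ | 9 / 10 * L0 < |x - L0 / 2|}) :=
      I0_open.inter (isOpen_lt continuous_const (by fun_prop))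
    have h1 : deriv (deriv G) =ᶠ[𝓝 x] deriv (deriv g) := by
      filter_upwards [hO.mem_nhds ⟨hxI, hx⟩] with y hy
      exact hfar2 y hy.1 hy.2
    exact h1.deriv_eq
  have hmid : ∀ x, 4 / 5 * L0 ≤ |x - L0 / 2| → |x - L0 / 2| ≤ 9 / 10 * L0 →
      m0 ≤ deriv (deriv G) x := by
    intro x h1 h2
    have hxI : x ∈ I0 := mem_I0 (by linarith)
    exact ge_of_tendsto (hl2 x hxI) (Eventually.of_forall fun k => (hm k).trans
      ((hI k).pk.mid x h1 h2))
  have hGsm : ContDiffOn ℝ ∞ G I0 := hP.smooth.add (hTsm 0).contDiffOn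
  have hcvx : ∀ x ∈ I0, 0 ≤ deriv (deriv G) x := fun x hx =>
    ge_of_tendsto (hl2 x hx) (Eventually.of_forall fun k => (hI k).pk.cvxI hP hx)
  -- the third derivative in the middle
  obtain ⟨K2, hK2⟩ := (isCompact_Icc (a := -L0) (b := 2 * L0)).exists_bound_of_continuousOn
    ((deriv_smooth (deriv_smooth (deriv_smooth hGsm))).continuousOn.mono fun x hx =>
      (mem_I0 (by
        rw [abs_lt]
        constructor <;> linarith [hx.1, hx.2]) : x ∈ I0))
  have hm0r : 0 < m0 ^ (39 / 40 : ℝ) := Real.rpow_pos_of_pos hm0p _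
  have hG2 : deriv (deriv G) (L0 / 2) = 0 := by
    have hxI : L0 / 2 ∈ I0 := mem_I0 (by rw [sub_self, abs_zero]; positivity)
    have h1 : (fun k => deriv (deriv (S k).G) (L0 / 2)) = fun _ => 0 := by
      funext k
      have hO : IsOpen {x : ℝ | |x - L0 / 2| < (S k).r} := isOpen_lt (by fun_prop) continuous_const
      have h2 : (S k).G =ᶠ[𝓝 (L0 / 2)] fun _ => 0 := by
        filter_upwards [hO.mem_nhds (by
          show |L0 / 2 - L0 / 2| < (S k).r
          rw [sub_self, abs_zero]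
          exact (hI k).pk.rp)] with y hy
        exact (hI k).pk.flat y (le_of_lt hy)
      rw [h2.deriv.deriv_eq]
      simp
    have h2 := hl2 (L0 / 2) hxI
    rw [h1] at h2
    exact (tendsto_nhds_unique tendsto_const_nhds h2).symm
  have hTb : ∀ k x, |T k x| ≤ 2 * (S k).ρ := fun k x => ((hT3 k).1 x).trans (hρt k)
  have hEb : ∀ k, |E k| ≤ 2 * (S k).ρ := by
    intro k
    have h1 := hTb k (L0 / 2 + L0)
    rwa [hTfar k _ (by
      rw [add_sub_cancel_left, abs_of_pos hL]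
      linarith)] at h1
  refine ⟨G, c, K1 + |K2| / m0 ^ (39 / 40 : ℝ) + |C0|, T, E,
    ⟨hGsm, ?_, ?_, ?_, hcvx, ?_, ?_⟩, hG2, ⟨?_, ?_⟩, hr0, hρ0, hρs, hρt, ?_, hEb 0, ?_, hmid, ?_,
    fun k => ⟨⟨(hTsm _).contDiffOn, hTfar k⟩, fun x => hGk k x, hck k, hTb k, hEb k⟩⟩
  · intro x hx hx2
    have h1 : G x = g x + W x := rfl
    have h2 : W x = c := hTfar 0 x (by linarith)
    rw [h1, h2, hP.hyp x hx hx2]
    ring
  · have h1 : (fun k => (S k).G (L0 / 2)) = fun _ => 0 := by
      funext k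
      refine (hI k).pk.flat _ ?_
      rw [sub_self, abs_zero]
      exact (hI k).pk.rp.le
    have h2 := hl0 (L0 / 2)
    rw [h1] at h2
    exact (tendsto_nhds_unique tendsto_const_nhds h2).symm
  · have hxI : L0 / 2 ∈ I0 := mem_I0 (by rw [sub_self, abs_zero]; positivity)
    have h1 : (fun k => deriv (S k).G (L0 / 2)) = fun _ => 0 := by
      funext k
      have hO : IsOpen {x : ℝ | |x - L0 / 2| < (S k).r} := isOpen_lt (by fun_prop) continuous_const
      have h2 : (S k).G =ᶠ[𝓝 (L0 / 2)] fun _ => 0 := by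
        filter_upwards [hO.mem_nhds (by
          show |L0 / 2 - L0 / 2| < (S k).r
          rw [sub_self, abs_zero]
          exact (hI k).pk.rp)] with y hy
        exact (hI k).pk.flat y (le_of_lt hy)
      rw [h2.deriv_eq, deriv_const]
    have h2 := hl1 (L0 / 2) hxI
    rw [h1] at h2
    have h3 := tendsto_nhds_unique tendsto_const_nhds h2
    rw [h3]
    exact (diff_of hGsm hxI).hasDerivAt
  · intro x hx h00
    rcases tri x with h1 | h1 | h1
    · have h2 : ∀ k, |x - L0 / 2| ≤ (S k).r := by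
        intro k
        refine (hI k).pk.zero x h1 ?_
        have h3 := hmono k x h1
        rw [h00] at h3
        have h4 := (hI k).pk.cvx x h1
        have h5 := (hI k).ρh
        have h6 := (hI k).ρp
        nlinarith
      have h3 : |x - L0 / 2| ≤ 0 := ge_of_tendsto hr0 (Eventually.of_forall h2)
      have h4 := abs_nonpos_iff.1 h3
      linarith
    · have h2 := hmid x h1.1 h1.2
      rw [h00] at h2
      linarith
    · rw [hfar2 x hx h1] at h00
      have h2 := hP.zero x hx h00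
      have h3 : |x - L0 / 2| ≤ L0 / 2 := by
        rw [abs_le]
        constructor <;> linarith [h2.1, h2.2]
      linarith
  · intro x hx
    have hxI : x ∈ I0 := mem_I0 (by linarith)
    have hy0 := hcvx x hxI
    have hyp : 0 ≤ deriv (deriv G) x ^ (39 / 40 : ℝ) := Real.rpow_nonneg hy0 _
    have hfr : 0 ≤ |K2| / m0 ^ (39 / 40 : ℝ) := by positivity
    rcases tri x with h1 | h1 | h1
    · have h2 : |deriv (deriv (deriv G)) x| ≤ K1 * (deriv (deriv G) x) ^ (39 / 40 : ℝ) := by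
        refine le_of_tendsto_of_tendsto' (hl3 x hxI).abs
          (((hl2 x hxI).rpow_const (Or.inr (by norm_num))).const_mul K1) fun k => ?_
        exact ((hI k).pk.der x h1).trans (mul_le_mul_of_nonneg_right (hC k)
          (Real.rpow_nonneg ((hI k).pk.cvx x h1) _))
      refine h2.trans (mul_le_mul_of_nonneg_right ?_ hyp)
      linarith [abs_nonneg C0]
    · have h2 : m0 ^ (39 / 40 : ℝ) ≤ (deriv (deriv G) x) ^ (39 / 40 : ℝ) :=
        Real.rpow_le_rpow hm0p.le (hmid x h1.1 h1.2) (by norm_num)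
      have h3 := abs_le.1 h1.2
      have h4 := hK2 x ⟨by linarith [h3.1], by linarith [h3.2]⟩
      rw [Real.norm_eq_abs] at h4
      have h5 : |deriv (deriv (deriv G)) x| ≤ |K2| / m0 ^ (39 / 40 : ℝ) *
          (deriv (deriv G) x) ^ (39 / 40 : ℝ) := by
        refine (h4.trans (le_abs_self _)).trans ?_
        rw [div_mul_eq_mul_div, le_div_iff₀ hm0r]
        exact mul_le_mul_of_nonneg_left h2 (abs_nonneg _)
      refine h5.trans (mul_le_mul_of_nonneg_right ?_ hyp)
      linarith [abs_nonneg C0]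
    · have h2 := hP.der x hx
      rw [hfar3 x hxI h1, hfar2 x hxI h1]
      refine h2.trans (mul_le_mul_of_nonneg_right ?_ ?_)
      · linarith [le_abs_self C0]
      · exact Real.rpow_nonneg (hP.cvx x hxI) _
  · have h1 : ContDiffOn ℝ ∞ W I0 := (hTsm 0).contDiffOn
    refine h1.congr fun x _ => ?_
    simp only [hG]
    ring
  · intro x hx
    have h1 : W x = c := hTfar 0 x hx
    simp only [hG]
    rw [h1]
    ring
  · intro x _
    have h1 : G x - g x = T 0 x := by
      simp only [hG]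
      ring
    rw [h1]
    exact hTb 0 x
  · intro x hx
    have h1 := hmono 0 x hx
    rwa [hS0] at h1
  · intro x hx
    have h1 : G x = g x + W x := rfl
    have h2 : W x = c := hTfar 0 x hx
    rw [h1, h2]

end

end Pool.Agent.H240.IX
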