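import Pool.Agent.H240.IX.Stg

/-!
# Intervals of quantum limits: one step of the construction, part two
-/

set_option autoImplicit false
set_option linter.unusedSectionVars false

open Set Filter Topology MeasureTheory
open scoped ContDiff ComplexConjugate Real

noncomputable section

namespace Pool.Agent.H240.IX

open Pool.Agent.Y262.EG Pool.Agent.Y262.EX Pool.Agent.Y262.EL Pool.Agent.Y262.QE
open Pool.Agent.Y264.QR Pool.Agent.H240.SC Pool.Agent.H240.SG Pool.Agent.H240.CG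
open Pool.Agent.H240.NX (avg_eq)

/-- the state of the construction -/
structure StI (M : Type) where
  /-- the profile -/
  G : ℝ → ℝ
  /-- the constant -/
  c : ℝ
  /-- the radius of the flat cylinder -/
  r : ℝ
  /-- the lower bound of the second derivative -/
  m : ℝ
  /-- the constant for the third derivative -/
  C : ℝ
  /-- the size of the next perturbation -/
  ρ : ℝ
  /-- the perturbation off the collar -/
  Ψ : M → ℝ

/-- the invariant -/
structure IvI {M : Type} (pr : ℂ → M) (g : ℝ → ℝ) (S : StI M) : Prop where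
  pk : PK g S.G S.c S.r S.m S.C
  ρp : 0 < S.ρ
  ρh : S.ρ ≤ 1 / 4
  ρm : 4 * S.ρ ≤ S.m
  of : Of pr S.Ψ

/-- For all metrics near the metric `φ` there is an eigenfunction with a large eigenvalue and
`∫ F u²` near `t`, for every basis. -/
def Win {M : Type} [MeasurableSpace M] (pr : ℂ → M) (φ : ℂ → ℝ) (F : M → ℝ) (t : ℝ) (N : ℕ)
    (θ : ℝ) : Prop :=
  ∀ f : M → ℝ, ContDiffOn ℝ ∞ (fun z => f (pr z)) Om → (∀ x, |f x| < θ) →
    ∀ μ : Measure M, IsArea Om (fun z => φ z + f (pr z)) pr μ →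
    ∀ (u : ℕ → M → ℝ) (lam : ℕ → ℝ), EB Om (fun z => φ z + f (pr z)) pr μ u lam →
    ∃ j, (N : ℝ) < lam j ∧ |(∫ x, F x * (u j x) ^ 2 ∂μ) - t| < 1 / ((N : ℝ) + 1)

/-- one step of the construction -/
structure RelI {M : Type} [MeasurableSpace M] (pr : ℂ → M) (c1 : ℝ) (O : Set ℂ) (F : M → ℝ)
    (t α : ℝ) (n : ℕ) (S S' : StI M) (p : ℝ → ℝ) (e : ℝ) (ψ : M → ℝ) (θ : ℝ) : Prop where
  cls : Cls' S.G S'.G S.ρ (n + 3) p e
  c : S'.c = S.c + e
  r : S'.r = S.r / 2
  m : S'.m = S.m - S.ρ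
  C : S'.C = S.C + S.ρ
  ρ : S'.ρ ≤ S.ρ / 2
  Ψ : ∀ x, S'.Ψ x = S.Ψ x + ψ x
  of : Of pr ψ
  bd : Bd pr O ψ (n + 3) S.ρ
  θp : 0 < θ
  ρθ : 8 * S'.ρ ≤ θ
  win : S'.r < α → t < 0 →
    (∀ ν : Measure M, IsArea Om (fun z => phi S'.G (c1 + S'.c) z + S'.Ψ (pr z)) pr ν →
      (∫ x, F x ∂ν) / ν.real univ < t) →
    Win pr (fun z => phi S'.G (c1 + S'.c) z + S'.Ψ (pr z)) F t n θ

theorem pk_mono {g G : ℝ → ℝ} {c r m C m' C' : ℝ} (h : PK g G c r m C) (h1 : 0 < m') (h2 : m' ≤ m)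
    (h3 : C ≤ C') : PK g G c r m' C' where
  rp := h.rp
  rL := h.rL
  mp := h1
  Cp := h.Cp.trans h3
  sm := h.sm
  far := h.far
  flat := h.flat
  cvx := h.cvx
  zero := h.zero
  mid := fun x hx hx2 => h2.trans (h.mid x hx hx2)
  der := fun x hx => (h.der x hx).trans (mul_le_mul_of_nonneg_right h3
    (Real.rpow_nonneg (h.cvx x hx) _))

theorem cls_mono {G G' p : ℝ → ℝ} {ρ ρ' e : ℝ} {N : ℕ} (h : Cls' G G' ρ N p e) (hρ : ρ ≤ ρ')
    (hG : ∀ x, |x - L0 / 2| < 4 / 5 * L0 → 0 ≤ deriv (deriv G) x) : Cls' G G' ρ' N p e where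
  eq := h.eq
  sm := h.sm
  bd := fun n hn x => (h.bd n hn x).trans hρ
  far := h.far
  low := fun x hx => (mul_le_mul_of_nonneg_right (by linarith) (hG x hx)).trans (h.low x hx)

theorem cls_comp {G G' G'' p p' : ℝ → ℝ} {ρ1 ρ2 e e' : ℝ} {N : ℕ} (h : Cls' G G' ρ1 N p e)
    (h' : Cls' G' G'' ρ2 N p' e') (h1 : 0 ≤ ρ1) (h2 : 0 ≤ ρ2) (h3 : ρ2 ≤ 1)
    (hG : ∀ x, |x - L0 / 2| < 4 / 5 * L0 → 0 ≤ deriv (deriv G) x) :
    Cls' G G'' (ρ1 + ρ2) N (fun x => p x + p' x) (e + e') where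
  eq := fun x => by rw [h'.eq, h.eq]; ring
  sm := h.sm.add h'.sm
  bd := fun n hn x => by
    have n1 : ContDiffAt ℝ n p x := (h.sm.of_le (by exact_mod_cast le_top)).contDiffAt
    have n2 : ContDiffAt ℝ n p' x := (h'.sm.of_le (by exact_mod_cast le_top)).contDiffAt
    rw [iteratedDeriv_fun_add n1 n2]
    exact (abs_add_le _ _).trans (add_le_add (h.bd n hn x) (h'.bd n hn x))
  far := fun x hx => by rw [h.far x hx, h'.far x hx]
  low := fun x hx => by
    have a1 := h.low x hx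
    have a2 := h'.low x hx
    have a3 := hG x hx
    have a4 := mul_le_mul_of_nonneg_left a1 (sub_nonneg.2 h3)
    have a5 : 0 ≤ ρ1 * ρ2 * deriv (deriv G) x := by positivity
    nlinarith

theorem at_of {M : Type} {pr : ℂ → M} {O : Set ℂ} (hO : Fd O) {ψ : M → ℝ}
    (h : ContDiffOn ℝ ∞ (fun z => ψ (pr z)) Om) (j : ℕ) {z : ℂ} (hz : z ∈ O) :
    ContDiffAt ℝ j (fun z => ψ (pr z)) z :=
  (h.contDiffAt (tAct.opn.mem_nhds (hO.sub (subset_closure hz)))).of_le (by exact_mod_cast le_top)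

theorem bd_lin {M : Type} {pr : ℂ → M} {O : Set ℂ} (hO : Fd O) {ψ ψ' : M → ℝ} (h : Of pr ψ)
    (h' : Of pr ψ') {N : ℕ} {K K' : ℝ} (hb : Bd pr O ψ N K) (hb' : Bd pr O ψ' N K') (s : ℝ) :
    Of pr (fun x => ψ x + s * ψ' x) ∧ Bd pr O (fun x => ψ x + s * ψ' x) N (K + |s| * K') := by
  refine ⟨⟨h.sm.add (contDiffOn_const.mul h'.sm), fun z hz => ?_⟩, fun j hj z hz => ?_⟩
  · show ψ (pr z) + s * ψ' (pr z) = 0
    rw [h.zero z hz, h'.zero z hz]
    ring
  · have h1 := at_of hO h.sm j hz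
    have h2 := at_of hO h'.sm j hz
    have h3 : ContDiffAt ℝ j (fun z => s • ψ' (pr z)) z := h2.const_smul s
    have e1 : (fun z => (fun x => ψ x + s * ψ' x) (pr z)) = fun z => ψ (pr z) + s • ψ' (pr z) := rfl
    rw [e1, fun_iteratedFDeriv_add_apply h1 h3, iteratedFDeriv_const_smul_apply' h2]
    refine (norm_add_le _ _).trans (add_le_add (hb j hj z hz) ?_)
    rw [norm_smul, Real.norm_eq_abs]
    exact mul_le_mul_of_nonneg_left (hb' j hj z hz) (abs_nonneg _)

theorem of_zero {M : Type} (pr : ℂ → M) (O : Set ℂ) (N : ℕ) :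
    Of pr (fun _ => (0 : ℝ)) ∧ Bd pr O (fun _ : M => (0 : ℝ)) N 0 := by
  refine ⟨⟨contDiffOn_const, fun _ _ => rfl⟩, fun j _ z _ => ?_⟩
  have h1 : iteratedFDeriv ℝ j (fun _ : ℂ => (0 : ℝ)) z = 0 := by
    have := iteratedFDeriv_zero_fun (𝕜 := ℝ) (E := ℂ) (F := ℝ) (n := j)
    exact congrFun this z
  show ‖iteratedFDeriv ℝ j (fun _ : ℂ => (0 : ℝ)) z‖ ≤ 0
  rw [h1, norm_zero]

theorem tr_of {M : Type} [MetricSpace M] [CompactSpace M] {pr : ℂ → M} (hT : StTr)
    (hpr : PrM Om ac pr) {w : ℂ → ℝ} (hw : Bm w) : Of pr (tr pr w) := by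
  have h0 := L0p
  obtain ⟨-, -, h⟩ := hT M pr hpr
  obtain ⟨-, h2, h3, -⟩ := h w hw
  refine ⟨h2, fun z hz => h3 z ?_⟩
  have h4 := abs_lt.1 hz
  exact ⟨by linarith [h4.1], by linarith [h4.2]⟩

/-- linear combinations of eigenfunctions -/
theorem ef_sum {M : Type} {φ : ℂ → ℝ} {pr : ℂ → M} {E : ℝ} (S : Finset ℕ) (c : ℕ → ℝ)
    (u : ℕ → M → ℝ) (hu : ∀ k ∈ S, IsEf Om φ pr E (u k)) :
    IsEf Om φ pr E (fun x => ∑ k ∈ S, c k * u k x) := by
  classical
  have hO : IsOpen Om := tAct.opn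
  have hpx : ∀ (f : ℂ → ℝ), ContDiffOn ℝ ∞ f Om → ContDiffOn ℝ ∞ (px f) Om ∧
      ContDiffOn ℝ ∞ (py f) Om := by
    intro f hf
    have h1 : ContDiffOn ℝ ∞ (fderiv ℝ f) Om := hf.fderiv_of_isOpen hO (by exact le_rfl)
    exact ⟨h1.clm_apply contDiffOn_const, h1.clm_apply contDiffOn_const⟩
  have hlin : ∀ (f f' : ℂ → ℝ) (s : ℝ), ContDiffOn ℝ ∞ f Om → ContDiffOn ℝ ∞ f' Om → ∀ z ∈ Om,
      px (fun z => s * f z + f' z) z = s * px f z + px f' z ∧
      py (fun z => s * f z + f' z) z = s * py f z + py f' z := by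
    intro f f' s hf hf' z hz
    have d1 : DifferentiableAt ℝ f z := (hf.contDiffAt (hO.mem_nhds hz)).differentiableAt (by simp)
    have d2 : DifferentiableAt ℝ f' z :=
      (hf'.contDiffAt (hO.mem_nhds hz)).differentiableAt (by simp)
    have h1 : HasFDerivAt (fun z => s * f z + f' z) (s • fderiv ℝ f z + fderiv ℝ f' z) z :=
      (d1.hasFDerivAt.const_mul s).add d2.hasFDerivAt
    unfold px py
    rw [h1.fderiv]
    exact ⟨rfl, rfl⟩
  have hlap : ∀ (f f' : ℂ → ℝ) (s : ℝ), ContDiffOn ℝ ∞ f Om → ContDiffOn ℝ ∞ f' Om → ∀ z ∈ Om,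
      px (px fun z => s * f z + f' z) z + py (py fun z => s * f z + f' z) z =
        s * (px (px f) z + py (py f) z) + (px (px f') z + py (py f') z) := by
    intro f f' s hf hf' z hz
    have h1 := hlin f f' s hf hf'
    have e1 : px (fun z => s * f z + f' z) =ᶠ[𝓝 z] fun z => s * px f z + px f' z := by
      filter_upwards [hO.mem_nhds hz] with w hw using (h1 w hw).1
    have e2 : py (fun z => s * f z + f' z) =ᶠ[𝓝 z] fun z => s * py f z + py f' z := by
      filter_upwards [hO.mem_nhds hz] with w hw using (h1 w hw).2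
    have g1 : px (px fun z => s * f z + f' z) z = px (fun z => s * px f z + px f' z) z := by
      show fderiv ℝ _ z 1 = fderiv ℝ _ z 1
      rw [e1.fderiv_eq]
    have g2 : py (py fun z => s * f z + f' z) z = py (fun z => s * py f z + py f' z) z := by
      show fderiv ℝ _ z Complex.I = fderiv ℝ _ z Complex.I
      rw [e2.fderiv_eq]
    rw [g1, g2, (hlin _ _ s (hpx f hf).1 (hpx f' hf').1 z hz).1,
      (hlin _ _ s (hpx f hf).2 (hpx f' hf').2 z hz).2]
    ring
  induction S using Finset.induction_on with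
  | empty =>
    refine ⟨by simpa using contDiffOn_const, fun z hz => ?_⟩
    simp only [Finset.sum_empty, mul_zero]
    have e1 : px (fun _ : ℂ => (0 : ℝ)) = fun _ => 0 := by
      funext z
      unfold px
      simp
    have e2 : py (fun _ : ℂ => (0 : ℝ)) = fun _ => 0 := by
      funext z
      unfold py
      simp
    rw [e1, e2, e1, e2]
    simp
  | insert k S hk ih =>
    obtain ⟨i1, i2⟩ := ih fun l hl => hu l (Finset.mem_insert_of_mem hl)
    obtain ⟨j1, j2⟩ := hu k (Finset.mem_insert_self k S)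
    have e0 : (fun z => (fun x => ∑ l ∈ insert k S, c l * u l x) (pr z)) =
        fun z => c k * u k (pr z) + ∑ l ∈ S, c l * u l (pr z) := by
      funext z
      simp only [Finset.sum_insert hk]
    refine ⟨?_, fun z hz => ?_⟩
    · rw [e0]
      exact (contDiffOn_const.mul j1).add i1
    · rw [e0, hlap (fun z => u k (pr z)) (fun z => ∑ l ∈ S, c l * u l (pr z)) (c k) j1 i1 z hz]
      have h1 := i2 z hz
      have h2 := j2 z hz
      show _ = E * (∑ l ∈ insert k S, c l * u l (pr z))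
      rw [Finset.sum_insert hk]
      have h3 : -(Real.exp (-2 * φ z) * (px (px fun z => ∑ l ∈ S, c l * u l (pr z)) z +
        py (py fun z => ∑ l ∈ S, c l * u l (pr z)) z)) = E * ∑ l ∈ S, c l * u l (pr z) := h1
      calc -(Real.exp (-2 * φ z) * (c k * (px (px fun z => u k (pr z)) z +
            py (py fun z => u k (pr z)) z) + (px (px fun z => ∑ l ∈ S, c l * u l (pr z)) z +
            py (py fun z => ∑ l ∈ S, c l * u l (pr z)) z)))
          = c k * -(Real.exp (-2 * φ z) * (px (px fun z => u k (pr z)) z +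
            py (py fun z => u k (pr z)) z)) +
            -(Real.exp (-2 * φ z) * (px (px fun z => ∑ l ∈ S, c l * u l (pr z)) z +
            py (py fun z => ∑ l ∈ S, c l * u l (pr z)) z)) := by ring
        _ = E * (c k * u k (pr z) + ∑ l ∈ S, c l * u l (pr z)) := by
          rw [h2, h3]
          ring

end Pool.Agent.H240.IX
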