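import Pool.Agent.H240.IX.Step

/-!
# Intervals of quantum limits: existence of the next state
-/

set_option autoImplicit false
set_option linter.unusedSectionVars false

open Set Filter Topology MeasureTheory
open scoped ContDiff ComplexConjugate Real

noncomputable section

namespace Pool.Agent.H240.IX

open Pool.Agent.Y262.EG Pool.Agent.Y262.EX Pool.Agent.Y262.EL Pool.Agent.Y262.QE
open Pool.Agent.Y264.QR Pool.Agent.H240.SC Pool.Agent.H240.SG Pool.Agent.H240.CG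
open Pool.Agent.H240.NX (avg_eq)

section

variable {g X G : ℝ → ℝ} {c1 C0 c r m C : ℝ} {M P : Type} [MetricSpace M] [CompactSpace M]
  [MetricSpace P] [CompactSpace P] [MeasurableSpace M] [BorelSpace M] {pr : ℂ → M} {q : Y → P}
  {μ : Measure M} {D : Data M} {Φ : ℂ → M} {σ : M → M} {Ψ : M → ℝ}

/-- the hypothesis about products of eigenfunctions -/
theorem uc_fam (hAll : All) (hP : Prof g c1 C0) (hX : Cut X) (hpr : PrM Om ac pr)
    (hq : PrP Om ac q) (hB : Bs0 g X c1 pr μ D Φ σ) {G : ℝ → ℝ} {c : ℝ} (hG : ProfW G (c1 + c))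
    (hA : AdW (fun x => G x - g x) c) (hΨ : Of pr Ψ) {κ : C(M, ℝ)} (hκ : Ex pr g X G c Ψ κ)
    {u : ℕ → M → ℝ} {lam : ℕ → ℝ}
    (hu : EigBasis (D.conf fun x => Real.exp (κ x)) (wm μ fun x => Real.exp (κ x)) u lam) {E : ℝ}
    {S S' : Finset ℕ} {a b : ℕ → ℝ} (hS : ∀ k ∈ S, lam k = E) (hS' : ∀ k ∈ S', lam k = E)
    (ha : ∑ k ∈ S, (a k) ^ 2 = 1) (hb : ∑ k ∈ S', (b k) ^ 2 = 1) :
    ∃ ψ : C(M, ℝ), (∃ ψ' : M → ℝ, Of pr ψ' ∧ ∀ x, ψ x = ψ' x) ∧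
      ∫ x, ψ x * ((∑ k ∈ S, a k * u k x) * (∑ k ∈ S', b k * u k x))
        ∂(wm μ fun x => Real.exp (κ x)) ≠ 0 := by
  classical
  have hdat := ex_data hP hX hpr hq hB hA hΨ hκ 0 (by
    simpa using (contDiffOn_const (c := (0 : ℝ))))
  rw [smul_zero, add_zero] at hdat
  have hz : (fun z => phi G (c1 + c) z + Ψ (pr z) + (0 : C(M, ℝ)) (pr z)) =
      fun z => phi G (c1 + c) z + Ψ (pr z) := by
    funext z
    simp
  rw [hz] at hdat
  obtain ⟨b1, b2, b3⟩ := hdat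
  set ν := wm μ fun x => Real.exp (κ x) with hν
  have hfin : IsFiniteMeasure ν := (tFin M _ _ b1).1
  have hUT : IsUT Om (fun z => phi G (c1 + c) z + Ψ (pr z)) pr q := ut_psi hpr hq hG hΨ
  -- smooth eigenfunctions
  have hv : ∀ j, ∃ v : M → ℝ, (∀ᵐ x ∂ν, u j x = v x) ∧
      ContDiffOn ℝ ∞ (fun z => v (pr z)) Om ∧ ∀ z ∈ Om,
        -(Real.exp (-2 * (fun z => phi G (c1 + c) z + Ψ (pr z)) z) *
          Pool.Agent.Y262.EL.lap (fun z => v (pr z)) z) = lam j * v (pr z) := fun j =>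
    tEll M P Om _ pr q _ ν hUT b1 b2 b3 (lam j) (u j) (hu.eig j)
  choose v hv1 hv2 hv3 using hv
  have hvE : ∀ j, IsEf Om (fun z => phi G (c1 + c) z + Ψ (pr z)) pr (lam j) (v j) := fun j =>
    ⟨hv2 j, hv3 j⟩
  have hU := ef_sum S a v fun k hk => by
    have := hvE k
    rw [hS k hk] at this
    exact this
  have hV := ef_sum S' b v fun k hk => by
    have := hvE k
    rw [hS' k hk] at this
    exact this
  -- they do not vanish
  have hnz : ∀ (T : Finset ℕ) (a : ℕ → ℝ), ∑ k ∈ T, (a k) ^ 2 = 1 →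
      ∃ x, (∑ k ∈ T, a k * v k x) ≠ 0 := by
    intro T a ha
    by_contra hcon
    push Not at hcon
    have h1 : ∃ k ∈ T, a k ≠ 0 := by
      by_contra h0
      push Not at h0
      rw [Finset.sum_eq_zero fun k hk => by rw [h0 k hk]; norm_num] at ha
      norm_num at ha
    obtain ⟨k, hk, hak⟩ := h1
    have hint : ∀ l, Integrable (fun x => u l x * u k x) ν := fun l =>
      (hu.eig l).mem.integrable_mul (hu.eig k).mem
    have h2 : ∫ x, (∑ l ∈ T, a l * u l x) * u k x ∂ν = a k := by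
      have e1 : (fun x => (∑ l ∈ T, a l * u l x) * u k x) =
          fun x => ∑ l ∈ T, a l * (u l x * u k x) := by
        funext x
        rw [Finset.sum_mul]
        exact Finset.sum_congr rfl fun l _ => by ring
      rw [e1, integral_finset_sum _ fun l _ => (hint l).const_mul _]
      simp only [integral_const_mul, hu.orth, mul_ite, mul_one, mul_zero, Finset.sum_ite_eq', if_pos hk]
    have h3 : ∫ x, (∑ l ∈ T, a l * u l x) * u k x ∂ν = 0 := by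
      rw [← integral_zero M ℝ (μ := ν)]
      refine integral_congr_ae ?_
      have h4 : ∀ᵐ x ∂ν, ∀ l ∈ T, u l x = v l x :=
        (Finset.eventually_all T).2 fun l _ => hv1 l
      filter_upwards [h4] with x hx
      rw [Finset.sum_congr rfl fun l hl => by rw [hx l hl], hcon x, zero_mul]
    exact hak (h2.symm.trans h3)
  obtain ⟨w, hw, hw2⟩ := hAll.us M P pr q _ ν hpr hUT b3 _ _ E hU hV (hnz S a ha) (hnz S' b hb)
  have hOf := tr_of hAll.tr hpr hw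
  refine ⟨⟨tr pr w, cont_sm hpr hOf.sm⟩, ⟨tr pr w, hOf, fun x => rfl⟩, fun h0 => hw2 ?_⟩
  rw [← h0]
  refine integral_congr_ae ?_
  have h4 : ∀ᵐ x ∂ν, ∀ l ∈ S, u l x = v l x := (Finset.eventually_all S).2 fun l _ => hv1 l
  have h5 : ∀ᵐ x ∂ν, ∀ l ∈ S', u l x = v l x := (Finset.eventually_all S').2 fun l _ => hv1 l
  filter_upwards [h4, h5] with x hx hx'
  show tr pr w x * _ = tr pr w x * _
  have e1 : ∑ k ∈ S, a k * u k x = ∑ k ∈ S, a k * v k x :=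
    Finset.sum_congr rfl fun l hl => by rw [hx l hl]
  have e2 : ∑ k ∈ S', b k * u k x = ∑ k ∈ S', b k * v k x :=
    Finset.sum_congr rfl fun l hl => by rw [hx' l hl]
  rw [e1, e2]

/-- the new state in the case of a window -/
theorem win_case (hAll : All) (hP : Prof g c1 C0) (hX : Cut X) (hpr : PrM Om ac pr)
    (hq : PrP Om ac q) (hB : Bs0 g X c1 pr μ D Φ σ) {O : Set ℂ} (hO : Fd O) {G2 : ℝ → ℝ}
    {c2 r' m2 C2 ρ : ℝ} (hpk : PK g G2 c2 r' m2 C2) (hΨ : Of pr Ψ) (hρ : 0 < ρ) (hρ1 : ρ ≤ 1 / 2)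
    (hρm : ρ < m2) (N : ℕ) {κ : C(M, ℝ)} (hκ : Ex pr g X G2 c2 Ψ κ) {F : C(M, ℝ)}
    {Pf : ℝ → ℝ} {ψF : M → ℝ} {α : ℝ} (hF : Fn pr F Pf ψF α) (hα : r' < α) {t : ℝ}
    (havg : avg μ F κ < t)
    (hloc : ∀ (u : ℕ → M → ℝ) (lam : ℕ → ℝ),
      EigBasis (D.conf fun x => Real.exp (κ x)) (wm μ fun x => Real.exp (κ x)) u lam →
      ∃ᶠ j in atTop, t < ∫ x, F x * (u j x) ^ 2 ∂(wm μ fun x => Real.exp (κ x))) (n : ℕ) :
    ∃ (s : ℝ) (ψ : M → ℝ) (θ : ℝ), 0 < θ ∧ Of pr ψ ∧ Bd pr O ψ N ρ ∧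
      PK g (fun x => G2 x + s * Pf x) c2 r' (m2 - ρ) (C2 + ρ) ∧
      Cls' G2 (fun x => G2 x + s * Pf x) ρ N (fun x => s * Pf x) 0 ∧
      Win pr (fun z => phi (fun x => G2 x + s * Pf x) (c1 + c2) z + (Ψ (pr z) + ψ (pr z))) F t n θ := by
  have hL := L0p
  obtain ⟨s3, hs3, hrad⟩ := hAll.rad g X G2 Pf c1 C0 c2 r' m2 C2 0 α ρ N hP hX hpk hF.rd hα hρ hρ1
    hρm
  obtain ⟨K, hK, hKb⟩ := hAll.fd.2 M pr O ψF hO hF.of N
  set s1 : ℝ := min (2 * s3) (ρ / (K + 1)) with hs1d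
  have hs1 : 0 < s1 := lt_min (by linarith) (by positivity)
  set W : Set C(M, ℝ) := {w | ∃ ψ : M → ℝ, Of pr ψ ∧ (∃ ρ' : ℝ, ρ' < ρ / 2 ∧ Bd pr O ψ N ρ') ∧
    ∀ x, w x = 2 * ψ x} with hWd
  set 𝒟 : Set C(M, ℝ) := {w | ∃ ψ : M → ℝ, Of pr ψ ∧ ∀ x, w x = ψ x} with hDd
  have hM : Nonempty M := ⟨Φ 0⟩
  -- the exponent of a perturbed metric
  have hEx : ∀ (s : ℝ) (w : C(M, ℝ)) (ψ : M → ℝ), (∀ x, w x = 2 * ψ x) →
      Ex pr g X (fun x => G2 x + s / 2 * Pf x) c2 (fun x => Ψ x + (ψ x + s / 2 * ψF x))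
        (κ + s • F + w) := by
    intro s w ψ hw z hz
    have e1 : (κ + s • F + w) (pr z) = κ (pr z) + s * F (pr z) + w (pr z) := rfl
    have e2 := Hf_lin (fun x => G2 x - g x) Pf c2 0 (s / 2) z
    have e3 : (fun x => (fun x => G2 x - g x) x + s / 2 * Pf x) =
        fun x => G2 x + s / 2 * Pf x - g x := by
      funext x
      ring
    rw [e3, mul_zero, add_zero] at e2
    rw [e1, hκ z hz, hF.eq z hz, hw, e2]
    ring
  have hrad' : ∀ s : ℝ, |s| < s1 → PK g (fun x => G2 x + s / 2 * Pf x) c2 r' (m2 - ρ) (C2 + ρ) ∧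
      Cls' G2 (fun x => G2 x + s / 2 * Pf x) ρ N (fun x => s / 2 * Pf x) 0 := by
    intro s hs
    have h1 : |s / 2| < s3 := by
      rw [abs_div, abs_two]
      have := hs.trans_le (min_le_left _ _)
      linarith
    obtain ⟨h2, h3⟩ := hrad (s / 2) h1
    rw [mul_zero, add_zero] at h2
    rw [mul_zero] at h3
    exact ⟨h2, h3⟩
  have hOfs : ∀ (s : ℝ) (ψ : M → ℝ) (ρ' : ℝ), |s| < s1 → Of pr ψ → ρ' < ρ / 2 → Bd pr O ψ N ρ' →
      Of pr (fun x => ψ x + s / 2 * ψF x) ∧ Bd pr O (fun x => ψ x + s / 2 * ψF x) N ρ := by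
    intro s ψ ρ' hs hψ hρ' hb
    obtain ⟨h1, h2⟩ := bd_lin hO hψ hF.of hb hKb (s / 2)
    refine ⟨h1, fun j hj z hz => (h2 j hj z hz).trans ?_⟩
    have h3 : |s| ≤ ρ / (K + 1) := hs.le.trans (min_le_right _ _)
    rw [le_div_iff₀ (by positivity)] at h3
    rw [abs_div, abs_two]
    have h4 := abs_nonneg s
    nlinarith
  have hadd : ∀ ψ : M → ℝ, Of pr ψ → Of pr fun x => Ψ x + ψ x := fun ψ hψ =>
    ⟨hΨ.sm.add hψ.sm, fun z hz => by
      show Ψ (pr z) + ψ (pr z) = 0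
      rw [hΨ.zero z hz, hψ.zero z hz, add_zero]⟩
  have hW0 : (0 : C(M, ℝ)) ∈ W := by
    obtain ⟨h1, h2⟩ := of_zero pr O N
    exact ⟨fun _ => 0, h1, ⟨0, by positivity, h2⟩, fun x => by simp⟩
  have hWD : ∀ w ∈ W, ∀ ψ ∈ 𝒟, ∃ δ : ℝ, 0 < δ ∧ ∀ t : ℝ, |t| < δ → w + t • ψ ∈ W := by
    rintro w ⟨ψw, h1, ⟨ρ', h2, h3⟩, h4⟩ ψ ⟨ψ', h5, h6⟩
    obtain ⟨K', hK', hKb'⟩ := hAll.fd.2 M pr O ψ' hO h5 N
    refine ⟨(ρ / 2 - ρ') / (K' + 1), div_pos (by linarith) (by positivity), fun t ht => ?_⟩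
    obtain ⟨g1, g2⟩ := bd_lin hO h1 h5 h3 hKb' (t / 2)
    refine ⟨fun x => ψw x + t / 2 * ψ' x, g1, ⟨ρ' + |t / 2| * K', ?_, g2⟩, fun x => ?_⟩
    · rw [lt_div_iff₀ (by positivity)] at ht
      rw [abs_div, abs_two]
      have := abs_nonneg t
      nlinarith
    · have e1 : (w + t • ψ) x = w x + t * ψ x := rfl
      rw [e1, h4, h6]
      ring
  obtain ⟨s, w, hs, ⟨ψ, h1, ⟨ρ', h2, h3⟩, h4⟩, j, θ0, hθ0, hwin⟩ := surf_win hAll.kb hAll.cu hAll.ext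
    hAll.con hAll.drop hAll.extr μ D hB.surf hM κ F s1 hs1 W 𝒟 hW0 hWD (by
      rintro s w hs ⟨ψ, h1, ⟨ρ', h2, h3⟩, h4⟩ u lam hu E hE S S' a b hS hS' ha hb
      obtain ⟨g1, g2⟩ := hOfs s ψ ρ' hs h1 h2 h3
      obtain ⟨k1, k2⟩ := hrad' s hs
      obtain ⟨ψ', h5, h6⟩ := uc_fam hAll hP hX hpr hq hB (k1.prof hP) (k1.adW hP) (hadd _ g1)
        (hEx s w ψ h4) hu hS hS' ha hb
      exact ⟨ψ', h5, h6⟩) t hloc havg n (1 / ((n : ℝ) + 1)) (by positivity)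
  obtain ⟨g1, g2⟩ := hOfs s ψ ρ' hs h1 h2 h3
  obtain ⟨k1, k2⟩ := hrad' s hs
  refine ⟨s / 2, fun x => ψ x + s / 2 * ψF x, θ0 / 2, by positivity, g1, g2, k1, k2, ?_⟩
  intro f hf hfθ ν' hν' u lam hu
  set fC : C(M, ℝ) := ⟨f, cont_sm hpr hf⟩ with hfC
  obtain ⟨b1, b2, b3⟩ := ex_data hP hX hpr hq hB (k1.adW hP) (hadd _ g1) (hEx s w ψ h4) fC hf
  have hUT : IsUT Om (fun z => phi (fun x => G2 x + s / 2 * Pf x) (c1 + c2) z +
      (fun x => Ψ x + (ψ x + s / 2 * ψF x)) (pr z) + f (pr z)) pr q :=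
    ut_psi2 hpr hq (k1.prof hP) (hadd _ g1) hf
  have hνeq : ν' = wm μ fun x => Real.exp ((κ + s • F + w + (2 : ℝ) • fC) x) :=
    Pool.Agent.H240.NL.area_unique hUT hν' b3
  subst hνeq
  have hw' := eb_weak hUT b1 b2 b3 hu
  have hfn : ‖(2 : ℝ) • fC‖ < θ0 := by
    rw [ContinuousMap.norm_lt_iff _ hθ0]
    intro x
    have h1 : ((2 : ℝ) • fC) x = 2 * f x := rfl
    rw [h1, Real.norm_eq_abs, abs_mul, abs_two]
    linarith [hfθ x]
  exact ⟨j, hwin _ hfn u lam hw'⟩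

end

end Pool.Agent.H240.IX
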