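import Pool.Agent.H240.IX.Step2

/-!
# Intervals of quantum limits: the next state
-/

set_option autoImplicit false
set_option linter.unusedSectionVars false

open Set Filter Topology MeasureTheory
open scoped ContDiff ComplexConjugate Real

noncomputable section

namespace Pool.Agent.H240.IX

open Pool.Agent.Y262.EG Pool.Agent.Y262.EX Pool.Agent.Y262.EL Pool.Agent.Y262.QE
open Pool.Agent.Y264.QR Pool.Agent.H240.SC Pool.Agent.H240.SG Pool.Agent.H240.CG
open Pool.Agent.H240.NX (avg_eq)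

section

variable {g X G : ℝ → ℝ} {c1 C0 c r m C : ℝ} {M P : Type} [MetricSpace M] [CompactSpace M]
  [MetricSpace P] [CompactSpace P] [MeasurableSpace M] [BorelSpace M] {pr : ℂ → M} {q : Y → P}
  {μ : Measure M} {D : Data M} {Φ : ℂ → M} {σ : M → M} {Ψ : M → ℝ}

theorem bd_mono {O : Set ℂ} {ψ : M → ℝ} {N : ℕ} {K K' : ℝ} (h : Bd pr O ψ N K) (hK : K ≤ K') :
    Bd pr O ψ N K' := fun j hj z hz => (h j hj z hz).trans hK

theorem step_ex (hAll : All) (hP : Prof g c1 C0) (hX : Cut X) (hpr : PrM Om ac pr)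
    (hq : PrP Om ac q) (hB : Bs0 g X c1 pr μ D Φ σ) {O : Set ℂ} (hO : Fd O) {S : StI M}
    (hS : IvI pr g S) {F : M → ℝ} {Pf : ℝ → ℝ} {ψF : M → ℝ} {α : ℝ} (hF : Fn pr F Pf ψF α)
    (t : ℝ) (n : ℕ) :
    ∃ (S' : StI M) (p : ℝ → ℝ) (e : ℝ) (ψ : M → ℝ) (θ : ℝ),
      IvI pr g S' ∧ RelI pr c1 O F t α n S S' p e ψ θ := by
  have h0 := L0p
  have hr := hS.pk.rp
  have hrL := hS.pk.rL
  have hρ := hS.ρp
  have hρh := hS.ρh
  have hρm := hS.ρm
  have hcvx : ∀ x, |x - L0 / 2| < 4 / 5 * L0 → 0 ≤ deriv (deriv S.G) x := hS.pk.cvx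
  obtain ⟨G1, c', s0, hs0, hper⟩ := pert hX hS.pk (r' := S.r / 2) (by linarith) (by linarith)
    (ρ := S.ρ / 2) (by linarith) (by linarith) (by linarith) (n + 3)
  obtain ⟨s, hs, hgood⟩ := loc_good hP hX hpr hB hs0 (fun s hs => (hper s hs).1) hS.of
  obtain ⟨hpk, p, e, hcls, hce⟩ := hper s hs
  set G2 : ℝ → ℝ := fun x => G1 x + s * et G1 X 1 x with hG2
  obtain ⟨κ, hκ⟩ := ex_ex hP hX hpr (hpk.adW hP) hS.of
  set FC : C(M, ℝ) := ⟨F, cont_sm hpr (fn_sm hF)⟩ with hFC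
  have hFn : Fn pr FC Pf ψF α := hF
  by_cases hcase : S.r / 2 < α ∧ t < 0 ∧ avg μ FC κ < t
  · obtain ⟨hα, ht, havg⟩ := hcase
    obtain ⟨s', ψ, θ, hθ, hψ, hbd, hpk', hcls', hwin⟩ := win_case hAll hP hX hpr hq hB hO hpk hS.of
      (ρ := S.ρ / 2) (by linarith) (by linarith) (by linarith) (n + 3) hκ hFn hα havg
      (hgood κ hκ FC Pf ψF α hFn hα (by linarith) t ht) n
    have hcomp := cls_comp hcls hcls' (by linarith) (by linarith) (by linarith) hcvx
    rw [add_halves, add_zero] at hcomp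
    refine ⟨⟨fun x => G2 x + s' * Pf x, c' + s, S.r / 2, S.m - S.ρ, S.C + S.ρ,
      min (S.ρ / 2) (θ / 8), fun x => S.Ψ x + ψ x⟩, fun x => p x + s' * Pf x, e, ψ, θ,
      ⟨?_, lt_min (by linarith) (by linarith), ?_, ?_, ?_⟩,
      ⟨hcomp, hce, rfl, rfl, rfl, min_le_left _ _, fun x => rfl, hψ,
        bd_mono hbd (by linarith), hθ, ?_, fun _ _ _ => hwin⟩⟩
    · have e1 : S.m - S.ρ / 2 - S.ρ / 2 = S.m - S.ρ := by ring
      have e2 : S.C + S.ρ / 2 + S.ρ / 2 = S.C + S.ρ := by ring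
      rw [e1, e2] at hpk'
      exact hpk'
    · exact (min_le_left _ _).trans (by linarith)
    · have := min_le_left (S.ρ / 2) (θ / 8)
      show 4 * min (S.ρ / 2) (θ / 8) ≤ S.m - S.ρ
      linarith
    · exact ⟨hS.of.sm.add hψ.sm, fun z hz => by
        show S.Ψ (pr z) + ψ (pr z) = 0
        rw [hS.of.zero z hz, hψ.zero z hz, add_zero]⟩
    · have := min_le_right (S.ρ / 2) (θ / 8)
      show 8 * min (S.ρ / 2) (θ / 8) ≤ θ
      linarith
  · obtain ⟨hz1, hz2⟩ := of_zero pr O (n + 3)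
    refine ⟨⟨G2, c' + s, S.r / 2, S.m - S.ρ, S.C + S.ρ, S.ρ / 2, S.Ψ⟩, p, e, fun _ => 0, 1,
      ⟨pk_mono hpk (by linarith) (by linarith) (by linarith), by
        show 0 < S.ρ / 2
        linarith, ?_, ?_, hS.of⟩,
      ⟨cls_mono hcls (by linarith) hcvx, hce, rfl, rfl, rfl, le_rfl, fun x => (add_zero _).symm,
        hz1, bd_mono hz2 hρ.le, one_pos, ?_, fun h1 h2 h3 => ?_⟩⟩
    · show S.ρ / 2 ≤ 1 / 4
      linarith
    · show 4 * (S.ρ / 2) ≤ S.m - S.ρ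
      linarith
    · show 8 * (S.ρ / 2) ≤ 1
      linarith
    · refine absurd ⟨h1, h2, ?_⟩ hcase
      have hdat := ex_data hP hX hpr hq hB (hpk.adW hP) hS.of hκ 0 (by
        simpa using (contDiffOn_const (c := (0 : ℝ))))
      rw [smul_zero, add_zero] at hdat
      have hz : (fun z => phi G2 (c1 + (c' + s)) z + S.Ψ (pr z) + (0 : C(M, ℝ)) (pr z)) =
          fun z => phi G2 (c1 + (c' + s)) z + S.Ψ (pr z) := by
        funext z
        simp
      rw [hz] at hdat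
      have hfin : IsFiniteMeasure μ := (tFin M μ D hB.surf).1
      rw [Pool.Agent.H240.NX.avg_eq]
      exact h3 _ hdat.2.2

end

end Pool.Agent.H240.IX
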