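import Pool.Agent.H240.IX.Min
import Pool.Graph.R_seed8.Y147.QR.AE

/-!
# Intervals of quantum limits: windows on surfaces
-/

set_option autoImplicit false
set_option linter.unusedSectionVars false

open Set Filter Topology MeasureTheory
open scoped Real ContDiff

noncomputable section

namespace Pool.Agent.H240.IX

open Pool.Agent.Y262.QE Pool.Agent.Y264.QR Pool.Agent.H240.QX Pool.Agent.H240.NX

/-- eigenvectors are combinations of the vectors of a complete system -/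
theorem expand {H : Type} [NormedAddCommGroup H] [InnerProductSpace ℝ H]
    {a b : H →L[ℝ] H →L[ℝ] ℝ} (hF : Fm a b) {e : ℕ → H} {E : ℕ → ℝ} (hE : Eg a b e E) {F : ℝ}
    {u : H} (hu : Uv a b F u) : ∃ (S : Finset ℕ) (c : ℕ → ℝ), (∀ k ∈ S, E k = F) ∧
      u = ∑ k ∈ S, c k • e k ∧ ∑ k ∈ S, (c k) ^ 2 = 1 := by
  classical
  have hfin : {k | E k = F}.Finite := by
    obtain ⟨j0, hj0⟩ := (hE.tt.eventually (eventually_gt_atTop F)).exists_forall_of_atTop
    refine (Set.finite_Iio j0).subset fun j hj => ?_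
    by_contra hcon
    have h1 := hj0 j (not_lt.1 hcon)
    have h2 : E j = F := hj
    linarith
  set S := hfin.toFinset with hS
  have hmem : ∀ k, k ∈ S ↔ E k = F := fun k => by rw [hS, Set.Finite.mem_toFinset]; rfl
  set c : ℕ → ℝ := fun k => b u (e k) with hc
  have hc0 : ∀ k, k ∉ S → c k = 0 := by
    intro k hk
    have h1 := hu.eig (e k)
    have h2 := hE.eig k u
    rw [hF.sa, hF.sb] at h2
    rw [h2] at h1
    have h3 : (E k - F) * b u (e k) = 0 := by linarith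
    rcases mul_eq_zero.1 h3 with h | h
    · exact absurd ((hmem k).2 (by linarith)) hk
    · exact h
  have hsum : ∑ k ∈ S, (c k) ^ 2 = 1 := by
    have h1 := hE.sum u
    have h2 : HasSum (fun j => (b u (e j)) ^ 2) (∑ k ∈ S, (c k) ^ 2) :=
      hasSum_sum_of_ne_finset_zero fun k hk => by
        show (c k) ^ 2 = 0
        rw [hc0 k hk]
        norm_num
    rw [← hu.one]
    exact h2.unique h1
  refine ⟨S, c, fun k hk => (hmem k).1 hk, ?_, hsum⟩
  set v := ∑ k ∈ S, c k • e k with hv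
  have hbv : ∀ x, b v x = ∑ k ∈ S, c k * b (e k) x := by
    intro x
    rw [hv]
    simp only [map_sum, map_smul, ContinuousLinearMap.sum_apply, ContinuousLinearMap.smul_apply,
      smul_eq_mul]
  have hav : ∀ x, a v x = F * b v x := by
    intro x
    rw [hbv, Finset.mul_sum, hv]
    simp only [map_sum, map_smul, ContinuousLinearMap.sum_apply, ContinuousLinearMap.smul_apply,
      smul_eq_mul]
    refine Finset.sum_congr rfl fun k hk => ?_
    rw [hE.eig, (hmem k).1 hk]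
    ring
  have hbe : ∀ j, b (u - v) (e j) = 0 := by
    intro j
    rw [map_sub, ContinuousLinearMap.sub_apply, hbv]
    simp only [hE.orth, mul_ite, mul_one, mul_zero, Finset.sum_ite_eq']
    by_cases hj : j ∈ S
    · rw [if_pos hj, hc, sub_self]
    · rw [if_neg hj, sub_zero]
      exact hc0 j hj
  have hbd : b (u - v) (u - v) = 0 := by
    have h1 := hE.sum (u - v)
    have h2 : (fun j => (b (u - v) (e j)) ^ 2) = fun _ => 0 := by
      funext j
      rw [hbe j]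
      norm_num
    rw [h2] at h1
    exact h1.unique hasSum_zero
  have had : a (u - v) (u - v) = 0 := by
    have h1 : ∀ x, a (u - v) x = F * b (u - v) x := by
      intro x
      rw [map_sub, map_sub, ContinuousLinearMap.sub_apply, ContinuousLinearMap.sub_apply, hu.eig,
        hav]
      ring
    rw [h1, hbd, mul_zero]
  obtain ⟨c0, hc0', hco⟩ := hF.co
  have h1 := hco (u - v)
  rw [had, hbd, add_zero] at h1
  have h2 : ‖u - v‖ ^ 2 ≤ 0 := by
    by_contra hcon
    push Not at hcon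
    have := mul_pos hc0' hcon
    linarith
  have h3 : ‖u - v‖ = 0 := by
    have := sq_nonneg ‖u - v‖
    have h4 : ‖u - v‖ ^ 2 = 0 := le_antisymm h2 this
    exact pow_eq_zero_iff (two_ne_zero) |>.1 h4
  exact sub_eq_zero.1 (norm_eq_zero.1 h3)

section

variable {M : Type} [MetricSpace M] [CompactSpace M] [MeasurableSpace M] [BorelSpace M]

/-- on average over the parameter every eigenfunction is equidistributed: there is a parameter with
a small mass -/
theorem low_ex {μ : Measure M} [IsFiniteMeasure μ] {H : Type} [NormedAddCommGroup H]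
    [InnerProductSpace ℝ H] [CompleteSpace H] {i : H →L[ℝ] Lp ℝ 2 μ} {a : H →L[ℝ] H →L[ℝ] ℝ}
    {b : C(M, ℝ) → H →L[ℝ] H →L[ℝ] ℝ} (hS : Stt μ i a b) (hW : Wl μ a b) (φ f : C(M, ℝ))
    (s2 t t' : ℝ) (hs2 : 0 < s2) (htt : t' < t) (hc : Continuous fun s : ℝ => avg μ f (φ + s • f))
    (havg : ∀ s ∈ Icc 0 s2, avg μ f (φ + s • f) ≤ t')
    (e : ℝ → ℕ → H) (E : ℝ → ℕ → ℝ) (hE : ∀ s, Eg a (b (φ + s • f)) (e s) (E s)) :
    ∀ᶠ j in atTop, ∃ s ∈ Icc 0 s2, kap μ i f (φ + s • f) (e s j) < t := by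
  obtain ⟨l1, l2, l3, l4, l5⟩ := tLip M μ H a b hS.fm hS.exp
  obtain ⟨h1, h2⟩ := tOneP M μ H i a b hS.sf hS.isb hW φ f e E hE
  set χ : ℝ → ℝ := (Icc 0 s2).indicator fun _ => 1 with hχ
  have hχi : Integrable χ volume := by
    rw [hχ, integrable_indicator_iff measurableSet_Icc]
    exact integrableOn_const (by simp)
  have h3 := h2 χ hχi
  have hmul : ∀ g : ℝ → ℝ, ∫ t : ℝ, χ t * g t = ∫ t in Icc 0 s2, g t := by
    intro g
    rw [← integral_indicator measurableSet_Icc]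
    refine integral_congr_ae (Eventually.of_forall fun x => ?_)
    by_cases hx : x ∈ Icc 0 s2
    · simp only [hχ, indicator_of_mem hx, one_mul]
    · simp only [hχ, indicator_of_notMem hx, zero_mul]
  have hvol : (volume.restrict (Icc 0 s2)).real univ = s2 := by
    rw [Measure.real, Measure.restrict_apply_univ, Real.volume_Icc, sub_zero,
      ENNReal.toReal_ofReal hs2.le]
  have hlim : ∫ t : ℝ, χ t * avg μ f (φ + t • f) < t * s2 := by
    rw [hmul]
    have h4 : ∫ s in Icc 0 s2, avg μ f (φ + s • f) ≤ ∫ s in Icc 0 s2, t' :=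
      setIntegral_mono_on hc.continuousOn.integrableOn_Icc (integrableOn_const (by simp))
        measurableSet_Icc havg
    have h5 : ∫ s in Icc 0 s2, t' = t' * s2 := by
      rw [integral_const, hvol, smul_eq_mul, mul_comm]
    rw [h5] at h4
    exact h4.trans_lt (mul_lt_mul_of_pos_right htt hs2)
  have htt0 : Tendsto (fun j => Ev a (b (φ + (0 : ℝ) • f)) j) atTop atTop := by
    refine (hE 0).tt.congr fun j => ?_
    exact (Pool.Agent.Y592.QE.mm H a (b (φ + (0 : ℝ) • f)) (hS.fm _) (e 0) (E 0) (hE 0) j).symm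
  filter_upwards [h3.eventually (gt_mem_nhds hlim), htt0.eventually (eventually_gt_atTop 0)]
    with j hj hjp
  have hpos : ∀ s : ℝ, 0 < Ev a (b (φ + s • f)) j := by
    rcases l5 j with h | h
    · rw [h] at hjp
      exact absurd hjp (lt_irrefl _)
    · exact fun s => h _
  obtain ⟨k1, k2, -⟩ := Pool.Agent.Y147.QR.stFTC (fun s => Ev a (b (φ + s • f)) j)
    (fun s => kap μ i f (φ + s • f) (e s j)) ‖f‖ hpos (fun s t => by
      have h4 := l3 (φ + s • f) (φ + t • f) j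
      have e1 : ‖(φ + s • f) - (φ + t • f)‖ = ‖f‖ * |s - t| := by
        rw [add_sub_add_left_eq_sub, ← sub_smul, norm_smul, Real.norm_eq_abs, mul_comm]
      rw [e1] at h4
      exact h4) (by
      filter_upwards [h1] with s hs
      exact hs j)
  by_contra hcon
  push Not at hcon
  rw [hmul] at hj
  have hint : IntegrableOn (fun s => kap μ i f (φ + s • f) (e s j)) (Icc 0 s2) := by
    have hfin : IsFiniteMeasure (volume.restrict (Icc (0 : ℝ) s2)) :=
      ⟨by rw [Measure.restrict_apply_univ]; simp⟩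
    refine Integrable.of_bound (C := ‖f‖) k2.aestronglyMeasurable.restrict ?_
    exact ae_restrict_of_ae k1
  have h4 : ∫ s in Icc 0 s2, t ≤ ∫ s in Icc 0 s2, kap μ i f (φ + s • f) (e s j) :=
    setIntegral_mono_on (integrableOn_const (by simp)) hint measurableSet_Icc hcon
  have h5 : ∫ s in Icc 0 s2, t = t * s2 := by
    rw [integral_const, hvol, smul_eq_mul, mul_comm]
  rw [h5] at h4
  linarith

theorem lp_sum {μ : Measure M} (S : Finset ℕ) (c : ℕ → ℝ) (x : ℕ → Lp ℝ 2 μ) :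
    ((∑ k ∈ S, c k • x k : Lp ℝ 2 μ) : M → ℝ) =ᵐ[μ] fun t => ∑ k ∈ S, c k * x k t := by
  classical
  induction S using Finset.induction_on with
  | empty =>
    simp only [Finset.sum_empty]
    exact Lp.coeFn_zero ℝ 2 μ
  | insert k S hk ih =>
    rw [Finset.sum_insert hk]
    filter_upwards [Lp.coeFn_add (c k • x k) (∑ k ∈ S, c k • x k), Lp.coeFn_smul (c k) (x k), ih]
      with t h1 h2 h3
    rw [h1, Pi.add_apply, h2, h3, Pi.smul_apply, smul_eq_mul, Finset.sum_insert hk]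

theorem surf_win (hK : StKb) (hC : StCU) (hE : StExt) (hCo : StCon) (hDr : StDrop) (hX : StExtr)
    (μ : Measure M) (D : Data M) (hD : D.IsSurf μ) (hM : Nonempty M) (φ0 f : C(M, ℝ)) (s1 : ℝ)
    (hs1 : 0 < s1) (W 𝒟 : Set C(M, ℝ)) (hW0 : (0 : C(M, ℝ)) ∈ W)
    (hWD : ∀ w ∈ W, ∀ ψ ∈ 𝒟, ∃ δ : ℝ, 0 < δ ∧ ∀ t : ℝ, |t| < δ → w + t • ψ ∈ W)
    (hUC : ∀ (s : ℝ) (w : C(M, ℝ)), |s| < s1 → w ∈ W → ∀ (u : ℕ → M → ℝ) (lam : ℕ → ℝ),
      EigBasis (D.conf fun x => Real.exp ((φ0 + s • f + w) x))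
        (wm μ fun x => Real.exp ((φ0 + s • f + w) x)) u lam → ∀ E : ℝ, 0 < E →
      ∀ (S S' : Finset ℕ) (c d : ℕ → ℝ), (∀ k ∈ S, lam k = E) → (∀ k ∈ S', lam k = E) →
      ∑ k ∈ S, (c k) ^ 2 = 1 → ∑ k ∈ S', (d k) ^ 2 = 1 →
      ∃ ψ ∈ 𝒟, ∫ x, ψ x * ((∑ k ∈ S, c k * u k x) * (∑ k ∈ S', d k * u k x))
        ∂(wm μ fun x => Real.exp ((φ0 + s • f + w) x)) ≠ 0)
    (t : ℝ) (hloc : ∀ (u : ℕ → M → ℝ) (lam : ℕ → ℝ),
      EigBasis (D.conf fun x => Real.exp (φ0 x)) (wm μ fun x => Real.exp (φ0 x)) u lam →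
      ∃ᶠ j in atTop, t < ∫ x, f x * (u j x) ^ 2 ∂(wm μ fun x => Real.exp (φ0 x)))
    (havg : avg μ f φ0 < t) (Λ ε : ℝ) (hε : 0 < ε) :
    ∃ (s : ℝ) (w : C(M, ℝ)), |s| < s1 ∧ w ∈ W ∧ ∃ (j : ℕ) (θ : ℝ), 0 < θ ∧
      ∀ g : C(M, ℝ), ‖g‖ < θ → ∀ (u : ℕ → M → ℝ) (lam : ℕ → ℝ),
      EigBasis (D.conf fun x => Real.exp ((φ0 + s • f + w + g) x))
        (wm μ fun x => Real.exp ((φ0 + s • f + w + g) x)) u lam →
      Λ < lam j ∧ |(∫ x, f x * (u j x) ^ 2 ∂(wm μ fun x => Real.exp ((φ0 + s • f + w + g) x))) -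
        t| < ε := by
  classical
  obtain ⟨hfin, hpos⟩ := tFin M μ D hD
  obtain ⟨iF, aF, hSf, hiF, haF⟩ := tPackF M μ D hD hM
  obtain ⟨bF, hBF, hFF, -, hcmp, -⟩ := tFm M μ (HF D μ) iF aF hSf
  have : CompleteSpace (HF D μ) :=
    (Submodule.isClosed_topologicalClosure _).completeSpace_coe
  have hW := tWl M μ D hD hM iF aF bF hSf hiF haF hBF
  have hS : Stt μ iF aF bF := ⟨hSf, hBF, hFF, hcmp⟩
  obtain ⟨l1, l2, l3, l4, l5⟩ := tLip M μ (HF D μ) aF bF hFF hcmp
  obtain ⟨-, -, -, -, kdiag, -, hct, -⟩ := hK M μ (HF D μ) iF aF bF hS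
  have hne : NeZero μ := ⟨fun h => by
    have h1 := hpos univ isOpen_univ univ_nonempty
    rw [h] at h1
    simp at h1⟩
  have hcont : Continuous fun s : ℝ => avg μ f (φ0 + s • f) := by
    rw [continuous_iff_continuousAt]
    intro s
    refine avg_tendsto (μ := μ) f (φ := fun s : ℝ => φ0 + s • f) ?_
    have h1 : Continuous fun s : ℝ => φ0 + s • f := by fun_prop
    exact h1.tendsto s
  set t' : ℝ := (avg μ f φ0 + t) / 2 with ht'
  obtain ⟨s2, hs2, hs21, hs2a⟩ : ∃ s2 : ℝ, 0 < s2 ∧ s2 < s1 ∧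
      ∀ s ∈ Icc 0 s2, avg μ f (φ0 + s • f) ≤ t' := by
    have h1 : avg μ f (φ0 + (0 : ℝ) • f) < t' := by
      rw [zero_smul, add_zero]
      linarith
    have h2 := (hcont.tendsto 0).eventually (gt_mem_nhds h1)
    obtain ⟨δ, hδ, hδ2⟩ := Metric.eventually_nhds_iff.1 h2
    refine ⟨min (δ / 2) (s1 / 2), lt_min (by linarith) (by linarith),
      (min_le_right _ _).trans_lt (by linarith), fun s hs => (hδ2 ?_).le⟩
    rw [Real.dist_eq, sub_zero, abs_of_nonneg hs.1]
    exact (hs.2.trans (min_le_left _ _)).trans_lt (by linarith)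
  choose e E hEg using fun s : ℝ => tSp (HF D μ) aF (bF (φ0 + s • f)) (hFF _)
  have hmm : ∀ s j, Ev aF (bF (φ0 + s • f)) j = E s j := fun s j =>
    Pool.Agent.Y592.QE.mm (HF D μ) aF (bF (φ0 + s • f)) (hFF _) (e s) (E s) (hEg s) j
  have hUv : ∀ s j, Uv aF (bF (φ0 + s • f)) (Ev aF (bF (φ0 + s • f)) j) (e s j) := by
    intro s j
    refine ⟨?_, fun v => ?_⟩
    · rw [(hEg s).orth, if_pos rfl]
    · rw [(hEg s).eig, hmm]
  have hlow := low_ex hS hW φ0 f s2 t t' hs2 (by linarith) hcont hs2a e E hEg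
  have hlarge : ∀ᶠ j in atTop, ∀ s ∈ Icc 0 s2, max Λ 0 < Ev aF (bF (φ0 + s • f)) j := by
    have h1 : Tendsto (fun j => Ev aF (bF φ0) j) atTop atTop := by
      have h2 := (hEg 0).tt
      refine h2.congr fun j => ?_
      rw [← hmm, zero_smul, add_zero]
    filter_upwards [h1.eventually (eventually_gt_atTop (Real.exp (s2 * ‖f‖) * max Λ 0))]
      with j hj s hs
    by_contra hle
    push Not at hle
    have h2 := l3 φ0 (φ0 + s • f) j
    have h3 : ‖φ0 - (φ0 + s • f)‖ ≤ s2 * ‖f‖ := by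
      rw [sub_add_cancel_left, norm_neg, norm_smul, Real.norm_eq_abs, abs_of_nonneg hs.1]
      exact mul_le_mul_of_nonneg_right hs.2 (norm_nonneg _)
    have h4 : Real.exp ‖φ0 - (φ0 + s • f)‖ * Ev aF (bF (φ0 + s • f)) j ≤
        Real.exp (s2 * ‖f‖) * max Λ 0 :=
      mul_le_mul (Real.exp_le_exp.2 h3) hle (l1 _ _) (Real.exp_pos _).le
    linarith
  have hhigh : ∃ᶠ j in atTop, t < kap μ iF f φ0 (e 0 j) := by
    have h1 : Eg aF (bF φ0) (e 0) (E 0) := by
      have := hEg 0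
      rwa [zero_smul, add_zero] at this
    refine (hloc _ _ (basis_of_eg hD φ0 iF aF bF hiF haF hBF hFF hcmp (e 0) (E 0) h1)).mono
      fun j hj => ?_
    rw [kap_eq (i := iF) f φ0 (e 0 j) _ (by rw [hiF])]
    exact hj
  obtain ⟨j, hj1, ⟨s', hs', hj2⟩, hj3⟩ := (hhigh.and_eventually (hlow.and hlarge)).exists
  have hz : φ0 + (0 : ℝ) • f = φ0 := by rw [zero_smul, add_zero]
  obtain ⟨s, w, hs, hw, j', hΛ, hall⟩ := abs_win hK hC hE hCo hDr hX hS φ0 f s1 W 𝒟 hW0 hWD
    (by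
      intro s w hs hw E0 hE0 u1 u2 hu1 hu2 _
      obtain ⟨e', E', hE'⟩ := tSp (HF D μ) aF (bF (φ0 + s • f + w)) (hFF _)
      obtain ⟨S, c, hS1, hS2, hS3⟩ := expand (hFF _) hE' hu1
      obtain ⟨S', d, hS1', hS2', hS3'⟩ := expand (hFF _) hE' hu2
      obtain ⟨ψ, hψ, hψ2⟩ := hUC s w hs hw _ _
        (basis_of_eg hD _ iF aF bF hiF haF hBF hFF hcmp e' E' hE') E0 hE0 S S' c d hS1 hS1' hS3 hS3'
      refine ⟨ψ, hψ, fun h0 => hψ2 ?_⟩
      rw [← h0]
      have hm : Measurable fun x => Real.exp ((φ0 + s • f + w) x) :=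
        (Real.continuous_exp.comp (φ0 + s • f + w).continuous).measurable
      rw [integral_wm μ _ hm (fun x => (Real.exp_pos _).le)]
      unfold kb
      have g1 : (iF u1 : M → ℝ) =ᵐ[μ] fun x => ∑ k ∈ S, c k * ((e' k).1.fst : M → ℝ) x := by
        have h1 : iF u1 = ∑ k ∈ S, c k • iF (e' k) := by
          rw [hS2]
          simp only [map_sum, map_smul]
        rw [h1]
        simp only [hiF]
        exact lp_sum S c fun k => (e' k).1.fst
      have g2 : (iF u2 : M → ℝ) =ᵐ[μ] fun x => ∑ k ∈ S', d k * ((e' k).1.fst : M → ℝ) x := by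
        have h1 : iF u2 = ∑ k ∈ S', d k • iF (e' k) := by
          rw [hS2']
          simp only [map_sum, map_smul]
        rw [h1]
        simp only [hiF]
        exact lp_sum S' d fun k => (e' k).1.fst
      refine integral_congr_ae ?_
      filter_upwards [g1, g2] with x h1 h2
      rw [h1, h2]
      ring)
    (max Λ 0) (le_max_right _ _) t ε hε s' hs'.1 (hs'.2.trans_lt hs21) j
    (fun s hs => hj3 s ⟨hs.1, hs.2.trans hs'.2⟩) (e s' j) (e 0 j) (hUv s' j)
    (by rw [kdiag]; exact hj2) (by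
      have := hUv 0 j
      rwa [hz] at this) (by rw [kdiag]; exact hj1)
  refine ⟨s, w, hs, hw, j', ?_⟩
  set φ1 : C(M, ℝ) := φ0 + s • f + w with hφ1
  have hΛ' : Λ < Ev aF (bF φ1) j' := (le_max_left _ _).trans_lt hΛ
  by_contra hcon
  push Not at hcon
  choose g hg u lam hu hfail using fun n : ℕ => hcon (1 / ((n : ℝ) + 1)) (by positivity)
  have hgt : Tendsto g atTop (𝓝 0) := squeeze_zero_norm (fun n => (hg n).le)
    tendsto_one_div_add_atTop_nhds_zero_nat
  have hφt : Tendsto (fun n => φ1 + g n) atTop (𝓝 φ1) := by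
    have h1 : Tendsto (fun n => φ1 + g n) atTop (𝓝 (φ1 + 0)) := tendsto_const_nhds.add hgt
    rwa [add_zero] at h1
  choose en heu hEn using fun n => tBr M μ D hD iF aF bF hSf hiF haF hBF hFF (φ1 + g n) (u n)
    (lam n) (hu n)
  have hmn : ∀ n j, Ev aF (bF (φ1 + g n)) j = lam n j := fun n j =>
    Pool.Agent.Y592.QE.mm (HF D μ) aF (bF (φ1 + g n)) (hFF _) (en n) (lam n) (hEn n) j
  obtain ⟨θ, w0, hθ, hw0, hw0t⟩ := hC M μ (HF D μ) iF aF bF hS (fun n => φ1 + g n) φ1 hφt j'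
    (fun n => en n j') (fun n => ⟨by rw [(hEn n).orth, if_pos rfl], fun v => by
      rw [(hEn n).eig, hmn]⟩)
  have h1 := hall w0 hw0
  have h2 := hct (fun _ => f) f (fun n => φ1 + g (θ n)) φ1 (fun n => en (θ n) j')
    (fun n => en (θ n) j') w0 w0 tendsto_const_nhds (hφt.comp hθ.tendsto_atTop) hw0t hw0t
  have h3 : ∀ᶠ n in atTop, |kb μ iF f (φ1 + g (θ n)) (en (θ n) j') (en (θ n) j') - t| < ε :=
    (h2.sub_const t).abs.eventually (gt_mem_nhds h1)
  have h4 : ∀ᶠ n in atTop, Λ < Ev aF (bF (φ1 + g (θ n))) j' :=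
    (((l4 j').tendsto φ1).comp (hφt.comp hθ.tendsto_atTop)).eventually (lt_mem_nhds hΛ')
  obtain ⟨n, h5, h6⟩ := (h3.and h4).exists
  rw [hmn] at h6
  have h7 := hfail (θ n) h6
  rw [kdiag, kap_eq (i := iF) f (φ1 + g (θ n)) (en (θ n) j') _ (heu (θ n) j')] at h5
  linarith

end

end Pool.Agent.H240.IX
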