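import Pool.Agent.H240.IX.DefH
import Pool.Agent.H240.IX.Surf

/-!
# Intervals of quantum limits: one step of the construction
-/

set_option autoImplicit false
set_option linter.unusedSectionVars false

open Set Filter Topology MeasureTheory
open scoped ContDiff ComplexConjugate Real

noncomputable section

namespace Pool.Agent.H240.IX

open Pool.Agent.Y262.EG Pool.Agent.Y262.EX Pool.Agent.Y262.EL Pool.Agent.Y262.QE
open Pool.Agent.Y264.QR Pool.Agent.H240.SC Pool.Agent.H240.SG Pool.Agent.H240.CG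
open Pool.Agent.H240.NX (avg_eq)

/-- all statements -/
structure All : Prop where
  kb : StKb
  cu : StCU
  ext : StExt
  con : StCon
  drop : StDrop
  extr : StExtr
  tr : StTr
  rad : StRad
  us : StUS
  fd : StFd
  ofs : StOfS
  cls : StCls4
  crv : StCrv
  dec : StDec
  sep : StSepM

/-- the exponent of the conformal factor of the metric -/
def Ex {M : Type} [TopologicalSpace M] (pr : ℂ → M) (g X G : ℝ → ℝ) (c : ℝ) (Ψ : M → ℝ)
    (κ : C(M, ℝ)) : Prop :=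
  ∀ z ∈ Om, κ (pr z) = 2 * (Hf (et g X 0) 0 z + Hf (fun x => G x - g x) c z) + 2 * Ψ (pr z)

theorem Hf_lin (η η' : ℝ → ℝ) (c c' s : ℝ) (z : ℂ) :
    Hf (fun x => η x + s * η' x) (c + s * c') z = Hf η c z + s * Hf η' c' z := by
  unfold Hf
  split_ifs with h
  · rfl
  · rfl

section

variable {g X G : ℝ → ℝ} {c1 C0 c r m C : ℝ} {M P : Type} [MetricSpace M] [CompactSpace M]
  [MetricSpace P] [CompactSpace P] [MeasurableSpace M] [BorelSpace M] {pr : ℂ → M} {q : Y → P}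
  {μ : Measure M} {D : Data M} {Φ : ℂ → M} {σ : M → M} {Ψ : M → ℝ}

theorem pr_inv (hpr : PrM Om ac pr) (γ : Gq) {z : ℂ} (hz : z ∈ Om) : pr (ac γ z) = pr z :=
  ((hpr.rel z hz _ (tAct.maps γ z hz)).2 ⟨γ, rfl⟩).symm

theorem ex_ex (hP : Prof g c1 C0) (hX : Cut X) (hpr : PrM Om ac pr)
    (hA : AdW (fun x => G x - g x) c) (hΨ : Of pr Ψ) : ∃ κ : C(M, ℝ), Ex pr g X G c Ψ κ := by
  have a1 := hfW (adW_et (G := g) hP.smooth hX 0)
  have a2 := hfW hA
  exact desc hpr (F := fun z => 2 * (Hf (et g X 0) 0 z + Hf (fun x => G x - g x) c z) +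
    2 * Ψ (pr z))
    ((continuousOn_const.mul (a1.sm.continuousOn.add a2.sm.continuousOn)).add
      (continuousOn_const.mul hΨ.sm.continuousOn))
    (fun γ z hz => by rw [a1.inv γ z hz, a2.inv γ z hz, pr_inv hpr γ hz])

theorem ex_sm (hP : Prof g c1 C0) (hX : Cut X) (hA : AdW (fun x => G x - g x) c) (hΨ : Of pr Ψ)
    {κ : C(M, ℝ)} (hκ : Ex pr g X G c Ψ κ) : ContDiffOn ℝ ∞ (fun z => κ (pr z)) Om := by
  have a1 := hfW (adW_et (G := g) hP.smooth hX 0)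
  have a2 := hfW hA
  exact ((contDiffOn_const.mul (a1.sm.add a2.sm)).add (contDiffOn_const.mul hΨ.sm)).congr
    fun z hz => hκ z hz

theorem ex_data (hP : Prof g c1 C0) (hX : Cut X) (hpr : PrM Om ac pr) (hq : PrP Om ac q)
    (hB : Bs0 g X c1 pr μ D Φ σ) (hA : AdW (fun x => G x - g x) c) (hΨ : Of pr Ψ)
    {κ : C(M, ℝ)} (hκ : Ex pr g X G c Ψ κ) (f : C(M, ℝ))
    (hf : ContDiffOn ℝ ∞ (fun z => f (pr z)) Om) :
    (D.conf fun x => Real.exp ((κ + (2 : ℝ) • f) x)).IsSurf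
        (wm μ fun x => Real.exp ((κ + (2 : ℝ) • f) x)) ∧
      Compat (D.conf fun x => Real.exp ((κ + (2 : ℝ) • f) x)) Om
        (fun z => phi G (c1 + c) z + Ψ (pr z) + f (pr z)) pr ∧
      IsArea Om (fun z => phi G (c1 + c) z + Ψ (pr z) + f (pr z)) pr
        (wm μ fun x => Real.exp ((κ + (2 : ℝ) • f) x)) := by
  have h1 : ContDiffOn ℝ ∞ (fun z => (κ + (2 : ℝ) • f) (pr z)) Om :=
    (ex_sm hP hX hA hΨ hκ).add (contDiffOn_const.mul hf)
  refine data_gen hP hX hpr hq hB (κ + (2 : ℝ) • f) h1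
    (fun z => phi G (c1 + c) z + Ψ (pr z) + f (pr z)) fun z hz => ?_
  have e1 : (κ + (2 : ℝ) • f) (pr z) = κ (pr z) + 2 * f (pr z) := rfl
  rw [e1, hκ z hz, phi_eq g X G c1 c z]
  ring

theorem ut_psi (hpr : PrM Om ac pr) (hq : PrP Om ac q) (hG : ProfW G c) (hΨ : Of pr Ψ) :
    IsUT Om (fun z => phi G c z + Ψ (pr z)) pr q := ut_add hpr hq hG hΨ.sm

theorem ut_psi2 (hpr : PrM Om ac pr) (hq : PrP Om ac q) (hG : ProfW G c) (hΨ : Of pr Ψ)
    {f : M → ℝ} (hf : ContDiffOn ℝ ∞ (fun z => f (pr z)) Om) :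
    IsUT Om (fun z => phi G c z + Ψ (pr z) + f (pr z)) pr q := by
  have h1 := ut_add (f := fun x => Ψ x + f x) hpr hq hG (hΨ.sm.add hf)
  have e1 : (fun z => phi G c z + (fun x => Ψ x + f x) (pr z)) =
      fun z => phi G c z + Ψ (pr z) + f (pr z) := by
    funext z
    ring
  rwa [e1] at h1

/-- the functions are zero near the closed geodesic -/
theorem fn_zero {F : M → ℝ} {Pf : ℝ → ℝ} {ψ : M → ℝ} {α : ℝ} (hF : Fn pr F Pf ψ α) (z : ℂ)
    (hz1 : |z.re - L0 / 2| < α) (hz2 : |z.re - L0 / 2| < 3 / 4 * L0) : F (pr z) = 0 := by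
  have h0 := L0p
  have hS : z ∈ Stp L0 (3 / 2 * L0) := stp_near (by linarith)
  have hA : AdW Pf 0 := ⟨hF.rd.sm.contDiffOn, hF.rd.far⟩
  rw [hF.eq z (strip_om hS), (hfW hA).strip z hS, hF.of.zero z hz2, hF.rd.near _ hz1.le, add_zero]

theorem fn_sm {F : M → ℝ} {Pf : ℝ → ℝ} {ψ : M → ℝ} {α : ℝ} (hF : Fn pr F Pf ψ α) :
    ContDiffOn ℝ ∞ (fun z => F (pr z)) Om := by
  have hA : AdW Pf 0 := ⟨hF.rd.sm.contDiffOn, hF.rd.far⟩
  exact ((hfW hA).sm.add hF.of.sm).congr fun z hz => hF.eq z hz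

theorem cont_sm (hpr : PrM Om ac pr) {F : M → ℝ} (hF : ContDiffOn ℝ ∞ (fun z => F (pr z)) Om) :
    Continuous F := by
  obtain ⟨f, hf⟩ := desc hpr hF.continuousOn fun γ z hz => by rw [pr_inv hpr γ hz]
  have : F = f := by
    funext x
    obtain ⟨z, hz, rfl⟩ : x ∈ pr '' Om := by rw [hpr.surj]; trivial
    exact (hf z hz).symm
  rw [this]
  exact f.continuous

/-- for almost all parameters there are eigenfunctions with `∫ F u² → 0` -/
theorem loc_good (hP : Prof g c1 C0) (hX : Cut X) (hpr : PrM Om ac pr)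
    (hB : Bs0 g X c1 pr μ D Φ σ) {G1 : ℝ → ℝ} {s0 r' : ℝ} (hs0 : 0 < s0)
    (hpk : ∀ s : ℝ, |s| < s0 → PK g (fun x => G1 x + s * et G1 X 1 x) (c + s) r' m C)
    (hΨ : Of pr Ψ) :
    ∃ s : ℝ, |s| < s0 ∧ ∀ κ : C(M, ℝ),
      Ex pr g X (fun x => G1 x + s * et G1 X 1 x) (c + s) Ψ κ →
      ∀ (F : C(M, ℝ)) (Pf : ℝ → ℝ) (ψ : M → ℝ) (α : ℝ), Fn pr F Pf ψ α → r' < α →
      r' < 3 / 4 * L0 → ∀ t : ℝ, t < 0 → ∀ (u : ℕ → M → ℝ) (lam : ℕ → ℝ),
      EigBasis (D.conf fun x => Real.exp (κ x)) (wm μ fun x => Real.exp (κ x)) u lam →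
      ∃ᶠ j in atTop, t < ∫ x, F x * (u j x) ^ 2 ∂(wm μ fun x => Real.exp (κ x)) := by
  have h0 := L0p
  have h1 : PK g G1 c r' m C := by
    have h2 := hpk 0 (by rw [abs_zero]; exact hs0)
    have e1 : (fun x => G1 x + 0 * et G1 X 1 x) = G1 := by
      funext x
      ring
    rwa [e1, add_zero] at h2
  have a3 := hfW (adW_et h1.sm hX 1)
  obtain ⟨κ1, hκ1⟩ := ex_ex hP hX hpr (h1.adW hP) hΨ
  obtain ⟨κ0, hκ0⟩ := ex_ex hP hX hpr (h1.adW hP) (Ψ := fun _ => 0)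
    (⟨contDiffOn_const, fun _ _ => rfl⟩ : Of pr fun _ => (0 : ℝ))
  obtain ⟨h, hh⟩ := desc hpr (F := Hf (et G1 X 1) 1) a3.sm.continuousOn a3.inv
  have hgeo0 := geo_gen (κ := κ0) hP hX hpr hB h1 (fun z hz => by rw [hκ0 z hz]; ring) hh
  have hst : ∀ z ∈ Strip (3 / 2 * L0), |(z - ((1 / 4 * L0 : ℝ) : ℂ)).re - L0 / 2| < 3 / 4 * L0 := by
    intro z hz
    have h1 := hz.1
    have h2 := hz.2
    rw [Complex.sub_re, Complex.ofReal_re, abs_lt]
    constructor <;> linarith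
  have hgeo : Geo (3 / 2 * L0) (3 / 4 * L0 - r') (3 / 4 * L0 + r') 2 Φ κ1 h
      (fun x => 2 * G1 (x - 1 / 4 * L0)) (fun x => G1 (x - 1 / 4 * L0)) := by
    refine ⟨hgeo0.prm, fun z hz => ?_, hgeo0.hΦ, hgeo0.hn⟩
    rw [← hgeo0.κΦ z hz, hB.Φpr z hz]
    have h2 := hst z hz
    have h3 := strip_om (stp_near (z := z - ((1 / 4 * L0 : ℝ) : ℂ)) (by linarith))
    rw [hκ1 _ h3, hκ0 _ h3, hΨ.zero _ h2]
  have hzero := h_zero_gen hX hpr (by
    have := h1.rL
    linarith) h1.sm h1.flat (fun x hx hn => h1.pos hP hx hn) hh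
  obtain ⟨s', hs', hgood⟩ : ∃ s : ℝ, |s| < 2 * s0 ∧ ∀ (u : ℕ → M → ℝ) (lam : ℕ → ℝ),
      EigBasis (D.conf fun x => Real.exp ((κ1 + s • h) x))
        (wm μ fun x => Real.exp ((κ1 + s • h) x)) u lam →
      ∃ J : Set ℕ, (∀ C : ℝ, ∃ᶠ Λ : ℝ in atTop,
        C * Real.sqrt Λ < ({j | j ∈ J ∧ lam j ≤ Λ}.ncard : ℝ)) ∧
        Tendsto (fun j => ∫ x, h x * (u j x) ^ 2 ∂(wm μ fun x => Real.exp ((κ1 + s • h) x)))
          (atTop ⊓ 𝓟 J) (𝓝 0) := by
    by_contra hcon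
    have hnull : volume {s : ℝ | |s| < 2 * s0} = 0 := by
      refine measure_mono_null ?_ (surf_main hB.surf hB.cyl hgeo)
      intro s hs hgood
      exact hcon ⟨s, hs, hgood⟩
    have hpos : 0 < volume {s : ℝ | |s| < 2 * s0} := by
      refine IsOpen.measure_pos volume ?_ ⟨0, by simpa using hs0⟩
      exact isOpen_lt continuous_abs continuous_const
    exact absurd hnull hpos.ne'
  set s : ℝ := s' / 2 with hs
  have hs2 : |s| < s0 := by
    rw [hs, abs_div, abs_two]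
    linarith
  refine ⟨s, hs2, fun κ hκ F Pf ψ α hF hα hα2 t ht u lam hu => ?_⟩
  have hκe : κ = κ1 + s' • h := by
    ext x
    obtain ⟨z, hz, rfl⟩ : x ∈ pr '' Om := by rw [hpr.surj]; trivial
    have e1 : (κ1 + s' • h) (pr z) = κ1 (pr z) + s' * h (pr z) := rfl
    rw [e1, hκ z hz, hκ1 z hz, hh z hz]
    have e2 := Hf_lin (fun x => G1 x - g x) (et G1 X 1) c 1 s z
    have e3 : (fun x => (fun x => G1 x - g x) x + s * et G1 X 1 x) =
        fun x => G1 x + s * et G1 X 1 x - g x := by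
      funext x
      ring
    rw [e3, mul_one] at e2
    rw [e2, hs]
    ring
  rw [hκe] at hu ⊢
  obtain ⟨J, hJ1, hJ2⟩ := hgood u lam hu
  set ν := wm μ fun x => Real.exp ((κ1 + s' • h) x) with hν
  -- the function is dominated by `h`
  set α' : ℝ := min α (3 / 4 * L0) with hα'
  have hαr : r' < α' := lt_min hα hα2
  have hU : IsOpen (Uc pr α') := uc_open hpr ((min_le_right _ _).trans (by linarith))
  have hK : IsCompact (Uc pr α')ᶜ := hU.isClosed_compl.isCompact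
  obtain ⟨b, hb, hbK⟩ : ∃ b : ℝ, 0 < b ∧ ∀ x ∈ (Uc pr α')ᶜ, b ≤ h x := by
    rcases ((Uc pr α')ᶜ).eq_empty_or_nonempty with hem | hne
    · exact ⟨1, one_pos, fun x hx => by rw [hem] at hx; exact absurd hx (notMem_empty x)⟩
    · obtain ⟨x0, hx0, hmin⟩ := hK.exists_isMinOn hne h.continuous.continuousOn
      refine ⟨h x0, lt_of_le_of_ne (hzero x0).1 fun hcon => ?_, fun x hx => hmin hx⟩
      obtain ⟨z, hz, hzx⟩ := (hzero x0).2.1 hcon.symm
      exact hx0 ⟨z, lt_of_le_of_lt hz hαr, hzx⟩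
  have hdom : ∀ x, -(‖F‖ / b * h x) ≤ F x := by
    intro x
    by_cases hx : x ∈ Uc pr α'
    · obtain ⟨z, hz, rfl⟩ := hx
      have hz' : |z.re - L0 / 2| < α' := hz
      rw [fn_zero hF z (hz'.trans_le (min_le_left _ _)) (hz'.trans_le (min_le_right _ _))]
      have := mul_nonneg (div_nonneg (norm_nonneg F) hb.le) (hzero (pr z)).1
      linarith
    · have h2 := hbK x hx
      have h3 := F.norm_coe_le_norm x
      rw [Real.norm_eq_abs] at h3
      have h4 : ‖F‖ ≤ ‖F‖ / b * h x := by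
        rw [div_mul_eq_mul_div, le_div_iff₀ hb]
        exact mul_le_mul_of_nonneg_left h2 (norm_nonneg F)
      have h5 := neg_abs_le (F x)
      linarith
  have hfin : IsFiniteMeasure ν := by
    have := (tFin M μ D hB.surf).1
    exact (tFin M _ _ (tConf M μ D hB.surf _ (Real.continuous_exp.comp (κ1 + s' • h).continuous)
      (fun x => Real.exp_pos _)).1).1
  have hu2 : ∀ j, Integrable (fun x => (u j x) ^ 2) ν := fun j => (hu.eig j).mem.integrable_sq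
  have hI : ∀ (f : C(M, ℝ)) j, Integrable (fun x => f x * (u j x) ^ 2) ν := fun f j => by
    obtain ⟨C, hC⟩ := isCompact_univ.exists_bound_of_continuousOn f.continuous.continuousOn
    exact (hu2 j).bdd_mul f.continuous.aestronglyMeasurable
      (Filter.Eventually.of_forall fun x => hC x (mem_univ x))
  have hlow : ∀ j, -(‖F‖ / b * ∫ x, h x * (u j x) ^ 2 ∂ν) ≤ ∫ x, F x * (u j x) ^ 2 ∂ν := by
    intro j
    rw [← integral_const_mul, ← integral_neg]
    refine integral_mono ((hI h j).const_mul _).neg (hI F j) fun x => ?_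
    have h2 := mul_le_mul_of_nonneg_right (hdom x) (sq_nonneg (u j x))
    show -(‖F‖ / b * (h x * (u j x) ^ 2)) ≤ F x * (u j x) ^ 2
    linarith
  have hlim : Tendsto (fun j => -(‖F‖ / b * ∫ x, h x * (u j x) ^ 2 ∂ν)) (atTop ⊓ 𝓟 J) (𝓝 0) := by
    simpa using (hJ2.const_mul (‖F‖ / b)).neg
  have hev := hlim.eventually (lt_mem_nhds ht)
  rw [eventually_inf_principal] at hev
  -- `J` is infinite
  have hinf : ∃ᶠ j in atTop, j ∈ J := by
    rw [← Nat.cofinite_eq_atTop, Filter.frequently_cofinite_iff_infinite]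
    intro hfinJ
    have hfinJ' : J.Finite := hfinJ
    obtain ⟨Λ, hΛ1, hΛ2⟩ := ((hJ1 (J.ncard : ℝ)).and_eventually (eventually_ge_atTop 1)).exists
    have h2 : ({j | j ∈ J ∧ lam j ≤ Λ}.ncard : ℝ) ≤ J.ncard :=
      Nat.cast_le.2 (ncard_le_ncard (fun j hj => hj.1) hfinJ')
    have h3 : (1 : ℝ) ≤ √Λ := Real.one_le_sqrt.2 hΛ2
    have h4 : (J.ncard : ℝ) ≤ J.ncard * √Λ := le_mul_of_one_le_right (Nat.cast_nonneg _) h3
    linarith
  exact (hinf.and_eventually hev).mono fun j hj => (hj.2 hj.1).trans_le (hlow j)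

end

end Pool.Agent.H240.IX
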